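import Pool.Agent.Lib.MP_6ff8d9_an.HDefs

/-!
# MP_6ff8d9 RATIONAL: definitions and the exact statements of the rows

`P, Q` polynomials, `f = P/Q`, `g = (1+f)/(1-f) = (Q+P)/(Q-P)`,
`W_j = Q ∂_j P - P ∂_j Q`, `r = ∑ z_j W_j`, reflection `z ↦ conj (W(z)/r(z))`.
Everything except the final statements lives on `Fin n → ℂ`; `Bn n` is the open Euclidean ball.
-/

open Metric Filter Topology MvPolynomial
open scoped ComplexConjugate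

namespace Pool.Agent.Lib.MP_6ff8d9_an.H22

open Pool.Agent.Lib.MP_6ff8d9_an Pool.Agent.Lib.MP_6ff8d9_an.Hom

noncomputable section

variable {n : ℕ}

/-- the open Euclidean unit ball -/
def Bn (n : ℕ) : Set (Fin n → ℂ) := {z | ∑ i, ‖z i‖ ^ 2 < 1}

/-- `W_j = Q ∂_j P - P ∂_j Q`, the numerator of `∂_j (P/Q)` -/
def Wr (P Q : MvPolynomial (Fin n) ℂ) (j : Fin n) : MvPolynomial (Fin n) ℂ :=
  Q * pderiv j P - P * pderiv j Q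

/-- `r = ∑ z_j W_j` -/
def Rr (P Q : MvPolynomial (Fin n) ℂ) : MvPolynomial (Fin n) ℂ := ∑ j, X j * Wr P Q j

/-- the reflection `z ↦ conj (W(z)/r(z))` -/
def rfl' (P Q : MvPolynomial (Fin n) ℂ) (z : Fin n → ℂ) : Fin n → ℂ :=
  fun j => conj (eval z (Wr P Q j) / eval z (Rr P Q))

/-- the duality identities -/
def Dual (P Q : MvPolynomial (Fin n) ℂ) : Prop :=
  Rr P Q ≠ 0 ∧ ∀ z : Fin n → ℂ, eval z (Rr P Q) ≠ 0 →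
    eval z P * conj (eval (rfl' P Q z) P) = eval z Q * conj (eval (rfl' P Q z) Q) ∧
    ∀ j, eval (rfl' P Q z) (Wr P Q j) = conj (z j) * eval (rfl' P Q z) (Rr P Q)

/-- `f = P/Q` -/
def fr (P Q : MvPolynomial (Fin n) ℂ) (z : Fin n → ℂ) : ℂ := eval z P / eval z Q

/-- `g = (1+f)/(1-f)` written as `(Q+P)/(Q-P)`, on `Cn n` -/
def gPQ (P Q : MvPolynomial (Fin n) ℂ) (z : Cn n) : ℂ :=
  (eval (fun i => z i) Q + eval (fun i => z i) P) / (eval (fun i => z i) Q - eval (fun i => z i) P)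

/-- the defect `|Q|² - |P|²` -/
def dfc (P Q : MvPolynomial (Fin n) ℂ) (z : Fin n → ℂ) : ℝ := ‖eval z Q‖ ^ 2 - ‖eval z P‖ ^ 2

/-- weak admissibility (zeros of `Q` on the sphere are allowed) -/
structure Adm0 (P Q : MvPolynomial (Fin n) ℂ) : Prop where
  lt : ∀ z : Fin n → ℂ, ∑ i, ‖z i‖ ^ 2 < 1 → ‖eval z P‖ < ‖eval z Q‖
  le : ∀ z : Fin n → ℂ, ∑ i, ‖z i‖ ^ 2 ≤ 1 → ‖eval z P‖ ≤ ‖eval z Q‖
  zero : eval (0 : Fin n → ℂ) P = 0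

/-- admissibility: moreover `Q` has no zero on the closed ball -/
structure Adm (P Q : MvPolynomial (Fin n) ℂ) : Prop extends Adm0 P Q where
  Qne : ∀ z : Fin n → ℂ, ∑ i, ‖z i‖ ^ 2 ≤ 1 → eval z Q ≠ 0

/-- the contact set -/
def Ct (P Q : MvPolynomial (Fin n) ℂ) : Set (Fin n → ℂ) :=
  {z | ∑ i, ‖z i‖ ^ 2 = 1 ∧ ‖eval z P‖ = ‖eval z Q‖}

/-- `dk ∧ df = 0` on the ball -/
def Wedge (P Q : MvPolynomial (Fin n) ℂ) (k : (Fin n → ℂ) → ℂ) : Prop :=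
  ∀ z ∈ Bn n, ∀ i j, eval z (Wr P Q j) * fderiv ℂ k z (Pi.single i 1) =
    eval z (Wr P Q i) * fderiv ℂ k z (Pi.single j 1)

/-- substitution of `W` -/
def gs (P Q : MvPolynomial (Fin n) ℂ) (p : MvPolynomial (Fin n) ℂ) : MvPolynomial (Fin n) ℂ :=
  bind₁ (Wr P Q) p

/-- conjugated coefficients -/
def br (p : MvPolynomial (Fin n) ℂ) : MvPolynomial (Fin n) ℂ := map (starRingEnd ℂ) p

/-- cleared form of the first identity (`N` large) -/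
def dl1 (P Q : MvPolynomial (Fin n) ℂ) (N : ℕ) : MvPolynomial (Fin n) ℂ :=
  P * ∑ k ∈ Finset.range (N + 1), gs P Q (homogeneousComponent k (br P)) * Rr P Q ^ (N - k) -
  Q * ∑ k ∈ Finset.range (N + 1), gs P Q (homogeneousComponent k (br Q)) * Rr P Q ^ (N - k)

/-- cleared form of the second identity (`N` large) -/
def dl2 (P Q : MvPolynomial (Fin n) ℂ) (N : ℕ) (j : Fin n) : MvPolynomial (Fin n) ℂ :=
  ∑ k ∈ Finset.range (N + 1), (gs P Q (homogeneousComponent k (br (Wr P Q j))) -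
    X j * gs P Q (homogeneousComponent k (br (Rr P Q)))) * Rr P Q ^ (N - k)

/-! ## Part A: extreme implies duality (zeros of `Q` on the sphere allowed) -/

/-- A1: `|Q| |W_i - conj ζ_i r| ≤ K √(|Q|²-|P|²)` on the sphere -/
def TANG : Prop := ∀ (n : ℕ) (P Q : MvPolynomial (Fin n) ℂ), Adm0 P Q →
  ∃ K : ℝ, 0 ≤ K ∧ ∀ ζ ∈ Sph n, ∀ i,
    ‖eval ζ Q‖ * ‖eval ζ (Wr P Q i) - conj (ζ i) * eval ζ (Rr P Q)‖ ≤ K * √(dfc P Q ζ)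

/-- A2: the two cleared identities hold up to `√(|Q|²-|P|²)` -/
def DEST : Prop := ∀ (n : ℕ) (P Q : MvPolynomial (Fin n) ℂ), Adm0 P Q →
  ∀ N : ℕ, P.totalDegree ≤ N → Q.totalDegree ≤ N → (∀ j, (Wr P Q j).totalDegree ≤ N) →
    (Rr P Q).totalDegree ≤ N →
  ∃ C : ℝ, 0 ≤ C ∧ ∀ ζ ∈ Sph n, ‖eval ζ (Q * dl1 P Q N)‖ ≤ C * √(dfc P Q ζ) ∧
    ∀ j, ‖eval ζ (Q * dl2 P Q N j)‖ ≤ C * √(dfc P Q ζ)

/-- A3: extreme ⇒ no nonzero polynomial is dominated by `√(|Q|²-|P|²)` on the sphere -/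
def NODOM : Prop := ∀ (n : ℕ) (P Q : MvPolynomial (Fin n) ℂ), 1 ≤ n → Adm0 P Q →
  IsExtremePoint n (gPQ P Q) → ∀ p : MvPolynomial (Fin n) ℂ,
  (∃ C : ℝ, 0 ≤ C ∧ ∀ ζ ∈ Sph n, ‖eval ζ p‖ ≤ C * √(dfc P Q ζ)) → p = 0

/-- A4: `g` in `N(𝔹)` gives admissibility; extreme gives `r ≠ 0` -/
def ADM : Prop := ∀ (n : ℕ) (P Q : MvPolynomial (Fin n) ℂ), 1 ≤ n → gPQ P Q ∈ NB n →
  Adm0 P Q ∧ ((∀ z : Cn n, ‖z‖ ≤ 1 → eval (fun i => z i) Q ≠ 0) → Adm P Q) ∧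
  (IsExtremePoint n (gPQ P Q) → Rr P Q ≠ 0)

/-- A5: the cleared identities give the duality -/
def CLEAR : Prop := ∀ (n : ℕ) (P Q : MvPolynomial (Fin n) ℂ), Rr P Q ≠ 0 →
  ∀ N : ℕ, P.totalDegree ≤ N → Q.totalDegree ≤ N → (∀ j, (Wr P Q j).totalDegree ≤ N) →
    (Rr P Q).totalDegree ≤ N → dl1 P Q N = 0 → (∀ j, dl2 P Q N j = 0) → Dual P Q

/-- composite functions are not extreme (the disc case is the classical one, to be proved) -/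
def COMPOSITE : Prop := ∀ (n : ℕ) (F : Cn n → ℂ) (h : ℂ → ℂ), 1 ≤ n →
  DifferentiableOn ℂ F (ball 0 1) → (∀ z ∈ ball (0 : Cn n) 1, ‖F z‖ < 1) → F 0 = 0 →
  DifferentiableOn ℂ h (ball 0 1) → (∀ w ∈ ball (0 : ℂ) 1, ‖h w‖ < 1) → h 0 = 0 →
  (¬ ∃ c : ℂ, ‖c‖ = 1 ∧ ∀ w ∈ ball (0 : ℂ) 1, h w = c * w) →
  ¬ IsExtremePoint n (fun z => (1 + h (F z)) / (1 - h (F z)))

/-! ## Part B: duality and connectedness imply extreme -/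

/-- B1: first order contact and Hopf/Schwarz -/
def CONTACT : Prop := ∀ (n : ℕ) (P Q : MvPolynomial (Fin n) ℂ), Adm P Q → ∀ m ∈ Ct P Q,
  (∀ j, eval m (Wr P Q j) = conj (m j) * eval m (Rr P Q)) ∧
  ∃ b : ℝ, 0 < b ∧ eval m (Rr P Q) = b * (eval m P * eval m Q)

/-- B2 (helper99): the local step -/
def LOCAL : Prop := ∀ (n : ℕ) (P Q : MvPolynomial (Fin n) ℂ), Adm P Q → Dual P Q →
  ∀ m ∈ Ct P Q, eval m P ≠ eval m Q → ∀ k : (Fin n → ℂ) → ℂ, DifferentiableOn ℂ k (Bn n) →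
  (∀ z ∈ Bn n, |(k z).re| ≤ ((eval z Q + eval z P) / (eval z Q - eval z P)).re) → Wedge P Q k

/-- B3: near a contact point, `k` with `dk ∧ df = 0` is a function of `f` on the radial segments
of all nearby contact points; the germ `L` lives on a full one-sided neighbourhood of `f(m)` -/
def LEAF : Prop := ∀ (n : ℕ) (P Q : MvPolynomial (Fin n) ℂ), Adm P Q → Dual P Q →
  ∀ k : (Fin n → ℂ) → ℂ, DifferentiableOn ℂ k (Bn n) → Wedge P Q k → ∀ m ∈ Ct P Q,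
  ∃ δ : ℝ, 0 < δ ∧ ∃ L : ℂ → ℂ, DifferentiableOn ℂ L (ball (fr P Q m) δ ∩ ball 0 1) ∧
    (∀ m' ∈ Ct P Q, dist m' m < δ → ∀ᶠ t : ℝ in 𝓝[>] 0,
      k ((1 - (t : ℂ)) • m') = L (fr P Q ((1 - (t : ℂ)) • m'))) ∧
    (∀ w ∈ ball (fr P Q m) δ ∩ ball 0 1, ∃ z ∈ Bn n, fr P Q z = w ∧ k z = L w) ∧
    (∃ V : Set (Fin n → ℂ), IsOpen V ∧ V.Nonempty ∧ V ⊆ Bn n ∧
      ∀ z ∈ V, fr P Q z ∈ ball (fr P Q m) δ ∧ k z = L (fr P Q z))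

/-- B4: `f` restricted to the contact set is locally surjective onto the circle -/
def LIFT : Prop := ∀ (n : ℕ) (P Q : MvPolynomial (Fin n) ℂ), Adm P Q → Dual P Q →
  ∀ m ∈ Ct P Q, ∀ ε : ℝ, 0 < ε → ∃ δ : ℝ, 0 < δ ∧ ∀ c : ℂ, ‖c‖ = 1 → dist c (fr P Q m) < δ →
    ∃ m' ∈ Ct P Q, dist m' m < ε ∧ fr P Q m' = c

/-- B5: the radial curves `t ↦ f((1-t)m)` -/
def RADIAL : Prop := ∀ (n : ℕ) (P Q : MvPolynomial (Fin n) ℂ), Adm P Q → ∀ m ∈ Ct P Q,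
  Tendsto (fun t : ℝ => fr P Q ((1 - (t : ℂ)) • m)) (𝓝[>] 0) (𝓝 (fr P Q m)) ∧
  ∀ᶠ t : ℝ in 𝓝[>] 0, ‖fr P Q ((1 - (t : ℂ)) • m)‖ < 1 ∧
    ∃ d : ℂ, d ≠ 0 ∧ HasDerivAt (fun t : ℝ => fr P Q ((1 - (t : ℂ)) • m)) d t

/-- B6 (abstract): uniqueness of the germ -/
def UNIQ : Prop := ∀ (c : ℂ) (δ : ℝ) (φ : ℝ → ℂ) (L L' : ℂ → ℂ), ‖c‖ = 1 → 0 < δ →
  Tendsto φ (𝓝[>] 0) (𝓝 c) →
  (∀ᶠ t : ℝ in 𝓝[>] 0, ‖φ t‖ < 1 ∧ ∃ d : ℂ, d ≠ 0 ∧ HasDerivAt φ d t) →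
  ∀ S : Set ℂ, Convex ℝ S → IsOpen S → ball c δ ∩ ball 0 1 ⊆ S →
  DifferentiableOn ℂ L S → DifferentiableOn ℂ L' S →
  (∀ᶠ t : ℝ in 𝓝[>] 0, L (φ t) = L' (φ t)) → Set.EqOn L L' S

/-- B7 (abstract, purely topological + identity theorem): the germs glue to a function on an
annulus as soon as the level set over `1` is connected.  `X` = contact set, `F` = `f` on it,
`φ x t = f((1-t)x)`, `κ x t = k((1-t)x)`. -/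
def GLUE : Prop := ∀ (X : Type) [MetricSpace X] [CompactSpace X] (F : X → ℂ) (φ κ : X → ℝ → ℂ),
  Continuous F → (∀ x, ‖F x‖ = 1) →
  (∀ x, Tendsto (φ x) (𝓝[>] 0) (𝓝 (F x))) →
  (∀ x, ∀ᶠ t : ℝ in 𝓝[>] 0, ‖φ x t‖ < 1 ∧ ∃ d : ℂ, d ≠ 0 ∧ HasDerivAt (φ x) d t) →
  (∀ x, ∃ δ : ℝ, 0 < δ ∧ ∃ L : ℂ → ℂ, DifferentiableOn ℂ L (ball (F x) δ ∩ ball 0 1) ∧
    ∀ y, dist y x < δ → ∀ᶠ t : ℝ in 𝓝[>] 0, κ y t = L (φ y t)) →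
  (∀ x, ∀ ε : ℝ, 0 < ε → ∃ δ : ℝ, 0 < δ ∧ ∀ c : ℂ, ‖c‖ = 1 → dist c (F x) < δ →
    ∃ y, dist y x < ε ∧ F y = c) →
  IsConnected (F ⁻¹' {1}) →
  (∀ c : ℂ, ‖c‖ = 1 → ∃ x, F x = c) ∧
  ∃ δ : ℝ, 0 < δ ∧ δ < 1 ∧ ∃ K : ℂ → ℂ, DifferentiableOn ℂ K {w | 1 - δ < ‖w‖ ∧ ‖w‖ < 1} ∧
    ∀ x, ∀ᶠ t : ℝ in 𝓝[>] 0, κ x t = K (φ x t)

/-- B8: `k f^j df` is exact on the ball and the primitive satisfies the same equation -/
def POINC : Prop := ∀ (n : ℕ) (P Q : MvPolynomial (Fin n) ℂ), Adm P Q →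
  ∀ k : (Fin n → ℂ) → ℂ, DifferentiableOn ℂ k (Bn n) → Wedge P Q k → ∀ j : ℕ,
  ∃ h : (Fin n → ℂ) → ℂ, DifferentiableOn ℂ h (Bn n) ∧ Wedge P Q h ∧
    ∀ z ∈ Bn n, fderiv ℂ h z = (k z * fr P Q z ^ j) • fderiv ℂ (fr P Q) z

/-- B9: a function on an annulus all of whose moments have primitives extends to the disc -/
def LAUR : Prop := ∀ (δ : ℝ) (K : ℂ → ℂ), 0 < δ → δ < 1 →
  DifferentiableOn ℂ K {w | 1 - δ < ‖w‖ ∧ ‖w‖ < 1} →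
  (∀ j : ℕ, ∃ H : ℂ → ℂ, ∀ w : ℂ, 1 - δ < ‖w‖ → ‖w‖ < 1 → HasDerivAt H (K w * w ^ j) w) →
  ∃ K' : ℂ → ℂ, DifferentiableOn ℂ K' (ball 0 1) ∧ ∀ w : ℂ, 1 - δ < ‖w‖ → ‖w‖ < 1 → K' w = K w

/-- B10: the disc step with the maximum principle -/
def DISC : Prop := ∀ (δ : ℝ) (K : ℂ → ℂ), 0 < δ → δ < 1 → DifferentiableOn ℂ K (ball 0 1) →
  K 0 = 0 → (∀ w : ℂ, 1 - δ < ‖w‖ → ‖w‖ < 1 → |(K w).re| ≤ ((1 + w) / (1 - w)).re) →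
  ∀ w ∈ ball (0 : ℂ) 1, K w = 0

/-- B11: if no nonzero `k` with `|Re k| ≤ Re g`, `k(0) = 0` exists then `g` is extreme -/
def EXT : Prop := ∀ (n : ℕ) (P Q : MvPolynomial (Fin n) ℂ), gPQ P Q ∈ NB n →
  (∀ k : (Fin n → ℂ) → ℂ, DifferentiableOn ℂ k (Bn n) → k 0 = 0 →
    (∀ z ∈ Bn n, |(k z).re| ≤ ((eval z Q + eval z P) / (eval z Q - eval z P)).re) →
    ∀ z ∈ Bn n, k z = 0) → IsExtremePoint n (gPQ P Q)

/-! ## The final statements -/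

/-- every extreme point which is a rational function satisfies the duality -/
def FINAL1 : Prop := ∀ (n : ℕ) (P Q : MvPolynomial (Fin n) ℂ), 1 ≤ n →
  IsExtremePoint n (gPQ P Q) → Dual P Q

/-- the converse when `Q` has no zero on the closed ball and `{P = Q}` is connected in the
sphere -/
def FINAL2 : Prop := ∀ (n : ℕ) (P Q : MvPolynomial (Fin n) ℂ), 1 ≤ n → gPQ P Q ∈ NB n →
  (∀ z : Cn n, ‖z‖ ≤ 1 → eval (fun i => z i) Q ≠ 0) → Dual P Q →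
  IsConnected {z : Cn n | ‖z‖ = 1 ∧ eval (fun i => z i) P = eval (fun i => z i) Q} →
  IsExtremePoint n (gPQ P Q)

end

end Pool.Agent.Lib.MP_6ff8d9_an.H22
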