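import Pool.Agent.Lib.MP_6ff8d9_an_h21r.Alg
import Pool.Agent.Lib.MP_6ff8d9_an_h22.Rows

/-!
# The rows TANG, DEST, CLEAR of the rational case, joined: no dominated polynomial ⇒ duality
-/

open Metric Filter Topology MvPolynomial
open scoped ComplexConjugate

namespace Pool.Agent.Lib.MP_6ff8d9_an.H22

open Pool.Agent.Lib.MP_6ff8d9_an Pool.Agent.Lib.MP_6ff8d9_an.Hom

noncomputable section

theorem tang : TANG := by
  intro n P Q h
  obtain ⟨K, hK0, hK⟩ := Rat.tangR P Q h.le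
  refine ⟨K, hK0, fun ζ hζ i => ?_⟩
  rw [← norm_mul]
  exact hK ζ hζ i

/-- TANG, DEST and CLEAR together: if no nonzero polynomial is `O(√(|Q|² - |P|²))` on the sphere
then the duality identities hold. -/
theorem dual_of_noDom (n : ℕ) (P Q : MvPolynomial (Fin n) ℂ) (h : Adm0 P Q) (hr : Rr P Q ≠ 0)
    (hno : ∀ p : MvPolynomial (Fin n) ℂ,
      (∃ C : ℝ, 0 ≤ C ∧ ∀ ζ ∈ Sph n, ‖eval ζ p‖ ≤ C * √(dfc P Q ζ)) → p = 0) : Dual P Q := by
  have hQ : Q ≠ 0 := by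
    rintro rfl
    have := h.lt 0 (by simp)
    rw [map_zero, norm_zero] at this
    exact absurd this (not_lt.2 (norm_nonneg _))
  have hno' : Rat.NoDomR P Q := by
    intro p hp
    have h1 : p ^ 1 = 0 := by
      rw [pow_one]
      obtain ⟨B, hB0, hB⟩ : ∃ B : ℝ, 0 ≤ B ∧ ∀ ζ ∈ Sph n, ‖eval ζ Q‖ ≤ B := by
        by_cases hn : n = 0
        · refine ⟨0, le_rfl, fun ζ hζ => ?_⟩
          exfalso
          subst hn
          have : (∑ i : Fin 0, ‖ζ i‖ ^ 2) = 1 := hζ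
          simp at this
        · have i₀ : Fin n := ⟨0, Nat.pos_of_ne_zero hn⟩
          obtain ⟨C, hC0, hC⟩ := M2.expansion Q
          exact ⟨C, hC0, fun ζ hζ => (hC ζ hζ i₀).1⟩
      refine hno p ⟨B, hB0, fun ζ hζ => ?_⟩
      have h2 := hp ζ hζ
      have h3 : 0 ≤ dfc P Q ζ := (norm_nonneg _).trans h2
      have h4 : dfc P Q ζ ≤ B ^ 2 := by
        have := hB ζ hζ
        unfold dfc
        nlinarith [norm_nonneg (eval ζ Q), norm_nonneg (eval ζ P)]
      have h5 : √(dfc P Q ζ) ≤ B := (Real.sqrt_le_left hB0).2 h4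
      calc ‖eval ζ p‖ ≤ dfc P Q ζ := h2
        _ = √(dfc P Q ζ) * √(dfc P Q ζ) := (Real.mul_self_sqrt h3).symm
        _ ≤ B * √(dfc P Q ζ) := mul_le_mul_of_nonneg_right h5 (Real.sqrt_nonneg _)
    rwa [pow_one] at h1
  have hd := Rat.dual_of_noDom hQ hno' h.le
  refine ⟨hr, fun z hz => ?_⟩
  obtain ⟨h1, h2⟩ := hd z hz
  refine ⟨h1, fun j => ?_⟩
  have h3 := congrArg conj (h2 j)
  rw [Complex.conj_conj, map_mul, Complex.conj_conj] at h3
  exact h3

/-- FINAL1 from NODOM and ADM -/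
theorem final1 (hN : NODOM) (hA : ADM) : FINAL1 := by
  intro n P Q hn hex
  obtain ⟨h1, _, h2⟩ := hA n P Q hn hex.1
  exact dual_of_noDom n P Q h1 (h2 hex) (hN n P Q hn h1 hex)

end

end Pool.Agent.Lib.MP_6ff8d9_an.H22
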