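import Pool.Agent.Lib.MP_6ff8d9_an_h22.Asm4
import Pool.Agent.Lib.MP_6ff8d9_an_h22.AlgRows
import Pool.Agent.Lib.MP_6ff8d9_an_h20r.Adm
import Pool.Agent.Lib.MP_6ff8d9_an_h82.Glue
import Pool.Agent.Lib.MP_6ff8d9_an_h82.EndC
import Pool.Agent.Lib.MP_6ff8d9_an_h77.Radial
import Pool.Agent.Lib.MP_6ff8d9_an_h77.Poinc
import Pool.Agent.Lib.MP_6ff8d9_an_h99.LocalRow

open Metric Filter Topology MvPolynomial
open scoped ComplexConjugate

namespace Pool.Agent.Lib.MP_6ff8d9_an.H22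

open Pool.Agent.Lib.MP_6ff8d9_an Pool.Agent.Lib.MP_6ff8d9_an.Hom

theorem ends : ENDS := by
  intro r C K hr0 hr hK hb hper
  obtain ⟨κ, hκ⟩ := Rat.H82.end_step hr0 hr hK (C := C) (fun w hw => hb w hw.1 hw.2) hper
  exact ⟨κ, fun w h1 h2 => hκ w ⟨h1, h2⟩⟩

/-- every rational extreme point satisfies the duality -/
theorem final1_row : FINAL1 := final1 nodom H20R.adm

/-- the converse, from CONTACT, SEC, LOC -/
theorem final2_of (hC : CONTACT) (hS : SEC) (hL : LOC) : FINAL2 :=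
  final2 H20R.adm (H99.local_of hC) hS hL (radial_of hC) Rat.H82.uniq Rat.H82.glue poinc ends

end Pool.Agent.Lib.MP_6ff8d9_an.H22
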