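import Pool.Agent.Lib.MP_6ff8d9_an_h22.Asm

open Metric Filter Topology MvPolynomial
open scoped ComplexConjugate

namespace Pool.Agent.Lib.MP_6ff8d9_an.H22

open Pool.Agent.Lib.MP_6ff8d9_an Pool.Agent.Lib.MP_6ff8d9_an.Hom

noncomputable section

variable {n : ℕ} {P Q : MvPolynomial (Fin n) ℂ}

lemma norm_coord_le {z : Fin n → ℂ} (hz : ∑ i, ‖z i‖ ^ 2 ≤ 1) (k : Fin n) : ‖z k‖ ≤ 1 := by
  have h7 : ‖z k‖ ^ 2 ≤ ∑ i, ‖z i‖ ^ 2 :=
    Finset.single_le_sum (f := fun i => ‖z i‖ ^ 2) (fun i _ => by positivity) (Finset.mem_univ k)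
  nlinarith [norm_nonneg (z k)]

lemma isCompact_Ct (P Q : MvPolynomial (Fin n) ℂ) : IsCompact (Ct P Q) := by
  refine Metric.isCompact_of_isClosed_isBounded ?_ ?_
  · refine (isClosed_eq (by fun_prop) continuous_const).inter (isClosed_eq ?_ ?_)
    · exact (diff_eval P).continuous.norm
    · exact (diff_eval Q).continuous.norm
  · refine (isBounded_closedBall (x := (0 : Fin n → ℂ)) (r := 1)).subset fun z hz => ?_
    rw [mem_closedBall_zero_iff, pi_norm_le_iff_of_nonneg zero_le_one]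
    exact fun i => norm_coord_le (le_of_eq hz.1) i

lemma norm_fr_Ct (hA : Adm P Q) {m : Fin n → ℂ} (hm : m ∈ Ct P Q) : ‖fr P Q m‖ = 1 := by
  have h1 := hA.Qne m (le_of_eq hm.1)
  unfold fr
  rw [norm_div, hm.2, div_self (norm_ne_zero_iff.2 h1)]

lemma norm_fr_lt (hA : Adm P Q) {z : Fin n → ℂ} (hz : z ∈ Bn n) : ‖fr P Q z‖ < 1 := by
  have h1 := hA.lt z hz
  unfold fr
  rw [norm_div, div_lt_one ((norm_nonneg _).trans_lt h1)]
  exact h1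

lemma diffOn_fr (hA : Adm P Q) : DifferentiableOn ℂ (fr P Q) (Bn n) := fun z hz =>
  (diffAt_fr (hA.Qne z (le_of_lt hz))).differentiableWithinAt

/-- application of GLUE -/
lemma glue_app (hSEC : SEC) (hLOC : LOC) (hRAD : RADIAL) (hG : GLUE) (hA : Adm P Q)
    (hD : Dual P Q) (hc : IsConnected {z | z ∈ Ct P Q ∧ eval z P = eval z Q})
    {k : (Fin n → ℂ) → ℂ} (hk : DifferentiableOn ℂ k (Bn n)) (hw : Wedge P Q k) :
    (∀ c : ℂ, ‖c‖ = 1 → ∃ x ∈ Ct P Q, fr P Q x = c) ∧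
    ∃ δ : ℝ, 0 < δ ∧ δ < 1 ∧ ∃ K : ℂ → ℂ, DifferentiableOn ℂ K {w | 1 - δ < ‖w‖ ∧ ‖w‖ < 1} ∧
      ∀ x ∈ Ct P Q, ∀ᶠ t : ℝ in 𝓝[>] 0,
        k ((1 - (t : ℂ)) • x) = K (fr P Q ((1 - (t : ℂ)) • x)) := by
  have hcomp : CompactSpace {z // z ∈ Ct P Q} := isCompact_iff_compactSpace.1 (isCompact_Ct P Q)
  have key := hG {z // z ∈ Ct P Q} (fun x => fr P Q x.1)
    (fun x t => fr P Q ((1 - (t : ℂ)) • x.1)) (fun x t => k ((1 - (t : ℂ)) • x.1))
    ?_ ?_ ?_ ?_ ?_ ?_ ?_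
  · obtain ⟨h1, δ, hδ, hδ1, K, hK, h2⟩ := key
    refine ⟨fun c hc => ?_, δ, hδ, hδ1, K, hK, fun x hx => h2 ⟨x, hx⟩⟩
    obtain ⟨x, hx⟩ := h1 c hc
    exact ⟨x.1, x.2, hx⟩
  · rw [continuous_iff_continuousAt]
    intro x
    exact (diffAt_fr (hA.Qne x.1 (le_of_eq x.2.1))).continuousAt.comp
      continuous_subtype_val.continuousAt
  · exact fun x => norm_fr_Ct hA x.2
  · exact fun x => (hRAD n P Q hA x.1 x.2).1
  · exact fun x => (hRAD n P Q hA x.1 x.2).2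
  · intro x
    obtain ⟨δ, hδ, ε, hε, L, hL, h⟩ := hLOC n P Q hA hD k hk hw x.1 x.2
    refine ⟨min δ ε, lt_min hδ hε, L, hL.mono (Set.inter_subset_inter_left _
      (ball_subset_ball (min_le_right _ _))), fun y hy => ?_⟩
    have h1 : Tendsto (fun t : ℝ => (1 - (t : ℂ)) • y.1) (𝓝[>] 0) (𝓝 y.1) := by
      have : Tendsto (fun t : ℝ => (1 - (t : ℂ)) • y.1) (𝓝 0) (𝓝 ((1 - ((0 : ℝ) : ℂ)) • y.1)) := by
        have hc : Continuous fun t : ℝ => (1 - (t : ℂ)) • y.1 := by fun_prop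
        exact hc.tendsto 0
      rw [Complex.ofReal_zero, sub_zero, one_smul] at this
      exact this.mono_left nhdsWithin_le_nhds
    have h2 : ∀ᶠ t : ℝ in 𝓝[>] 0, dist ((1 - (t : ℂ)) • y.1) x.1 < δ := by
      have h3 : dist y.1 x.1 < δ := lt_of_lt_of_le hy (min_le_left _ _)
      have h4 : ∀ᶠ z in 𝓝 y.1, dist z x.1 < δ :=
        (continuous_id.dist continuous_const).continuousAt.eventually_lt continuousAt_const h3
      exact h1.eventually h4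
    have h5 : ∀ᶠ t : ℝ in 𝓝[>] 0, t ≤ 1 :=
      nhdsWithin_le_nhds (eventually_le_nhds one_pos)
    filter_upwards [h2, h5, self_mem_nhdsWithin] with t ht ht1 ht0
    exact (h _ (smul_mem_Bn y.2.1 ht0 ht1) ht).2
  · intro x ε hε
    obtain ⟨δ, hδ, -, h⟩ := hSEC n P Q hA hD x.1 x.2 ε hε
    refine ⟨δ, hδ, fun c hc hcx => ?_⟩
    obtain ⟨m', hm', h1, h2⟩ := h c hc hcx
    exact ⟨⟨m', hm'⟩, h1, h2⟩
  · have h1 : (fun x : {z // z ∈ Ct P Q} => fr P Q x.1) ⁻¹' {1} =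
        Subtype.val ⁻¹' {z | z ∈ Ct P Q ∧ eval z P = eval z Q} := by
      ext x
      have hQ := hA.Qne x.1 (le_of_eq x.2.1)
      simp only [Set.mem_preimage, Set.mem_singleton_iff, Set.mem_ofPred_eq]
      unfold fr
      rw [div_eq_one_iff_eq hQ]
      exact ⟨fun h => ⟨x.2, h⟩, fun h => h.2⟩
    rw [h1]
    have h2 : {z | z ∈ Ct P Q ∧ eval z P = eval z Q} ⊆ Set.range (Subtype.val :
        {z // z ∈ Ct P Q} → (Fin n → ℂ)) := by
      rw [Subtype.range_val]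
      exact fun z hz => hz.1
    refine ⟨?_, ?_⟩
    · obtain ⟨z, hz⟩ := hc.nonempty
      exact ⟨⟨z, hz.1⟩, hz⟩
    · exact (Topology.IsInducing.subtypeVal.isPreconnected_image).1 (by
        rw [Set.image_preimage_eq_of_subset h2]
        exact hc.isPreconnected)

/-- `k = K ∘ f` on the ball near every contact point -/
lemma loc_K (hLOC : LOC) (hRAD : RADIAL) (hU : UNIQ) (hA : Adm P Q) (hD : Dual P Q)
    {k : (Fin n → ℂ) → ℂ} (hk : DifferentiableOn ℂ k (Bn n)) (hw : Wedge P Q k) {δ : ℝ}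
    (hδ : 0 < δ) {K : ℂ → ℂ} (hK : DifferentiableOn ℂ K {w | 1 - δ < ‖w‖ ∧ ‖w‖ < 1})
    {x : Fin n → ℂ} (hx : x ∈ Ct P Q) (hrad : ∀ᶠ t : ℝ in 𝓝[>] 0,
        k ((1 - (t : ℂ)) • x) = K (fr P Q ((1 - (t : ℂ)) • x))) :
    ∃ δ₁ : ℝ, 0 < δ₁ ∧ ∀ z ∈ Bn n, dist z x < δ₁ → k z = K (fr P Q z) := by
  obtain ⟨δ₂, hδ₂, ε, hε, L, hL, h⟩ := hLOC n P Q hA hD k hk hw x hx
  have hc := norm_fr_Ct hA hx
  set c := fr P Q x with hcdef
  set ε' := min ε δ with hε'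
  have hε'0 : 0 < ε' := lt_min hε hδ
  have hsub : ball c ε' ∩ ball 0 1 ⊆ {w : ℂ | 1 - δ < ‖w‖ ∧ ‖w‖ < 1} := by
    rintro w ⟨h1, h2⟩
    refine ⟨?_, mem_ball_zero_iff.1 h2⟩
    have h3 : ‖w - c‖ < δ := by
      rw [← dist_eq_norm]
      exact lt_of_lt_of_le h1 (min_le_right _ _)
    have h4 := norm_sub_norm_le c w
    rw [hc, norm_sub_rev] at h4
    linarith
  have hrel : ∀ᶠ t : ℝ in 𝓝[>] 0, L (fr P Q ((1 - (t : ℂ)) • x)) =
      K (fr P Q ((1 - (t : ℂ)) • x)) := by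
    have h1 : Tendsto (fun t : ℝ => (1 - (t : ℂ)) • x) (𝓝[>] 0) (𝓝 x) := by
      have : Tendsto (fun t : ℝ => (1 - (t : ℂ)) • x) (𝓝 0) (𝓝 ((1 - ((0 : ℝ) : ℂ)) • x)) := by
        have hc : Continuous fun t : ℝ => (1 - (t : ℂ)) • x := by fun_prop
        exact hc.tendsto 0
      rw [Complex.ofReal_zero, sub_zero, one_smul] at this
      exact this.mono_left nhdsWithin_le_nhds
    have h2 : ∀ᶠ t : ℝ in 𝓝[>] 0, dist ((1 - (t : ℂ)) • x) x < δ₂ :=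
      h1.eventually (ball_mem_nhds x hδ₂)
    have h5 : ∀ᶠ t : ℝ in 𝓝[>] 0, t ≤ 1 :=
      nhdsWithin_le_nhds (eventually_le_nhds one_pos)
    filter_upwards [h2, h5, self_mem_nhdsWithin, hrad] with t ht ht1 ht0 hr
    rw [← hr]
    exact ((h _ (smul_mem_Bn hx.1 ht0 ht1) ht).2).symm
  have hEq := hU c ε' (fun t => fr P Q ((1 - (t : ℂ)) • x)) L K hc hε'0
    (hRAD n P Q hA x hx).1 (hRAD n P Q hA x hx).2 (ball c ε' ∩ ball 0 1)
    ((convex_ball _ _).inter (convex_ball _ _)) (isOpen_ball.inter isOpen_ball) subset_rfl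
    (hL.mono (Set.inter_subset_inter_left _ (ball_subset_ball (min_le_left _ _))))
    (hK.mono hsub) hrel
  have hcont : ContinuousAt (fr P Q) x := (diffAt_fr (hA.Qne x (le_of_eq hx.1))).continuousAt
  obtain ⟨δ₃, hδ₃, h3⟩ := Metric.continuousAt_iff.1 hcont ε' hε'0
  refine ⟨min δ₂ δ₃, lt_min hδ₂ hδ₃, fun z hz hzx => ?_⟩
  have h4 := h z hz (hzx.trans_le (min_le_left _ _))
  rw [h4.2]
  refine hEq ⟨?_, ?_⟩
  · exact h3 (hzx.trans_le (min_le_right _ _))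
  · exact mem_ball_zero_iff.2 (norm_fr_lt hA hz)

end

end Pool.Agent.Lib.MP_6ff8d9_an.H22
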