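import Pool.Agent.Lib.MP_6ff8d9_an_h22.Rows

open Metric Filter Topology MvPolynomial
open scoped ComplexConjugate

namespace Pool.Agent.Lib.MP_6ff8d9_an.H22

open Pool.Agent.Lib.MP_6ff8d9_an Pool.Agent.Lib.MP_6ff8d9_an.Hom

noncomputable section

lemma mem_ball_iff_Bn {n : ℕ} (z : Cn n) : z ∈ ball (0 : Cn n) 1 ↔ (fun i => z i) ∈ Bn n := by
  rw [mem_ball_zero_iff]
  show _ ↔ ∑ i, ‖z i‖ ^ 2 < 1
  rw [← EuclideanSpace.norm_sq_eq]
  constructor
  · intro h
    nlinarith [norm_nonneg z]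
  · intro h
    nlinarith [norm_nonneg z]

lemma toLp_mem {n : ℕ} {z : Fin n → ℂ} (hz : z ∈ Bn n) :
    (WithLp.toLp 2 z : Cn n) ∈ ball (0 : Cn n) 1 := (mem_ball_iff_Bn _).2 hz

/-- transfer of holomorphy from `Cn n` to `Fin n → ℂ` -/
lemma diff_transfer {n : ℕ} {g : Cn n → ℂ} (hg : DifferentiableOn ℂ g (ball 0 1)) :
    DifferentiableOn ℂ (fun z : Fin n → ℂ => g (WithLp.toLp 2 z)) (Bn n) := by
  intro z hz
  have h1 := (hg _ (toLp_mem hz)).differentiableAt (isOpen_ball.mem_nhds (toLp_mem hz))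
  have h2 : DifferentiableAt ℂ (fun z : Fin n → ℂ => (WithLp.toLp 2 z : Cn n)) z :=
    ((PiLp.continuousLinearEquiv 2 ℂ (fun _ : Fin n => ℂ)).symm).differentiableAt
  exact (h1.comp z h2).differentiableWithinAt

theorem ext : EXT := by
  intro n P Q hg H
  refine ⟨hg, fun g₁ h₁ g₂ h₂ t ht0 ht1 hdec => ?_⟩
  set ε : ℝ := min t (1 - t) with hε
  have hε0 : 0 < ε := lt_min ht0 (by linarith)
  have hε1 : ε ≤ t := min_le_left _ _
  have hε2 : ε ≤ 1 - t := min_le_right _ _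
  set k : (Fin n → ℂ) → ℂ := fun z =>
    (ε : ℂ) * (g₁ (WithLp.toLp 2 z) - g₂ (WithLp.toLp 2 z)) with hk
  have hkd : DifferentiableOn ℂ k (Bn n) :=
    ((diff_transfer h₁.1).fun_sub (diff_transfer h₂.1)).const_mul (ε : ℂ)
  have hk0 : k 0 = 0 := by
    have e1 : (WithLp.toLp 2 (0 : Fin n → ℂ) : Cn n) = 0 := rfl
    simp only [hk]
    rw [e1, h₁.2.2, h₂.2.2, sub_self, mul_zero]
  have hkre : ∀ z ∈ Bn n, |(k z).re| ≤ ((eval z Q + eval z P) / (eval z Q - eval z P)).re := by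
    intro z hz
    have hz' := toLp_mem hz
    have e1 := hdec _ hz'
    have e2 : gPQ P Q (WithLp.toLp 2 z) = (eval z Q + eval z P) / (eval z Q - eval z P) := rfl
    rw [← e2, e1]
    have a1 := h₁.2.1 _ hz'
    have a2 := h₂.2.1 _ hz'
    set A := g₁ (WithLp.toLp 2 z) with hA
    set B := g₂ (WithLp.toLp 2 z) with hB
    have e3 : (k z).re = ε * (A.re - B.re) := by
      simp only [hk]
      rw [Complex.re_ofReal_mul, Complex.sub_re]
    have e4 : ((t : ℂ) * A + (1 - (t : ℂ)) * B).re = t * A.re + (1 - t) * B.re := by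
      rw [Complex.add_re, Complex.re_ofReal_mul]
      have : (1 - (t : ℂ)) = ((1 - t : ℝ) : ℂ) := by push_cast; rfl
      rw [this, Complex.re_ofReal_mul]
    rw [e3, e4, abs_le]
    constructor
    · nlinarith
    · nlinarith
  intro z hz
  have hz2 : (fun i => z i) ∈ Bn n := (mem_ball_iff_Bn z).1 hz
  have h3 := H k hkd hk0 hkre _ hz2
  simp only [hk] at h3
  have h4 : (WithLp.toLp 2 (fun i => z i) : Cn n) = z := rfl
  rw [h4] at h3
  have h5 : (ε : ℂ) ≠ 0 := by exact_mod_cast hε0.ne'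
  exact sub_eq_zero.1 ((mul_eq_zero.1 h3).resolve_left h5)

end

end Pool.Agent.Lib.MP_6ff8d9_an.H22
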