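import Pool.Agent.Lib.MP_6ff8d9_an_h22.Ext

open Metric Filter Topology MvPolynomial
open scoped ComplexConjugate

namespace Pool.Agent.Lib.MP_6ff8d9_an.H22

open Pool.Agent.Lib.MP_6ff8d9_an Pool.Agent.Lib.MP_6ff8d9_an.Hom

noncomputable section

/-- (Sec), helper82's form: one-sided local surjectivity of `f` near a contact point -/
def SEC : Prop := ∀ (n : ℕ) (P Q : MvPolynomial (Fin n) ℂ), Adm P Q → Dual P Q →
  ∀ m ∈ Ct P Q, ∀ δ : ℝ, 0 < δ → ∃ ε : ℝ, 0 < ε ∧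
    (∀ w ∈ ball (fr P Q m) ε ∩ ball 0 1, ∃ z ∈ Bn n, dist z m < δ ∧ fr P Q z = w) ∧
    (∀ c : ℂ, ‖c‖ = 1 → dist c (fr P Q m) < ε → ∃ m' ∈ Ct P Q, dist m' m < δ ∧ fr P Q m' = c)

/-- (Loc), helper82's form: near a contact point every `k` with `dk ∧ df = 0` is a function of
`f` -/
def LOC : Prop := ∀ (n : ℕ) (P Q : MvPolynomial (Fin n) ℂ), Adm P Q → Dual P Q →
  ∀ k : (Fin n → ℂ) → ℂ, DifferentiableOn ℂ k (Bn n) → Wedge P Q k → ∀ m ∈ Ct P Q,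
  ∃ δ : ℝ, 0 < δ ∧ ∃ ε : ℝ, 0 < ε ∧ ∃ L : ℂ → ℂ,
    DifferentiableOn ℂ L (ball (fr P Q m) ε ∩ ball 0 1) ∧
    ∀ z ∈ Bn n, dist z m < δ → fr P Q z ∈ ball (fr P Q m) ε ∧ k z = L (fr P Q z)

/-- helper82's end step -/
def ENDS : Prop := ∀ (r C : ℝ) (K : ℂ → ℂ), 0 < r → r < 1 →
  DifferentiableOn ℂ K {w | r < ‖w‖ ∧ ‖w‖ < 1} →
  (∀ w : ℂ, r < ‖w‖ → ‖w‖ < 1 → |(K w).re| ≤ C * (1 - ‖w‖ ^ 2) / ‖1 - w‖ ^ 2) →
  (∀ j : ℕ, ∀ ρ : ℝ, r < ρ → ρ < 1 → (∮ w in C(0, ρ), K w * w ^ j) = 0) →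
  ∃ κ : ℂ, ∀ w : ℂ, r < ‖w‖ → ‖w‖ < 1 → K w = κ + 2 * (κ.re : ℂ) * w / (1 - w)

lemma isOpen_Bn (n : ℕ) : IsOpen (Bn n) := by
  refine isOpen_lt (by fun_prop) continuous_const

lemma convex_Bn (n : ℕ) : Convex ℝ (Bn n) := by
  have h1 : Bn n = (fun z : Fin n → ℂ => (WithLp.toLp 2 z : Cn n)) ⁻¹' ball (0 : Cn n) 1 := by
    ext z
    rw [Set.mem_preimage, mem_ball_iff_Bn]
  rw [h1]
  have h2 : (fun z : Fin n → ℂ => (WithLp.toLp 2 z : Cn n)) =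
      ((WithLp.linearEquiv 2 ℝ (Fin n → ℂ)).symm : (Fin n → ℂ) →ₗ[ℝ] Cn n) := rfl
  rw [h2]
  exact (convex_ball _ _).linear_preimage _

lemma zero_mem_Bn (n : ℕ) : (0 : Fin n → ℂ) ∈ Bn n := by
  show ∑ i, ‖(0 : Fin n → ℂ) i‖ ^ 2 < 1
  simp

lemma smul_mem_Bn {n : ℕ} {m : Fin n → ℂ} (hm : ∑ i, ‖m i‖ ^ 2 = 1) {t : ℝ} (h0 : 0 < t)
    (h1 : t ≤ 1) : (1 - (t : ℂ)) • m ∈ Bn n := by
  show ∑ i, ‖((1 - (t : ℂ)) • m) i‖ ^ 2 < 1
  have e : (1 - (t : ℂ)) = ((1 - t : ℝ) : ℂ) := by push_cast; rfl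
  have h2 : ∀ i, ‖((1 - (t : ℂ)) • m) i‖ ^ 2 = (1 - t) ^ 2 * ‖m i‖ ^ 2 := by
    intro i
    rw [Pi.smul_apply, smul_eq_mul, norm_mul, e, Complex.norm_real,
      Real.norm_of_nonneg (by linarith)]
    ring
  rw [Finset.sum_congr rfl fun i _ => h2 i, ← Finset.mul_sum, hm]
  nlinarith

/-- identity theorem on the ball -/
lemma ident {n : ℕ} {u : (Fin n → ℂ) → ℂ} (hu : DifferentiableOn ℂ u (Bn n))
    {V : Set (Fin n → ℂ)} (hV : IsOpen V) (hne : V.Nonempty) (hVB : V ⊆ Bn n)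
    (h0 : ∀ z ∈ V, u z = 0) : ∀ z ∈ Bn n, u z = 0 := by
  intro z hz
  obtain ⟨z₀, hz₀⟩ := hne
  set ℓ : ℂ → (Fin n → ℂ) := fun s => z₀ + s • (z - z₀) with hℓ
  have hℓd : Differentiable ℂ ℓ := by
    intro s
    exact (differentiableAt_const _).add (differentiableAt_id.smul_const _)
  set U : Set ℂ := ℓ ⁻¹' Bn n with hU
  have hUo : IsOpen U := (isOpen_Bn n).preimage hℓd.continuous
  have hUc : Convex ℝ U := by
    intro s hs t ht a b ha hb hab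
    show ℓ (a • s + b • t) ∈ Bn n
    have h1 := convex_Bn n hs ht ha hb hab
    have h2 : ℓ (a • s + b • t) = a • ℓ s + b • ℓ t := by
      have hb' : b = 1 - a := by linarith
      subst hb'
      ext i
      simp only [hℓ, Pi.add_apply, Pi.smul_apply, Pi.sub_apply, smul_eq_mul, Complex.real_smul]
      push_cast
      ring
    rw [h2]
    exact h1
  have han : AnalyticOnNhd ℂ (fun s => u (ℓ s)) U :=
    (hu.comp hℓd.differentiableOn fun s hs => hs).analyticOnNhd hUo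
  have h0U : (0 : ℂ) ∈ U := by
    show ℓ 0 ∈ Bn n
    simp only [hℓ, zero_smul, add_zero]
    exact hVB hz₀
  have h1U : (1 : ℂ) ∈ U := by
    show ℓ 1 ∈ Bn n
    simp only [hℓ, one_smul, add_sub_cancel]
    exact hz
  have hev : (fun s => u (ℓ s)) =ᶠ[𝓝 0] 0 := by
    have h1 : ∀ᶠ s in 𝓝 (0 : ℂ), ℓ s ∈ V := by
      have : Tendsto ℓ (𝓝 0) (𝓝 z₀) := by
        have := hℓd.continuous.tendsto 0
        simpa [hℓ] using this
      exact this.eventually (hV.mem_nhds hz₀)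
    exact h1.mono fun s hs => h0 _ hs
  have h2 := han.eqOn_zero_of_preconnected_of_eventuallyEq_zero hUc.isPreconnected h0U hev h1U
  simp only [hℓ, one_smul, add_sub_cancel] at h2
  exact h2

/-- local properties near the circle hold on an annulus -/
lemma annulus_of_local {p : ℂ → Prop} (h : ∀ c : ℂ, ‖c‖ = 1 → ∃ ε : ℝ, 0 < ε ∧
    ∀ w ∈ ball c ε ∩ ball (0 : ℂ) 1, p w) : ∃ r : ℝ, r < 1 ∧ ∀ w : ℂ, r < ‖w‖ → ‖w‖ < 1 → p w := by
  choose! ε hε hp using h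
  set U : Set ℂ := ⋃ c ∈ sphere (0 : ℂ) 1, ball c (ε c) with hU
  have hUo : IsOpen U := isOpen_biUnion fun c _ => isOpen_ball
  have hsub : sphere (0 : ℂ) 1 ⊆ U := fun c hc =>
    Set.mem_biUnion hc (mem_ball_self (hε c (mem_sphere_zero_iff_norm.1 hc)))
  obtain ⟨δ, hδ, hδU⟩ := (isCompact_sphere (0 : ℂ) 1).exists_thickening_subset_open hUo hsub
  refine ⟨max (1 - δ) 0, max_lt (by linarith) one_pos, fun w hw hw1 => ?_⟩
  have hw0 : 0 < ‖w‖ := (le_max_right _ _).trans_lt hw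
  have hwδ : 1 - δ < ‖w‖ := (le_max_left _ _).trans_lt hw
  have hmem : w ∈ thickening δ (sphere (0 : ℂ) 1) := by
    rw [mem_thickening_iff]
    refine ⟨((‖w‖⁻¹ : ℝ) : ℂ) * w, ?_, ?_⟩
    · rw [mem_sphere_zero_iff_norm, norm_mul, Complex.norm_real, norm_inv, norm_norm,
        inv_mul_cancel₀ hw0.ne']
    · rw [dist_eq_norm]
      have h1 : w - ((‖w‖⁻¹ : ℝ) : ℂ) * w = ((1 - ‖w‖⁻¹ : ℝ) : ℂ) * w := by
        push_cast
        ring
      have h2 : 1 ≤ ‖w‖⁻¹ := (one_le_inv₀ hw0).2 hw1.le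
      rw [h1, norm_mul, Complex.norm_real, Real.norm_of_nonpos (by linarith)]
      have h3 : -(1 - ‖w‖⁻¹) * ‖w‖ = 1 - ‖w‖ := by
        field_simp
        ring
      rw [h3]
      linarith
  have h4 := hδU hmem
  rw [hU, Set.mem_iUnion₂] at h4
  obtain ⟨c, hc, hwc⟩ := h4
  exact hp c (mem_sphere_zero_iff_norm.1 hc) w ⟨hwc, mem_ball_zero_iff.2 hw1⟩

lemma diff_eval {n : ℕ} (p : MvPolynomial (Fin n) ℂ) :
    Differentiable ℂ fun z : Fin n → ℂ => eval z p := by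
  induction p using MvPolynomial.induction_on with
  | C a => simp only [eval_C]; exact differentiable_const _
  | add p q hp hq =>
    simp only [map_add]
    exact hp.fun_add hq
  | mul_X p i hp =>
    simp only [map_mul, eval_X]
    exact hp.fun_mul (differentiable_apply i)

lemma diffAt_fr {n : ℕ} {P Q : MvPolynomial (Fin n) ℂ} {z : Fin n → ℂ} (hz : eval z Q ≠ 0) :
    DifferentiableAt ℂ (fr P Q) z := by
  have h := (diff_eval P z).fun_mul ((diff_eval Q z).fun_inv hz)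
  have h2 : fr P Q = fun z => eval z P * (eval z Q)⁻¹ := by
    funext z
    exact div_eq_mul_inv _ _
  rw [h2]
  exact h

end

end Pool.Agent.Lib.MP_6ff8d9_an.H22
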