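import Pool.Agent.Lib.MP_6ff8d9_an_h22.Asm2

open Metric Filter Topology MvPolynomial
open scoped ComplexConjugate

namespace Pool.Agent.Lib.MP_6ff8d9_an.H22

open Pool.Agent.Lib.MP_6ff8d9_an Pool.Agent.Lib.MP_6ff8d9_an.Hom

noncomputable section

variable {n : ℕ} {P Q : MvPolynomial (Fin n) ℂ}

lemma ray_tendsto (x : Fin n → ℂ) :
    Tendsto (fun t : ℝ => (1 - (t : ℂ)) • x) (𝓝[>] 0) (𝓝 x) := by
  have : Tendsto (fun t : ℝ => (1 - (t : ℂ)) • x) (𝓝 0) (𝓝 ((1 - ((0 : ℝ) : ℂ)) • x)) := by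
    have hc : Continuous fun t : ℝ => (1 - (t : ℂ)) • x := by fun_prop
    exact hc.tendsto 0
  rw [Complex.ofReal_zero, sub_zero, one_smul] at this
  exact this.mono_left nhdsWithin_le_nhds

lemma ray_hasDerivAt (x : Fin n → ℂ) (t : ℝ) :
    HasDerivAt (fun t : ℝ => (1 - (t : ℂ)) • x) (-x) t := by
  have h1 : HasDerivAt (fun t : ℝ => 1 - (t : ℂ)) (-1) t := by
    have := (Complex.ofRealCLM.hasDerivAt (x := t)).const_sub 1
    simpa using this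
  have h2 := h1.smul_const x
  simpa using h2

lemma mem_annulus_of_ball {c : ℂ} (hc : ‖c‖ = 1) {δ : ℝ} :
    ball c δ ∩ ball 0 1 ⊆ {w : ℂ | 1 - δ < ‖w‖ ∧ ‖w‖ < 1} := by
  rintro w ⟨h1, h2⟩
  refine ⟨?_, mem_ball_zero_iff.1 h2⟩
  have h3 : ‖w - c‖ < δ := by
    rw [← dist_eq_norm]
    exact h1
  have h4 := norm_sub_norm_le c w
  rw [hc, norm_sub_rev] at h4
  linarith

lemma isOpen_annulus (r : ℝ) : IsOpen {w : ℂ | r < ‖w‖ ∧ ‖w‖ < 1} :=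
  (isOpen_lt continuous_const continuous_norm).inter (isOpen_lt continuous_norm continuous_const)

/-- the primitive of `k f^j df` gives a primitive of `K w^j` -/
lemma prim_rel (hRAD : RADIAL) (hU : UNIQ) (hA : Adm P Q) {k h : (Fin n → ℂ) → ℂ}
    (hh : DifferentiableOn ℂ h (Bn n)) {j : ℕ}
    (hdh : ∀ z ∈ Bn n, fderiv ℂ h z = (k z * fr P Q z ^ j) • fderiv ℂ (fr P Q) z)
    {δ : ℝ} (hδ : 0 < δ) {K H : ℂ → ℂ}
    (hK : DifferentiableOn ℂ K {w | 1 - δ < ‖w‖ ∧ ‖w‖ < 1})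
    (hH : DifferentiableOn ℂ H {w | 1 - δ < ‖w‖ ∧ ‖w‖ < 1}) {x : Fin n → ℂ} (hx : x ∈ Ct P Q)
    (hrk : ∀ᶠ t : ℝ in 𝓝[>] 0, k ((1 - (t : ℂ)) • x) = K (fr P Q ((1 - (t : ℂ)) • x)))
    (hrh : ∀ᶠ t : ℝ in 𝓝[>] 0, h ((1 - (t : ℂ)) • x) = H (fr P Q ((1 - (t : ℂ)) • x))) :
    ∀ w ∈ ball (fr P Q x) δ ∩ ball 0 1, HasDerivAt H (K w * w ^ j) w := by
  have hc := norm_fr_Ct hA hx
  have hsub := mem_annulus_of_ball (δ := δ) hc
  have hop : IsOpen (ball (fr P Q x) δ ∩ ball (0 : ℂ) 1) := isOpen_ball.inter isOpen_ball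
  have hH' : DifferentiableOn ℂ (deriv H) (ball (fr P Q x) δ ∩ ball 0 1) :=
    (hH.mono hsub).deriv hop
  have hK' : DifferentiableOn ℂ (fun w => K w * w ^ j) (ball (fr P Q x) δ ∩ ball 0 1) :=
    (hK.mono hsub).fun_mul (differentiable_id.pow j).differentiableOn
  obtain ⟨ht1, ht2⟩ := hRAD n P Q hA x hx
  -- turn the eventual relations into relations on an interval
  obtain ⟨t₀, ht₀, hI⟩ : ∃ t₀ : ℝ, 0 < t₀ ∧ ∀ t : ℝ, 0 < t → t < t₀ → t ≤ 1 ∧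
      k ((1 - (t : ℂ)) • x) = K (fr P Q ((1 - (t : ℂ)) • x)) ∧
      h ((1 - (t : ℂ)) • x) = H (fr P Q ((1 - (t : ℂ)) • x)) ∧
      fr P Q ((1 - (t : ℂ)) • x) ∈ ball (fr P Q x) δ ∧
      ∃ d : ℂ, d ≠ 0 ∧ HasDerivAt (fun t : ℝ => fr P Q ((1 - (t : ℂ)) • x)) d t := by
    have h5 : ∀ᶠ t : ℝ in 𝓝[>] 0, t ≤ 1 :=
      nhdsWithin_le_nhds (eventually_le_nhds one_pos)
    have h6 : ∀ᶠ t : ℝ in 𝓝[>] 0, fr P Q ((1 - (t : ℂ)) • x) ∈ ball (fr P Q x) δ :=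
      ht1.eventually (ball_mem_nhds _ hδ)
    have h7 := (((h5.and hrk).and hrh).and h6).and ht2
    rw [eventually_nhdsWithin_iff] at h7
    obtain ⟨ε, hε, h8⟩ := Metric.eventually_nhds_iff.1 h7
    refine ⟨ε, hε, fun t h0 h1 => ?_⟩
    have h9 := h8 (y := t) (by rw [Real.dist_eq, sub_zero, abs_of_pos h0]; exact h1) h0
    exact ⟨h9.1.1.1.1, h9.1.1.1.2, h9.1.1.2, h9.1.2, h9.2.2⟩
  have hrel : ∀ᶠ t : ℝ in 𝓝[>] 0, deriv H (fr P Q ((1 - (t : ℂ)) • x)) =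
      K (fr P Q ((1 - (t : ℂ)) • x)) * fr P Q ((1 - (t : ℂ)) • x) ^ j := by
    have h5 : ∀ᶠ t : ℝ in 𝓝[>] 0, t < t₀ :=
      nhdsWithin_le_nhds (eventually_lt_nhds ht₀)
    filter_upwards [h5, self_mem_nhdsWithin] with t htt ht0
    have ht0' : 0 < t := ht0
    obtain ⟨e1, e2, e3, e4, d, hd, e5⟩ := hI t ht0' htt
    have hzt := smul_mem_Bn hx.1 ht0' e1
    set zt := (1 - (t : ℂ)) • x with hzt'
    have hft : fr P Q zt ∈ ball (fr P Q x) δ ∩ ball 0 1 :=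
      ⟨e4, mem_ball_zero_iff.2 (norm_fr_lt hA hzt)⟩
    -- derivative of `f` along the ray
    have f1 : HasFDerivAt (fr P Q) (fderiv ℂ (fr P Q) zt) zt :=
      (diffAt_fr (hA.Qne _ (le_of_lt hzt))).hasFDerivAt
    have f1' : HasFDerivAt (𝕜 := ℝ) (fr P Q) ((fderiv ℂ (fr P Q) zt).restrictScalars ℝ)
      ((1 - (t : ℂ)) • x) := f1.restrictScalars ℝ
    have f2 : HasDerivAt (fun t : ℝ => fr P Q ((1 - (t : ℂ)) • x))
        (fderiv ℂ (fr P Q) zt (-x)) t := by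
      have h0 := f1'.comp_hasDerivAt t (ray_hasDerivAt x t)
      exact h0
    have f3 : fderiv ℂ (fr P Q) zt (-x) = d := f2.unique e5
    -- derivative of `h` along the ray
    have g1 : HasFDerivAt h (fderiv ℂ h zt) zt :=
      ((hh zt hzt).differentiableAt ((isOpen_Bn n).mem_nhds hzt)).hasFDerivAt
    have g1' : HasFDerivAt (𝕜 := ℝ) h ((fderiv ℂ h zt).restrictScalars ℝ)
      ((1 - (t : ℂ)) • x) := g1.restrictScalars ℝ
    have g2 : HasDerivAt (fun t : ℝ => h ((1 - (t : ℂ)) • x)) (fderiv ℂ h zt (-x)) t := by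
      have h0 := g1'.comp_hasDerivAt t (ray_hasDerivAt x t)
      exact h0
    -- derivative of `H ∘ f` along the ray
    have g3 : HasDerivAt H (deriv H (fr P Q zt)) (fr P Q zt) :=
      ((hH _ (hsub hft)).differentiableAt ((isOpen_annulus _).mem_nhds (hsub hft))).hasDerivAt
    have g4 : HasDerivAt (fun t : ℝ => H (fr P Q ((1 - (t : ℂ)) • x)))
        (deriv H (fr P Q zt) * d) t := by
      have := g3.comp_of_eq (h := fun t : ℝ => fr P Q ((1 - (t : ℂ)) • x)) t e5 rfl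
      exact this
    have g5 : (fun t : ℝ => h ((1 - (t : ℂ)) • x)) =ᶠ[𝓝 t]
        fun t : ℝ => H (fr P Q ((1 - (t : ℂ)) • x)) := by
      filter_upwards [Ioo_mem_nhds ht0' htt] with s hs
      exact (hI s hs.1 hs.2).2.2.1
    have g6 : fderiv ℂ h zt (-x) = deriv H (fr P Q zt) * d := (g4.congr_of_eventuallyEq g5).unique g2 |>.symm
    rw [hdh zt hzt, smul_apply, f3, smul_eq_mul, e2] at g6
    exact (mul_right_cancel₀ hd g6).symm
  have hEq := hU (fr P Q x) δ (fun t => fr P Q ((1 - (t : ℂ)) • x)) (deriv H)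
    (fun w => K w * w ^ j) hc hδ ht1 ht2 (ball (fr P Q x) δ ∩ ball 0 1)
    ((convex_ball _ _).inter (convex_ball _ _)) hop subset_rfl hH' hK' hrel
  intro w hw
  have h1 := ((hH _ (hsub hw)).differentiableAt
    ((isOpen_annulus _).mem_nhds (hsub hw))).hasDerivAt
  rw [hEq hw] at h1
  exact h1

/-- the moments of `K` vanish -/
lemma moments (hSEC : SEC) (hLOC : LOC) (hRAD : RADIAL) (hU : UNIQ) (hG : GLUE) (hPO : POINC)
    (hA : Adm P Q) (hD : Dual P Q)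
    (hc : IsConnected {z | z ∈ Ct P Q ∧ eval z P = eval z Q})
    {k : (Fin n → ℂ) → ℂ} (hk : DifferentiableOn ℂ k (Bn n)) (hw : Wedge P Q k)
    {δ : ℝ} (hδ : 0 < δ) (hδ1 : δ < 1) {K : ℂ → ℂ}
    (hK : DifferentiableOn ℂ K {w | 1 - δ < ‖w‖ ∧ ‖w‖ < 1})
    (hr : ∀ x ∈ Ct P Q, ∀ᶠ t : ℝ in 𝓝[>] 0,
        k ((1 - (t : ℂ)) • x) = K (fr P Q ((1 - (t : ℂ)) • x)))
    (j : ℕ) (ρ : ℝ) (hρ : 1 - δ < ρ) (hρ1 : ρ < 1) : (∮ w in C(0, ρ), K w * w ^ j) = 0 := by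
  obtain ⟨h, hh, hwh, hdh⟩ := hPO n P Q hA k hk hw j
  obtain ⟨hsurj, δ', hδ', hδ'1, H, hH, hrh⟩ := glue_app hSEC hLOC hRAD hG hA hD hc hh hwh
  set η := min δ δ' with hη
  have hη0 : 0 < η := lt_min hδ hδ'
  have hsub1 : {w : ℂ | 1 - η < ‖w‖ ∧ ‖w‖ < 1} ⊆ {w | 1 - δ < ‖w‖ ∧ ‖w‖ < 1} := fun w hw =>
    ⟨by have := min_le_left δ δ'; have := hw.1; linarith, hw.2⟩
  have hsub2 : {w : ℂ | 1 - η < ‖w‖ ∧ ‖w‖ < 1} ⊆ {w | 1 - δ' < ‖w‖ ∧ ‖w‖ < 1} := fun w hw =>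
    ⟨by have := min_le_right δ δ'; have := hw.1; linarith, hw.2⟩
  obtain ⟨r, hr1, hrel⟩ := annulus_of_local (p := fun w => HasDerivAt H (K w * w ^ j) w) (by
    intro c hc1
    obtain ⟨x, hx, hxc⟩ := hsurj c hc1
    refine ⟨η, hη0, ?_⟩
    rw [← hxc]
    exact prim_rel hRAD hU hA hh hdh hη0 (hK.mono hsub1) (hH.mono hsub2) hx (hr x hx) (hrh x hx))
  -- a radius close to one
  obtain ⟨ρ', h1, h2⟩ : ∃ ρ' : ℝ, max ρ r < ρ' ∧ ρ' < 1 := exists_between (max_lt hρ1 hr1)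
  have hρρ' : ρ < ρ' := (le_max_left _ _).trans_lt h1
  have hrρ' : r < ρ' := (le_max_right _ _).trans_lt h1
  have hρ0 : 0 < ρ := by linarith
  have e1 : (∮ w in C(0, ρ'), K w * w ^ j) = 0 := by
    refine circleIntegral.integral_eq_zero_of_hasDerivWithinAt' (f := H) fun w hw => ?_
    rw [mem_sphere_zero_iff_norm, abs_of_pos (by linarith)] at hw
    exact (hrel w (by rw [hw]; exact hrρ') (by rw [hw]; exact h2)).hasDerivWithinAt
  have hd : DifferentiableOn ℂ (fun w => K w * w ^ j) {w | 1 - δ < ‖w‖ ∧ ‖w‖ < 1} :=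
    hK.fun_mul (differentiable_id.pow j).differentiableOn
  have e2 := Complex.circleIntegral_eq_of_differentiable_on_annulus_off_countable (c := 0)
    hρ0 hρρ'.le (f := fun w => K w * w ^ j) (s := ∅) Set.countable_empty ?_ ?_
  · rw [← e2]
    exact e1
  · refine hd.continuousOn.mono ?_
    rintro w ⟨h3, h4⟩
    rw [mem_closedBall_zero_iff] at h3
    rw [mem_ball_zero_iff, not_lt] at h4
    exact ⟨by linarith, by linarith⟩
  · rintro w ⟨⟨h3, h4⟩, -⟩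
    rw [mem_ball_zero_iff] at h3
    rw [mem_closedBall_zero_iff, not_le] at h4
    have hmem : w ∈ {w : ℂ | 1 - δ < ‖w‖ ∧ ‖w‖ < 1} := ⟨by linarith, by linarith⟩
    exact (hd w hmem).differentiableAt ((isOpen_annulus _).mem_nhds hmem)

end

end Pool.Agent.Lib.MP_6ff8d9_an.H22
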