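import Pool.Agent.Lib.MP_6ff8d9_an_h22.Asm3

open Metric Filter Topology MvPolynomial
open scoped ComplexConjugate

namespace Pool.Agent.Lib.MP_6ff8d9_an.H22

open Pool.Agent.Lib.MP_6ff8d9_an Pool.Agent.Lib.MP_6ff8d9_an.Hom

noncomputable section

variable {n : ℕ} {P Q : MvPolynomial (Fin n) ℂ}

lemma cayley_re (w : ℂ) :
    ((1 + w) / (1 - w)).re = (1 - ‖w‖ ^ 2) / ‖1 - w‖ ^ 2 := by
  rw [Complex.div_re, ← Complex.normSq_eq_norm_sq (1 - w), ← add_div,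
    ← Complex.normSq_eq_norm_sq w, Complex.normSq_apply w]
  congr 1
  simp
  ring

lemma g_eq (hA : Adm P Q) {z : Fin n → ℂ} (hz : z ∈ Bn n) :
    (eval z Q + eval z P) / (eval z Q - eval z P) = (1 + fr P Q z) / (1 - fr P Q z) := by
  have hQ := hA.Qne z (le_of_lt hz)
  have h1 := hA.lt z hz
  have h2 : eval z Q - eval z P ≠ 0 := by
    intro h
    rw [sub_eq_zero.1 h] at h1
    exact lt_irrefl _ h1
  unfold fr
  have h3 : 1 - eval z P / eval z Q ≠ 0 := by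
    intro h
    apply h2
    have h4 : eval z P / eval z Q = 1 := (sub_eq_zero.1 h).symm
    rw [div_eq_one_iff_eq hQ] at h4
    rw [h4, sub_self]
  field_simp

/-- no nonzero `k` -/
theorem k_zero (hLO : LOCAL) (hSEC : SEC) (hLOC : LOC) (hRAD : RADIAL) (hU : UNIQ) (hG : GLUE)
    (hPO : POINC) (hE : ENDS) (hA : Adm P Q) (hD : Dual P Q)
    (hc : IsConnected {z | z ∈ Ct P Q ∧ eval z P = eval z Q})
    {k : (Fin n → ℂ) → ℂ} (hk : DifferentiableOn ℂ k (Bn n)) (hk0 : k 0 = 0)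
    (hre : ∀ z ∈ Bn n, |(k z).re| ≤ ((eval z Q + eval z P) / (eval z Q - eval z P)).re) :
    ∀ z ∈ Bn n, k z = 0 := by
  -- a contact point with `f ≠ 1`
  obtain ⟨m₀, hm₀, hm₀'⟩ := hc.nonempty
  have hf0 : fr P Q m₀ = 1 := by
    unfold fr
    rw [hm₀', div_self (hA.Qne _ (le_of_eq hm₀.1))]
  obtain ⟨ε, hε, -, hsec⟩ := hSEC n P Q hA hD m₀ hm₀ 1 one_pos
  rw [hf0] at hsec
  obtain ⟨c, hc1, hcε, hcne⟩ : ∃ c : ℂ, ‖c‖ = 1 ∧ dist c 1 < ε ∧ c ≠ 1 := by
    have h1 : Tendsto (fun s : ℝ => Complex.exp (s * Complex.I)) (𝓝[≠] 0) (𝓝 1) := by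
      have : Continuous fun s : ℝ => Complex.exp (s * Complex.I) := by fun_prop
      have h := this.tendsto 0
      simp only [Complex.ofReal_zero, zero_mul, Complex.exp_zero] at h
      exact h.mono_left nhdsWithin_le_nhds
    have h2 : ∀ᶠ s : ℝ in 𝓝[≠] 0, dist (Complex.exp (s * Complex.I)) 1 < ε :=
      h1.eventually (ball_mem_nhds _ hε)
    have h3 : ∀ᶠ s : ℝ in 𝓝[≠] 0, Complex.exp (s * Complex.I) ≠ 1 := by
      have h4 : HasDerivAt (fun s : ℝ => Complex.exp (s * Complex.I)) Complex.I 0 := by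
        have h5 : HasDerivAt (fun s : ℝ => (s : ℂ) * Complex.I) (1 * Complex.I) (0 : ℝ) :=
          (Complex.ofRealCLM.hasDerivAt (x := (0 : ℝ))).mul_const Complex.I
        have h6 := h5.cexp
        simpa using h6
      have h7 := h4.tendsto_nhdsNE Complex.I_ne_zero
      simp only [Complex.ofReal_zero, zero_mul, Complex.exp_zero] at h7
      exact h7.eventually self_mem_nhdsWithin
    obtain ⟨s, hs1, hs2⟩ := (h2.and h3).exists
    exact ⟨_, Complex.norm_exp_ofReal_mul_I s, hs1, hs2⟩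
  obtain ⟨m, hm, -, hfm⟩ := hsec c hc1 hcε
  have hmne : eval m P ≠ eval m Q := by
    intro h
    apply hcne
    rw [← hfm]
    unfold fr
    rw [h, div_self (hA.Qne _ (le_of_eq hm.1))]
  have hw : Wedge P Q k := hLO n P Q hA hD m hm hmne k hk hre
  -- the function `K`
  obtain ⟨hsurj, δ, hδ, hδ1, K, hK, hr⟩ := glue_app hSEC hLOC hRAD hG hA hD hc hk hw
  have hloc : ∀ x ∈ Ct P Q, ∃ δ₁ : ℝ, 0 < δ₁ ∧ ∀ z ∈ Bn n, dist z x < δ₁ → k z = K (fr P Q z) :=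
    fun x hx => loc_K hLOC hRAD hU hA hD hk hw hδ hK hx (hr x hx)
  -- the bound for `K`
  obtain ⟨r₁, hr1, hbd⟩ := annulus_of_local
    (p := fun w => |(K w).re| ≤ 1 * (1 - ‖w‖ ^ 2) / ‖1 - w‖ ^ 2) (by
    intro c hc1
    obtain ⟨x, hx, hxc⟩ := hsurj c hc1
    obtain ⟨δ₁, hδ₁, h1⟩ := hloc x hx
    obtain ⟨ε, hε, h2, -⟩ := hSEC n P Q hA hD x hx δ₁ hδ₁
    refine ⟨ε, hε, fun w hw => ?_⟩
    rw [← hxc] at hw
    obtain ⟨z, hz, hzx, hzw⟩ := h2 w hw
    have h3 := hre z hz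
    rw [g_eq hA hz, h1 z hz hzx, hzw, cayley_re w] at h3
    rw [one_mul]
    exact h3)
  set r := max (1 - δ) (max r₁ (1 / 2)) with hrdef
  have hr0 : 0 < r := lt_of_lt_of_le (by norm_num) ((le_max_right _ _).trans (le_max_right _ _))
  have hr1' : r < 1 := max_lt (by linarith) (max_lt hr1 (by norm_num))
  have hrδ : 1 - δ ≤ r := le_max_left _ _
  have hrr1 : r₁ ≤ r := (le_max_left _ _).trans (le_max_right _ _)
  obtain ⟨κ, hκ⟩ := hE r 1 K hr0 hr1'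
    (hK.mono fun w hw => ⟨lt_of_le_of_lt hrδ hw.1, hw.2⟩)
    (fun w h1 h2 => hbd w (lt_of_le_of_lt hrr1 h1) h2)
    (fun j ρ h1 h2 => moments hSEC hLOC hRAD hU hG hPO hA hD hc hk hw hδ hδ1 hK hr j ρ
      (lt_of_le_of_lt hrδ h1) h2)
  -- an open set on which `k` is explicit
  obtain ⟨δ₁, hδ₁, h1⟩ := hloc m hm
  have hcont : ContinuousAt (fr P Q) m := (diffAt_fr (hA.Qne m (le_of_eq hm.1))).continuousAt
  have hnm := norm_fr_Ct hA hm
  have hev : ∀ᶠ z in 𝓝 m, r < ‖fr P Q z‖ := by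
    have h2 : r < ‖fr P Q m‖ := by rw [hnm]; exact hr1'
    exact continuousAt_const.eventually_lt hcont.norm h2
  obtain ⟨δ₂, hδ₂, h2⟩ := Metric.eventually_nhds_iff_ball.1 hev
  set u : (Fin n → ℂ) → ℂ := fun z =>
    k z - (κ + 2 * (κ.re : ℂ) * fr P Q z / (1 - fr P Q z)) with hu
  have hne : ∀ z ∈ Bn n, 1 - fr P Q z ≠ 0 := by
    intro z hz h
    have h3 := norm_fr_lt hA hz
    rw [← sub_eq_zero.1 h, norm_one] at h3
    exact lt_irrefl _ h3
  have hud : DifferentiableOn ℂ u (Bn n) := by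
    have e1 := diffOn_fr hA
    refine hk.fun_sub ((differentiableOn_const _).fun_add ?_)
    have e2 : DifferentiableOn ℂ (fun z => 2 * (κ.re : ℂ) * fr P Q z * (1 - fr P Q z)⁻¹) (Bn n) :=
      (e1.const_mul _).fun_mul (((differentiableOn_const _).fun_sub e1).fun_inv hne)
    exact e2.congr fun z _ => div_eq_mul_inv _ _
  have hzero := ident hud (V := Bn n ∩ ball m (min δ₁ δ₂)) ((isOpen_Bn n).inter isOpen_ball) ?_
    Set.inter_subset_left ?_
  · -- value at the origin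
    have hf00 : fr P Q 0 = 0 := by
      unfold fr
      rw [hA.zero, zero_div]
    have h3 := hzero 0 (zero_mem_Bn n)
    simp only [hu, hk0, hf00, mul_zero, zero_div, add_zero, zero_sub, neg_eq_zero] at h3
    intro z hz
    have h4 := hzero z hz
    simp only [hu, h3, Complex.zero_re, Complex.ofReal_zero, mul_zero, zero_mul, zero_div,
      add_zero, sub_zero] at h4
    exact h4
  · have h3 : ∀ᶠ t : ℝ in 𝓝[>] 0, (1 - (t : ℂ)) • m ∈ ball m (min δ₁ δ₂) :=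
      (ray_tendsto m).eventually (ball_mem_nhds m (lt_min hδ₁ hδ₂))
    have h4 : ∀ᶠ t : ℝ in 𝓝[>] 0, t ≤ 1 := nhdsWithin_le_nhds (eventually_le_nhds one_pos)
    obtain ⟨t, ⟨ht1, ht2⟩, ht3⟩ := ((h3.and h4).and self_mem_nhdsWithin).exists
    exact ⟨_, smul_mem_Bn hm.1 ht3 ht2, ht1⟩
  · rintro z ⟨hz, hzm⟩
    have h3 := h1 z hz (lt_of_lt_of_le hzm (min_le_left _ _))
    have h4 := h2 z (ball_subset_ball (min_le_right _ _) hzm)
    simp only [hu]
    rw [h3, hκ _ h4 (norm_fr_lt hA hz), sub_self]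

/-- FINAL2 from the rows -/
theorem final2 (hADM : ADM) (hLO : LOCAL) (hSEC : SEC) (hLOC : LOC) (hRAD : RADIAL) (hU : UNIQ)
    (hG : GLUE) (hPO : POINC) (hE : ENDS) : FINAL2 := by
  intro n P Q hn hNB hQ hD hcon
  have hA : Adm P Q := (hADM n P Q hn hNB).2.1 hQ
  refine ext n P Q hNB fun k hk hk0 hre => ?_
  refine k_zero hLO hSEC hLOC hRAD hU hG hPO hE hA hD ?_ hk hk0 hre
  have h1 : {z : Fin n → ℂ | z ∈ Ct P Q ∧ eval z P = eval z Q} =
      (fun z : Cn n => (fun i => z i)) ''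
        {z : Cn n | ‖z‖ = 1 ∧ eval (fun i => z i) P = eval (fun i => z i) Q} := by
    ext z
    constructor
    · rintro ⟨h1, h2⟩
      refine ⟨WithLp.toLp 2 z, ⟨?_, h2⟩, rfl⟩
      have h3 : ‖(WithLp.toLp 2 z : Cn n)‖ ^ 2 = 1 := by
        rw [EuclideanSpace.norm_sq_eq]
        exact h1.1
      nlinarith [norm_nonneg (WithLp.toLp 2 z : Cn n)]
    · rintro ⟨y, ⟨h1, h2⟩, rfl⟩
      refine ⟨⟨?_, by rw [h2]⟩, h2⟩
      show ∑ i, ‖y i‖ ^ 2 = 1
      rw [← EuclideanSpace.norm_sq_eq, h1, one_pow]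
  rw [h1]
  refine hcon.image _ (Continuous.continuousOn ?_)
  fun_prop

end

end Pool.Agent.Lib.MP_6ff8d9_an.H22
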