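import Pool.Agent.Lib.MP_6ff8d9_an_h22.Asm

/-!
# MP_6ff8d9 RATIONAL: the same rows with zeros of `Q` on the sphere allowed

`Adm0 P Q` only (so `Q ≠ 0` on the open ball), contact points are points of the sphere with
`Q ≠ 0` and `|P| = |Q|`.
-/

open Metric Filter Topology MvPolynomial
open scoped ComplexConjugate

namespace Pool.Agent.Lib.MP_6ff8d9_an.H22

open Pool.Agent.Lib.MP_6ff8d9_an Pool.Agent.Lib.MP_6ff8d9_an.Hom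

noncomputable section

variable {n : ℕ}

/-- the contact set (regular points only) -/
def Ct0 (P Q : MvPolynomial (Fin n) ℂ) : Set (Fin n → ℂ) :=
  {z | ∑ i, ‖z i‖ ^ 2 = 1 ∧ eval z Q ≠ 0 ∧ ‖eval z P‖ = ‖eval z Q‖}

def CONTACT0 : Prop := ∀ (n : ℕ) (P Q : MvPolynomial (Fin n) ℂ), Adm0 P Q → ∀ m ∈ Ct0 P Q,
  (∀ j, eval m (Wr P Q j) = conj (m j) * eval m (Rr P Q)) ∧
  ∃ b : ℝ, 0 < b ∧ eval m (Rr P Q) = b * (eval m P * eval m Q)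

def LOCAL0 : Prop := ∀ (n : ℕ) (P Q : MvPolynomial (Fin n) ℂ), Adm0 P Q → Dual P Q →
  ∀ m ∈ Ct0 P Q, eval m P ≠ eval m Q → ∀ k : (Fin n → ℂ) → ℂ, DifferentiableOn ℂ k (Bn n) →
  (∀ z ∈ Bn n, |(k z).re| ≤ ((eval z Q + eval z P) / (eval z Q - eval z P)).re) → Wedge P Q k

def SEC0 : Prop := ∀ (n : ℕ) (P Q : MvPolynomial (Fin n) ℂ), Adm0 P Q → Dual P Q →
  ∀ m ∈ Ct0 P Q, ∀ δ : ℝ, 0 < δ → ∃ ε : ℝ, 0 < ε ∧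
    (∀ w ∈ ball (fr P Q m) ε ∩ ball 0 1, ∃ z ∈ Bn n, dist z m < δ ∧ fr P Q z = w) ∧
    (∀ c : ℂ, ‖c‖ = 1 → dist c (fr P Q m) < ε → ∃ m' ∈ Ct0 P Q, dist m' m < δ ∧ fr P Q m' = c)

def LOC0 : Prop := ∀ (n : ℕ) (P Q : MvPolynomial (Fin n) ℂ), Adm0 P Q → Dual P Q →
  ∀ k : (Fin n → ℂ) → ℂ, DifferentiableOn ℂ k (Bn n) → Wedge P Q k → ∀ m ∈ Ct0 P Q,
  ∃ δ : ℝ, 0 < δ ∧ ∃ ε : ℝ, 0 < ε ∧ ∃ L : ℂ → ℂ,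
    DifferentiableOn ℂ L (ball (fr P Q m) ε ∩ ball 0 1) ∧
    ∀ z ∈ Bn n, dist z m < δ → fr P Q z ∈ ball (fr P Q m) ε ∧ k z = L (fr P Q z)

def RADIAL0 : Prop := ∀ (n : ℕ) (P Q : MvPolynomial (Fin n) ℂ), Adm0 P Q → ∀ m ∈ Ct0 P Q,
  Tendsto (fun t : ℝ => fr P Q ((1 - (t : ℂ)) • m)) (𝓝[>] 0) (𝓝 (fr P Q m)) ∧
  ∀ᶠ t : ℝ in 𝓝[>] 0, ‖fr P Q ((1 - (t : ℂ)) • m)‖ < 1 ∧
    ∃ d : ℂ, d ≠ 0 ∧ HasDerivAt (fun t : ℝ => fr P Q ((1 - (t : ℂ)) • m)) d t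

def POINC0 : Prop := ∀ (n : ℕ) (P Q : MvPolynomial (Fin n) ℂ), Adm0 P Q →
  ∀ k : (Fin n → ℂ) → ℂ, DifferentiableOn ℂ k (Bn n) → Wedge P Q k → ∀ j : ℕ,
  ∃ h : (Fin n → ℂ) → ℂ, DifferentiableOn ℂ h (Bn n) ∧ Wedge P Q h ∧
    ∀ z ∈ Bn n, fderiv ℂ h z = (k z * fr P Q z ^ j) • fderiv ℂ (fr P Q) z

/-- GLUE without compactness: all the level sets are connected -/
def GLUE0 : Prop := ∀ (X : Type) [MetricSpace X] (F : X → ℂ) (φ κ : X → ℝ → ℂ),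
  Continuous F → (∀ x, ‖F x‖ = 1) →
  (∀ x, Tendsto (φ x) (𝓝[>] 0) (𝓝 (F x))) →
  (∀ x, ∀ᶠ t : ℝ in 𝓝[>] 0, ‖φ x t‖ < 1 ∧ ∃ d : ℂ, d ≠ 0 ∧ HasDerivAt (φ x) d t) →
  (∀ x, ∃ δ : ℝ, 0 < δ ∧ ∃ L : ℂ → ℂ, DifferentiableOn ℂ L (ball (F x) δ ∩ ball 0 1) ∧
    ∀ y, dist y x < δ → ∀ᶠ t : ℝ in 𝓝[>] 0, κ y t = L (φ y t)) →
  (∀ x, ∀ ε : ℝ, 0 < ε → ∃ δ : ℝ, 0 < δ ∧ ∀ c : ℂ, ‖c‖ = 1 → dist c (F x) < δ →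
    ∃ y, dist y x < ε ∧ F y = c) →
  (∀ c : ℂ, ‖c‖ = 1 → IsConnected (F ⁻¹' {c})) →
  ∃ δ : ℝ, 0 < δ ∧ δ < 1 ∧ ∃ K : ℂ → ℂ, DifferentiableOn ℂ K {w | 1 - δ < ‖w‖ ∧ ‖w‖ < 1} ∧
    ∀ x, ∀ᶠ t : ℝ in 𝓝[>] 0, κ x t = K (φ x t)

/-- sufficiency without any condition on the zeros of `Q` on the sphere -/
def FINAL3 : Prop := ∀ (n : ℕ) (P Q : MvPolynomial (Fin n) ℂ), 1 ≤ n → gPQ P Q ∈ NB n →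
  Dual P Q →
  (∀ c : ℂ, ‖c‖ = 1 → IsConnected {z : Cn n | ‖z‖ = 1 ∧ eval (fun i => z i) Q ≠ 0 ∧
    eval (fun i => z i) P = c * eval (fun i => z i) Q}) →
  IsExtremePoint n (gPQ P Q)

end

end Pool.Agent.Lib.MP_6ff8d9_an.H22
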