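import Pool.Agent.Lib.MP_6ff8d9_an_h22.Asm4
import Pool.Agent.Lib.MP_6ff8d9_an_h22.Rows0

/-!
# The assembly with zeros of `Q` on the sphere allowed
-/

open Metric Filter Topology MvPolynomial
open scoped ComplexConjugate

namespace Pool.Agent.Lib.MP_6ff8d9_an.H22.Z

open Pool.Agent.Lib.MP_6ff8d9_an Pool.Agent.Lib.MP_6ff8d9_an.Hom
open Pool.Agent.Lib.MP_6ff8d9_an.H22

noncomputable section

variable {n : ℕ} {P Q : MvPolynomial (Fin n) ℂ}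

lemma Qne_Bn (hA : Adm0 P Q) {z : Fin n → ℂ} (hz : z ∈ Bn n) : eval z Q ≠ 0 :=
  norm_pos_iff.1 ((norm_nonneg _).trans_lt (hA.lt z hz))

lemma norm_fr_Ct {m : Fin n → ℂ} (hm : m ∈ Ct0 P Q) : ‖fr P Q m‖ = 1 := by
  unfold fr
  rw [norm_div, hm.2.2, div_self (norm_ne_zero_iff.2 hm.2.1)]

lemma norm_fr_lt (hA : Adm0 P Q) {z : Fin n → ℂ} (hz : z ∈ Bn n) : ‖fr P Q z‖ < 1 := by
  have h1 := hA.lt z hz
  unfold fr
  rw [norm_div, div_lt_one ((norm_nonneg _).trans_lt h1)]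
  exact h1

lemma diffOn_fr (hA : Adm0 P Q) : DifferentiableOn ℂ (fr P Q) (Bn n) := fun z hz =>
  (diffAt_fr (Qne_Bn hA hz)).differentiableWithinAt

/-- application of GLUE -/
lemma glue_app (hSEC : SEC0) (hLOC : LOC0) (hRAD : RADIAL0) (hG : GLUE0) (hA : Adm0 P Q)
    (hD : Dual P Q) (hc : ∀ c : ℂ, ‖c‖ = 1 → IsConnected {z | z ∈ Ct0 P Q ∧ fr P Q z = c})
    {k : (Fin n → ℂ) → ℂ} (hk : DifferentiableOn ℂ k (Bn n)) (hw : Wedge P Q k) :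
    ∃ δ : ℝ, 0 < δ ∧ δ < 1 ∧ ∃ K : ℂ → ℂ, DifferentiableOn ℂ K {w | 1 - δ < ‖w‖ ∧ ‖w‖ < 1} ∧
      ∀ x ∈ Ct0 P Q, ∀ᶠ t : ℝ in 𝓝[>] 0,
        k ((1 - (t : ℂ)) • x) = K (fr P Q ((1 - (t : ℂ)) • x)) := by
  have key := hG {z // z ∈ Ct0 P Q} (fun x => fr P Q x.1)
    (fun x t => fr P Q ((1 - (t : ℂ)) • x.1)) (fun x t => k ((1 - (t : ℂ)) • x.1))
    ?_ ?_ ?_ ?_ ?_ ?_ ?_
  · obtain ⟨δ, hδ, hδ1, K, hK, h2⟩ := key
    exact ⟨δ, hδ, hδ1, K, hK, fun x hx => h2 ⟨x, hx⟩⟩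
  · rw [continuous_iff_continuousAt]
    intro x
    exact (diffAt_fr x.2.2.1).continuousAt.comp
      continuous_subtype_val.continuousAt
  · exact fun x => norm_fr_Ct x.2
  · exact fun x => (hRAD n P Q hA x.1 x.2).1
  · exact fun x => (hRAD n P Q hA x.1 x.2).2
  · intro x
    obtain ⟨δ, hδ, ε, hε, L, hL, h⟩ := hLOC n P Q hA hD k hk hw x.1 x.2
    refine ⟨min δ ε, lt_min hδ hε, L, hL.mono (Set.inter_subset_inter_left _
      (ball_subset_ball (min_le_right _ _))), fun y hy => ?_⟩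
    have h1 : Tendsto (fun t : ℝ => (1 - (t : ℂ)) • y.1) (𝓝[>] 0) (𝓝 y.1) := by
      have : Tendsto (fun t : ℝ => (1 - (t : ℂ)) • y.1) (𝓝 0) (𝓝 ((1 - ((0 : ℝ) : ℂ)) • y.1)) := by
        have hc : Continuous fun t : ℝ => (1 - (t : ℂ)) • y.1 := by fun_prop
        exact hc.tendsto 0
      rw [Complex.ofReal_zero, sub_zero, one_smul] at this
      exact this.mono_left nhdsWithin_le_nhds
    have h2 : ∀ᶠ t : ℝ in 𝓝[>] 0, dist ((1 - (t : ℂ)) • y.1) x.1 < δ := by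
      have h3 : dist y.1 x.1 < δ := lt_of_lt_of_le hy (min_le_left _ _)
      have h4 : ∀ᶠ z in 𝓝 y.1, dist z x.1 < δ :=
        (continuous_id.dist continuous_const).continuousAt.eventually_lt continuousAt_const h3
      exact h1.eventually h4
    have h5 : ∀ᶠ t : ℝ in 𝓝[>] 0, t ≤ 1 :=
      nhdsWithin_le_nhds (eventually_le_nhds one_pos)
    filter_upwards [h2, h5, self_mem_nhdsWithin] with t ht ht1 ht0
    exact (h _ (smul_mem_Bn y.2.1 ht0 ht1) ht).2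
  · intro x ε hε
    obtain ⟨δ, hδ, -, h⟩ := hSEC n P Q hA hD x.1 x.2 ε hε
    refine ⟨δ, hδ, fun c hc hcx => ?_⟩
    obtain ⟨m', hm', h1, h2⟩ := h c hc hcx
    exact ⟨⟨m', hm'⟩, h1, h2⟩
  · intro c hc1
    have h1 : (fun x : {z // z ∈ Ct0 P Q} => fr P Q x.1) ⁻¹' {c} =
        Subtype.val ⁻¹' {z | z ∈ Ct0 P Q ∧ fr P Q z = c} := by
      ext x
      exact ⟨fun h => ⟨x.2, h⟩, fun h => h.2⟩
    rw [h1]
    have h2 : {z | z ∈ Ct0 P Q ∧ fr P Q z = c} ⊆ Set.range (Subtype.val :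
        {z // z ∈ Ct0 P Q} → (Fin n → ℂ)) := by
      rw [Subtype.range_val]
      exact fun z hz => hz.1
    refine ⟨?_, ?_⟩
    · obtain ⟨z, hz⟩ := (hc c hc1).nonempty
      exact ⟨⟨z, hz.1⟩, hz⟩
    · exact (Topology.IsInducing.subtypeVal.isPreconnected_image).1 (by
        rw [Set.image_preimage_eq_of_subset h2]
        exact (hc c hc1).isPreconnected)

/-- `k = K ∘ f` on the ball near every contact point -/
lemma loc_K (hLOC : LOC0) (hRAD : RADIAL0) (hU : UNIQ) (hA : Adm0 P Q) (hD : Dual P Q)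
    {k : (Fin n → ℂ) → ℂ} (hk : DifferentiableOn ℂ k (Bn n)) (hw : Wedge P Q k) {δ : ℝ}
    (hδ : 0 < δ) {K : ℂ → ℂ} (hK : DifferentiableOn ℂ K {w | 1 - δ < ‖w‖ ∧ ‖w‖ < 1})
    {x : Fin n → ℂ} (hx : x ∈ Ct0 P Q) (hrad : ∀ᶠ t : ℝ in 𝓝[>] 0,
        k ((1 - (t : ℂ)) • x) = K (fr P Q ((1 - (t : ℂ)) • x))) :
    ∃ δ₁ : ℝ, 0 < δ₁ ∧ ∀ z ∈ Bn n, dist z x < δ₁ → k z = K (fr P Q z) := by
  obtain ⟨δ₂, hδ₂, ε, hε, L, hL, h⟩ := hLOC n P Q hA hD k hk hw x hx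
  have hc := norm_fr_Ct hx
  set c := fr P Q x with hcdef
  set ε' := min ε δ with hε'
  have hε'0 : 0 < ε' := lt_min hε hδ
  have hsub : ball c ε' ∩ ball 0 1 ⊆ {w : ℂ | 1 - δ < ‖w‖ ∧ ‖w‖ < 1} := by
    rintro w ⟨h1, h2⟩
    refine ⟨?_, mem_ball_zero_iff.1 h2⟩
    have h3 : ‖w - c‖ < δ := by
      rw [← dist_eq_norm]
      exact lt_of_lt_of_le h1 (min_le_right _ _)
    have h4 := norm_sub_norm_le c w
    rw [hc, norm_sub_rev] at h4
    linarith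
  have hrel : ∀ᶠ t : ℝ in 𝓝[>] 0, L (fr P Q ((1 - (t : ℂ)) • x)) =
      K (fr P Q ((1 - (t : ℂ)) • x)) := by
    have h1 : Tendsto (fun t : ℝ => (1 - (t : ℂ)) • x) (𝓝[>] 0) (𝓝 x) := by
      have : Tendsto (fun t : ℝ => (1 - (t : ℂ)) • x) (𝓝 0) (𝓝 ((1 - ((0 : ℝ) : ℂ)) • x)) := by
        have hc : Continuous fun t : ℝ => (1 - (t : ℂ)) • x := by fun_prop
        exact hc.tendsto 0
      rw [Complex.ofReal_zero, sub_zero, one_smul] at this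
      exact this.mono_left nhdsWithin_le_nhds
    have h2 : ∀ᶠ t : ℝ in 𝓝[>] 0, dist ((1 - (t : ℂ)) • x) x < δ₂ :=
      h1.eventually (ball_mem_nhds x hδ₂)
    have h5 : ∀ᶠ t : ℝ in 𝓝[>] 0, t ≤ 1 :=
      nhdsWithin_le_nhds (eventually_le_nhds one_pos)
    filter_upwards [h2, h5, self_mem_nhdsWithin, hrad] with t ht ht1 ht0 hr
    rw [← hr]
    exact ((h _ (smul_mem_Bn hx.1 ht0 ht1) ht).2).symm
  have hEq := hU c ε' (fun t => fr P Q ((1 - (t : ℂ)) • x)) L K hc hε'0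
    (hRAD n P Q hA x hx).1 (hRAD n P Q hA x hx).2 (ball c ε' ∩ ball 0 1)
    ((convex_ball _ _).inter (convex_ball _ _)) (isOpen_ball.inter isOpen_ball) subset_rfl
    (hL.mono (Set.inter_subset_inter_left _ (ball_subset_ball (min_le_left _ _))))
    (hK.mono hsub) hrel
  have hcont : ContinuousAt (fr P Q) x := (diffAt_fr hx.2.1).continuousAt
  obtain ⟨δ₃, hδ₃, h3⟩ := Metric.continuousAt_iff.1 hcont ε' hε'0
  refine ⟨min δ₂ δ₃, lt_min hδ₂ hδ₃, fun z hz hzx => ?_⟩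
  have h4 := h z hz (hzx.trans_le (min_le_left _ _))
  rw [h4.2]
  refine hEq ⟨?_, ?_⟩
  · exact h3 (hzx.trans_le (min_le_right _ _))
  · exact mem_ball_zero_iff.2 (norm_fr_lt hA hz)

/-- the primitive of `k f^j df` gives a primitive of `K w^j` -/
lemma prim_rel (hRAD : RADIAL0) (hU : UNIQ) (hA : Adm0 P Q) {k h : (Fin n → ℂ) → ℂ}
    (hh : DifferentiableOn ℂ h (Bn n)) {j : ℕ}
    (hdh : ∀ z ∈ Bn n, fderiv ℂ h z = (k z * fr P Q z ^ j) • fderiv ℂ (fr P Q) z)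
    {δ : ℝ} (hδ : 0 < δ) {K H : ℂ → ℂ}
    (hK : DifferentiableOn ℂ K {w | 1 - δ < ‖w‖ ∧ ‖w‖ < 1})
    (hH : DifferentiableOn ℂ H {w | 1 - δ < ‖w‖ ∧ ‖w‖ < 1}) {x : Fin n → ℂ} (hx : x ∈ Ct0 P Q)
    (hrk : ∀ᶠ t : ℝ in 𝓝[>] 0, k ((1 - (t : ℂ)) • x) = K (fr P Q ((1 - (t : ℂ)) • x)))
    (hrh : ∀ᶠ t : ℝ in 𝓝[>] 0, h ((1 - (t : ℂ)) • x) = H (fr P Q ((1 - (t : ℂ)) • x))) :
    ∀ w ∈ ball (fr P Q x) δ ∩ ball 0 1, HasDerivAt H (K w * w ^ j) w := by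
  have hc := norm_fr_Ct hx
  have hsub := mem_annulus_of_ball (δ := δ) hc
  have hop : IsOpen (ball (fr P Q x) δ ∩ ball (0 : ℂ) 1) := isOpen_ball.inter isOpen_ball
  have hH' : DifferentiableOn ℂ (deriv H) (ball (fr P Q x) δ ∩ ball 0 1) :=
    (hH.mono hsub).deriv hop
  have hK' : DifferentiableOn ℂ (fun w => K w * w ^ j) (ball (fr P Q x) δ ∩ ball 0 1) :=
    (hK.mono hsub).fun_mul (differentiable_id.pow j).differentiableOn
  obtain ⟨ht1, ht2⟩ := hRAD n P Q hA x hx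
  -- turn the eventual relations into relations on an interval
  obtain ⟨t₀, ht₀, hI⟩ : ∃ t₀ : ℝ, 0 < t₀ ∧ ∀ t : ℝ, 0 < t → t < t₀ → t ≤ 1 ∧
      k ((1 - (t : ℂ)) • x) = K (fr P Q ((1 - (t : ℂ)) • x)) ∧
      h ((1 - (t : ℂ)) • x) = H (fr P Q ((1 - (t : ℂ)) • x)) ∧
      fr P Q ((1 - (t : ℂ)) • x) ∈ ball (fr P Q x) δ ∧
      ∃ d : ℂ, d ≠ 0 ∧ HasDerivAt (fun t : ℝ => fr P Q ((1 - (t : ℂ)) • x)) d t := by
    have h5 : ∀ᶠ t : ℝ in 𝓝[>] 0, t ≤ 1 :=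
      nhdsWithin_le_nhds (eventually_le_nhds one_pos)
    have h6 : ∀ᶠ t : ℝ in 𝓝[>] 0, fr P Q ((1 - (t : ℂ)) • x) ∈ ball (fr P Q x) δ :=
      ht1.eventually (ball_mem_nhds _ hδ)
    have h7 := (((h5.and hrk).and hrh).and h6).and ht2
    rw [eventually_nhdsWithin_iff] at h7
    obtain ⟨ε, hε, h8⟩ := Metric.eventually_nhds_iff.1 h7
    refine ⟨ε, hε, fun t h0 h1 => ?_⟩
    have h9 := h8 (y := t) (by rw [Real.dist_eq, sub_zero, abs_of_pos h0]; exact h1) h0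
    exact ⟨h9.1.1.1.1, h9.1.1.1.2, h9.1.1.2, h9.1.2, h9.2.2⟩
  have hrel : ∀ᶠ t : ℝ in 𝓝[>] 0, deriv H (fr P Q ((1 - (t : ℂ)) • x)) =
      K (fr P Q ((1 - (t : ℂ)) • x)) * fr P Q ((1 - (t : ℂ)) • x) ^ j := by
    have h5 : ∀ᶠ t : ℝ in 𝓝[>] 0, t < t₀ :=
      nhdsWithin_le_nhds (eventually_lt_nhds ht₀)
    filter_upwards [h5, self_mem_nhdsWithin] with t htt ht0
    have ht0' : 0 < t := ht0
    obtain ⟨e1, e2, e3, e4, d, hd, e5⟩ := hI t ht0' htt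
    have hzt := smul_mem_Bn hx.1 ht0' e1
    set zt := (1 - (t : ℂ)) • x with hzt'
    have hft : fr P Q zt ∈ ball (fr P Q x) δ ∩ ball 0 1 :=
      ⟨e4, mem_ball_zero_iff.2 (norm_fr_lt hA hzt)⟩
    -- derivative of `f` along the ray
    have f1 : HasFDerivAt (fr P Q) (fderiv ℂ (fr P Q) zt) zt :=
      (diffAt_fr (Qne_Bn hA hzt)).hasFDerivAt
    have f1' : HasFDerivAt (𝕜 := ℝ) (fr P Q) ((fderiv ℂ (fr P Q) zt).restrictScalars ℝ)
      ((1 - (t : ℂ)) • x) := f1.restrictScalars ℝ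
    have f2 : HasDerivAt (fun t : ℝ => fr P Q ((1 - (t : ℂ)) • x))
        (fderiv ℂ (fr P Q) zt (-x)) t := by
      have h0 := f1'.comp_hasDerivAt t (ray_hasDerivAt x t)
      exact h0
    have f3 : fderiv ℂ (fr P Q) zt (-x) = d := f2.unique e5
    -- derivative of `h` along the ray
    have g1 : HasFDerivAt h (fderiv ℂ h zt) zt :=
      ((hh zt hzt).differentiableAt ((isOpen_Bn n).mem_nhds hzt)).hasFDerivAt
    have g1' : HasFDerivAt (𝕜 := ℝ) h ((fderiv ℂ h zt).restrictScalars ℝ)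
      ((1 - (t : ℂ)) • x) := g1.restrictScalars ℝ
    have g2 : HasDerivAt (fun t : ℝ => h ((1 - (t : ℂ)) • x)) (fderiv ℂ h zt (-x)) t := by
      have h0 := g1'.comp_hasDerivAt t (ray_hasDerivAt x t)
      exact h0
    -- derivative of `H ∘ f` along the ray
    have g3 : HasDerivAt H (deriv H (fr P Q zt)) (fr P Q zt) :=
      ((hH _ (hsub hft)).differentiableAt ((isOpen_annulus _).mem_nhds (hsub hft))).hasDerivAt
    have g4 : HasDerivAt (fun t : ℝ => H (fr P Q ((1 - (t : ℂ)) • x)))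
        (deriv H (fr P Q zt) * d) t := by
      have := g3.comp_of_eq (h := fun t : ℝ => fr P Q ((1 - (t : ℂ)) • x)) t e5 rfl
      exact this
    have g5 : (fun t : ℝ => h ((1 - (t : ℂ)) • x)) =ᶠ[𝓝 t]
        fun t : ℝ => H (fr P Q ((1 - (t : ℂ)) • x)) := by
      filter_upwards [Ioo_mem_nhds ht0' htt] with s hs
      exact (hI s hs.1 hs.2).2.2.1
    have g6 : fderiv ℂ h zt (-x) = deriv H (fr P Q zt) * d := (g4.congr_of_eventuallyEq g5).unique g2 |>.symm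
    rw [hdh zt hzt, smul_apply, f3, smul_eq_mul, e2] at g6
    exact (mul_right_cancel₀ hd g6).symm
  have hEq := hU (fr P Q x) δ (fun t => fr P Q ((1 - (t : ℂ)) • x)) (deriv H)
    (fun w => K w * w ^ j) hc hδ ht1 ht2 (ball (fr P Q x) δ ∩ ball 0 1)
    ((convex_ball _ _).inter (convex_ball _ _)) hop subset_rfl hH' hK' hrel
  intro w hw
  have h1 := ((hH _ (hsub hw)).differentiableAt
    ((isOpen_annulus _).mem_nhds (hsub hw))).hasDerivAt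
  rw [hEq hw] at h1
  exact h1

/-- the moments of `K` vanish -/
lemma moments (hSEC : SEC0) (hLOC : LOC0) (hRAD : RADIAL0) (hU : UNIQ) (hG : GLUE0) (hPO : POINC0)
    (hA : Adm0 P Q) (hD : Dual P Q)
    (hc : ∀ c : ℂ, ‖c‖ = 1 → IsConnected {z | z ∈ Ct0 P Q ∧ fr P Q z = c})
    {k : (Fin n → ℂ) → ℂ} (hk : DifferentiableOn ℂ k (Bn n)) (hw : Wedge P Q k)
    {δ : ℝ} (hδ : 0 < δ) (hδ1 : δ < 1) {K : ℂ → ℂ}
    (hK : DifferentiableOn ℂ K {w | 1 - δ < ‖w‖ ∧ ‖w‖ < 1})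
    (hr : ∀ x ∈ Ct0 P Q, ∀ᶠ t : ℝ in 𝓝[>] 0,
        k ((1 - (t : ℂ)) • x) = K (fr P Q ((1 - (t : ℂ)) • x)))
    (j : ℕ) (ρ : ℝ) (hρ : 1 - δ < ρ) (hρ1 : ρ < 1) : (∮ w in C(0, ρ), K w * w ^ j) = 0 := by
  obtain ⟨h, hh, hwh, hdh⟩ := hPO n P Q hA k hk hw j
  obtain ⟨δ', hδ', hδ'1, H, hH, hrh⟩ := glue_app hSEC hLOC hRAD hG hA hD hc hh hwh
  set η := min δ δ' with hη
  have hη0 : 0 < η := lt_min hδ hδ'
  have hsub1 : {w : ℂ | 1 - η < ‖w‖ ∧ ‖w‖ < 1} ⊆ {w | 1 - δ < ‖w‖ ∧ ‖w‖ < 1} := fun w hw =>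
    ⟨by have := min_le_left δ δ'; have := hw.1; linarith, hw.2⟩
  have hsub2 : {w : ℂ | 1 - η < ‖w‖ ∧ ‖w‖ < 1} ⊆ {w | 1 - δ' < ‖w‖ ∧ ‖w‖ < 1} := fun w hw =>
    ⟨by have := min_le_right δ δ'; have := hw.1; linarith, hw.2⟩
  obtain ⟨r, hr1, hrel⟩ := annulus_of_local (p := fun w => HasDerivAt H (K w * w ^ j) w) (by
    intro c hc1
    obtain ⟨x, hx, hxc⟩ := (hc c hc1).nonempty
    refine ⟨η, hη0, ?_⟩
    rw [← hxc]
    exact prim_rel hRAD hU hA hh hdh hη0 (hK.mono hsub1) (hH.mono hsub2) hx (hr x hx) (hrh x hx))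
  -- a radius close to one
  obtain ⟨ρ', h1, h2⟩ : ∃ ρ' : ℝ, max ρ r < ρ' ∧ ρ' < 1 := exists_between (max_lt hρ1 hr1)
  have hρρ' : ρ < ρ' := (le_max_left _ _).trans_lt h1
  have hrρ' : r < ρ' := (le_max_right _ _).trans_lt h1
  have hρ0 : 0 < ρ := by linarith
  have e1 : (∮ w in C(0, ρ'), K w * w ^ j) = 0 := by
    refine circleIntegral.integral_eq_zero_of_hasDerivWithinAt' (f := H) fun w hw => ?_
    rw [mem_sphere_zero_iff_norm, abs_of_pos (by linarith)] at hw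
    exact (hrel w (by rw [hw]; exact hrρ') (by rw [hw]; exact h2)).hasDerivWithinAt
  have hd : DifferentiableOn ℂ (fun w => K w * w ^ j) {w | 1 - δ < ‖w‖ ∧ ‖w‖ < 1} :=
    hK.fun_mul (differentiable_id.pow j).differentiableOn
  have e2 := Complex.circleIntegral_eq_of_differentiable_on_annulus_off_countable (c := 0)
    hρ0 hρρ'.le (f := fun w => K w * w ^ j) (s := ∅) Set.countable_empty ?_ ?_
  · rw [← e2]
    exact e1
  · refine hd.continuousOn.mono ?_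
    rintro w ⟨h3, h4⟩
    rw [mem_closedBall_zero_iff] at h3
    rw [mem_ball_zero_iff, not_lt] at h4
    exact ⟨by linarith, by linarith⟩
  · rintro w ⟨⟨h3, h4⟩, -⟩
    rw [mem_ball_zero_iff] at h3
    rw [mem_closedBall_zero_iff, not_le] at h4
    have hmem : w ∈ {w : ℂ | 1 - δ < ‖w‖ ∧ ‖w‖ < 1} := ⟨by linarith, by linarith⟩
    exact (hd w hmem).differentiableAt ((isOpen_annulus _).mem_nhds hmem)

lemma g_eq (hA : Adm0 P Q) {z : Fin n → ℂ} (hz : z ∈ Bn n) :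
    (eval z Q + eval z P) / (eval z Q - eval z P) = (1 + fr P Q z) / (1 - fr P Q z) := by
  have hQ := Qne_Bn hA hz
  have h1 := hA.lt z hz
  have h2 : eval z Q - eval z P ≠ 0 := by
    intro h
    rw [sub_eq_zero.1 h] at h1
    exact lt_irrefl _ h1
  unfold fr
  have h3 : 1 - eval z P / eval z Q ≠ 0 := by
    intro h
    apply h2
    have h4 : eval z P / eval z Q = 1 := (sub_eq_zero.1 h).symm
    rw [div_eq_one_iff_eq hQ] at h4
    rw [h4, sub_self]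
  field_simp

/-- no nonzero `k` -/
theorem k_zero (hLO : LOCAL0) (hSEC : SEC0) (hLOC : LOC0) (hRAD : RADIAL0) (hU : UNIQ) (hG : GLUE0)
    (hPO : POINC0) (hE : ENDS) (hA : Adm0 P Q) (hD : Dual P Q)
    (hc : ∀ c : ℂ, ‖c‖ = 1 → IsConnected {z | z ∈ Ct0 P Q ∧ fr P Q z = c})
    {k : (Fin n → ℂ) → ℂ} (hk : DifferentiableOn ℂ k (Bn n)) (hk0 : k 0 = 0)
    (hre : ∀ z ∈ Bn n, |(k z).re| ≤ ((eval z Q + eval z P) / (eval z Q - eval z P)).re) :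
    ∀ z ∈ Bn n, k z = 0 := by
  -- a contact point with `f ≠ 1`
  obtain ⟨m, hm, hfm⟩ := (hc (-1) (by rw [norm_neg, norm_one])).nonempty
  have hmne : eval m P ≠ eval m Q := by
    intro h
    unfold fr at hfm
    rw [h, div_self hm.2.1] at hfm
    norm_num at hfm
  have hw : Wedge P Q k := hLO n P Q hA hD m hm hmne k hk hre
  -- the function `K`
  obtain ⟨δ, hδ, hδ1, K, hK, hr⟩ := glue_app hSEC hLOC hRAD hG hA hD hc hk hw
  have hloc : ∀ x ∈ Ct0 P Q, ∃ δ₁ : ℝ, 0 < δ₁ ∧ ∀ z ∈ Bn n, dist z x < δ₁ → k z = K (fr P Q z) :=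
    fun x hx => loc_K hLOC hRAD hU hA hD hk hw hδ hK hx (hr x hx)
  -- the bound for `K`
  obtain ⟨r₁, hr1, hbd⟩ := annulus_of_local
    (p := fun w => |(K w).re| ≤ 1 * (1 - ‖w‖ ^ 2) / ‖1 - w‖ ^ 2) (by
    intro c hc1
    obtain ⟨x, hx, hxc⟩ := (hc c hc1).nonempty
    obtain ⟨δ₁, hδ₁, h1⟩ := hloc x hx
    obtain ⟨ε, hε, h2, -⟩ := hSEC n P Q hA hD x hx δ₁ hδ₁
    refine ⟨ε, hε, fun w hw => ?_⟩
    rw [← hxc] at hw
    obtain ⟨z, hz, hzx, hzw⟩ := h2 w hw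
    have h3 := hre z hz
    rw [g_eq hA hz, h1 z hz hzx, hzw, cayley_re w] at h3
    rw [one_mul]
    exact h3)
  set r := max (1 - δ) (max r₁ (1 / 2)) with hrdef
  have hr0 : 0 < r := lt_of_lt_of_le (by norm_num) ((le_max_right _ _).trans (le_max_right _ _))
  have hr1' : r < 1 := max_lt (by linarith) (max_lt hr1 (by norm_num))
  have hrδ : 1 - δ ≤ r := le_max_left _ _
  have hrr1 : r₁ ≤ r := (le_max_left _ _).trans (le_max_right _ _)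
  obtain ⟨κ, hκ⟩ := hE r 1 K hr0 hr1'
    (hK.mono fun w hw => ⟨lt_of_le_of_lt hrδ hw.1, hw.2⟩)
    (fun w h1 h2 => hbd w (lt_of_le_of_lt hrr1 h1) h2)
    (fun j ρ h1 h2 => moments hSEC hLOC hRAD hU hG hPO hA hD hc hk hw hδ hδ1 hK hr j ρ
      (lt_of_le_of_lt hrδ h1) h2)
  -- an open set on which `k` is explicit
  obtain ⟨δ₁, hδ₁, h1⟩ := hloc m hm
  have hcont : ContinuousAt (fr P Q) m := (diffAt_fr hm.2.1).continuousAt
  have hnm := norm_fr_Ct hm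
  have hev : ∀ᶠ z in 𝓝 m, r < ‖fr P Q z‖ := by
    have h2 : r < ‖fr P Q m‖ := by rw [hnm]; exact hr1'
    exact continuousAt_const.eventually_lt hcont.norm h2
  obtain ⟨δ₂, hδ₂, h2⟩ := Metric.eventually_nhds_iff_ball.1 hev
  set u : (Fin n → ℂ) → ℂ := fun z =>
    k z - (κ + 2 * (κ.re : ℂ) * fr P Q z / (1 - fr P Q z)) with hu
  have hne : ∀ z ∈ Bn n, 1 - fr P Q z ≠ 0 := by
    intro z hz h
    have h3 := norm_fr_lt hA hz
    rw [← sub_eq_zero.1 h, norm_one] at h3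
    exact lt_irrefl _ h3
  have hud : DifferentiableOn ℂ u (Bn n) := by
    have e1 := diffOn_fr hA
    refine hk.fun_sub ((differentiableOn_const _).fun_add ?_)
    have e2 : DifferentiableOn ℂ (fun z => 2 * (κ.re : ℂ) * fr P Q z * (1 - fr P Q z)⁻¹) (Bn n) :=
      (e1.const_mul _).fun_mul (((differentiableOn_const _).fun_sub e1).fun_inv hne)
    exact e2.congr fun z _ => div_eq_mul_inv _ _
  have hzero := ident hud (V := Bn n ∩ ball m (min δ₁ δ₂)) ((isOpen_Bn n).inter isOpen_ball) ?_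
    Set.inter_subset_left ?_
  · -- value at the origin
    have hf00 : fr P Q 0 = 0 := by
      unfold fr
      rw [hA.zero, zero_div]
    have h3 := hzero 0 (zero_mem_Bn n)
    simp only [hu, hk0, hf00, mul_zero, zero_div, add_zero, zero_sub, neg_eq_zero] at h3
    intro z hz
    have h4 := hzero z hz
    simp only [hu, h3, Complex.zero_re, Complex.ofReal_zero, mul_zero, zero_mul, zero_div,
      add_zero, sub_zero] at h4
    exact h4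
  · have h3 : ∀ᶠ t : ℝ in 𝓝[>] 0, (1 - (t : ℂ)) • m ∈ ball m (min δ₁ δ₂) :=
      (ray_tendsto m).eventually (ball_mem_nhds m (lt_min hδ₁ hδ₂))
    have h4 : ∀ᶠ t : ℝ in 𝓝[>] 0, t ≤ 1 := nhdsWithin_le_nhds (eventually_le_nhds one_pos)
    obtain ⟨t, ⟨ht1, ht2⟩, ht3⟩ := ((h3.and h4).and self_mem_nhdsWithin).exists
    exact ⟨_, smul_mem_Bn hm.1 ht3 ht2, ht1⟩
  · rintro z ⟨hz, hzm⟩
    have h3 := h1 z hz (lt_of_lt_of_le hzm (min_le_left _ _))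
    have h4 := h2 z (ball_subset_ball (min_le_right _ _) hzm)
    simp only [hu]
    rw [h3, hκ _ h4 (norm_fr_lt hA hz), sub_self]

/-- FINAL3 from the rows -/
theorem final3 (hADM : ADM) (hLO : LOCAL0) (hSEC : SEC0) (hLOC : LOC0) (hRAD : RADIAL0)
    (hU : UNIQ) (hG : GLUE0) (hPO : POINC0) (hE : ENDS) : FINAL3 := by
  intro n P Q hn hNB hD hcon
  have hA : Adm0 P Q := (hADM n P Q hn hNB).1
  refine ext n P Q hNB fun k hk hk0 hre => ?_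
  refine k_zero hLO hSEC hLOC hRAD hU hG hPO hE hA hD (fun c hc1 => ?_) hk hk0 hre
  have h1 : {z : Fin n → ℂ | z ∈ Ct0 P Q ∧ fr P Q z = c} =
      (fun z : Cn n => (fun i => z i)) '' {z : Cn n | ‖z‖ = 1 ∧ eval (fun i => z i) Q ≠ 0 ∧
        eval (fun i => z i) P = c * eval (fun i => z i) Q} := by
    ext z
    constructor
    · rintro ⟨⟨h1, h2, h3⟩, h4⟩
      refine ⟨WithLp.toLp 2 z, ⟨?_, h2, ?_⟩, rfl⟩
      · have h3 : ‖(WithLp.toLp 2 z : Cn n)‖ ^ 2 = 1 := by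
          rw [EuclideanSpace.norm_sq_eq]
          exact h1
        nlinarith [norm_nonneg (WithLp.toLp 2 z : Cn n)]
      · unfold fr at h4
        rw [div_eq_iff h2] at h4
        exact h4
    · rintro ⟨y, ⟨h1, h2, h3⟩, rfl⟩
      refine ⟨⟨?_, h2, by rw [h3, norm_mul, hc1, one_mul]⟩, ?_⟩
      · show ∑ i, ‖y i‖ ^ 2 = 1
        rw [← EuclideanSpace.norm_sq_eq, h1, one_pow]
      · unfold fr
        rw [div_eq_iff h2]
        exact h3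
  rw [h1]
  refine (hcon c hc1).image _ (Continuous.continuousOn ?_)
  fun_prop

end

end Pool.Agent.Lib.MP_6ff8d9_an.H22.Z
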