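import Pool.Agent.Lib.MP_6ff8d9_an_h22.RowsZ2

/-!
# Estimates for the existence of a regular contact point
-/

open Metric Filter Topology MvPolynomial
open scoped ComplexConjugate

namespace Pool.Agent.Lib.MP_6ff8d9_an.H22.Ctne

open Pool.Agent.Lib.MP_6ff8d9_an Pool.Agent.Lib.MP_6ff8d9_an.Hom
open Pool.Agent.Lib.MP_6ff8d9_an.H22

noncomputable section

variable {n : ℕ}

/-- directional derivative -/
def Dv (p : MvPolynomial (Fin n) ℂ) (m v : Fin n → ℂ) : ℂ := ∑ j, v j * eval m (pderiv j p)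

/-- uniform Taylor estimate for a polynomial on `‖m‖ ≤ 2`, `‖v‖ ≤ 1` -/
lemma taylor (p : MvPolynomial (Fin n) ℂ) : ∃ C : ℝ, 1 ≤ C ∧ ∀ m v : Fin n → ℂ, ‖m‖ ≤ 2 → ‖v‖ ≤ 1 →
    ‖eval m p‖ ≤ C ∧ ‖Dv p m v‖ ≤ C * ‖v‖ ∧ ‖eval (m + v) p - eval m p - Dv p m v‖ ≤ C * ‖v‖ ^ 2 := by
  induction p using MvPolynomial.induction_on with
  | C a =>
    refine ⟨‖a‖ + 1, by linarith [norm_nonneg a], fun m v _ _ => ?_⟩
    have h : Dv (C a) m v = 0 := by simp [Dv]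
    rw [h]
    simp only [eval_C, sub_self, norm_zero]
    refine ⟨by linarith, by positivity, by positivity⟩
  | add p q hp hq =>
    obtain ⟨C₁, h1, hC₁⟩ := hp
    obtain ⟨C₂, h2, hC₂⟩ := hq
    refine ⟨C₁ + C₂, by linarith, fun m v hm hv => ?_⟩
    obtain ⟨a1, b1, c1⟩ := hC₁ m v hm hv
    obtain ⟨a2, b2, c2⟩ := hC₂ m v hm hv
    have hD : Dv (p + q) m v = Dv p m v + Dv q m v := by
      simp [Dv, mul_add, Finset.sum_add_distrib]
    rw [hD, map_add, map_add]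
    refine ⟨(norm_add_le _ _).trans (add_le_add a1 a2), ?_, ?_⟩
    · rw [add_mul]
      exact (norm_add_le _ _).trans (add_le_add b1 b2)
    · have : eval (m + v) p + eval (m + v) q - (eval m p + eval m q) - (Dv p m v + Dv q m v) =
          (eval (m + v) p - eval m p - Dv p m v) + (eval (m + v) q - eval m q - Dv q m v) := by ring
      rw [this, add_mul]
      exact (norm_add_le _ _).trans (add_le_add c1 c2)
  | mul_X p k hp =>
    obtain ⟨K, hK1, hK⟩ := hp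
    refine ⟨4 * K, by linarith, fun m v hm hv => ?_⟩
    obtain ⟨a1, b1, c1⟩ := hK m v hm hv
    have hmk : ‖m k‖ ≤ 2 := (norm_le_pi_norm m k).trans hm
    have hvk : ‖v k‖ ≤ ‖v‖ := norm_le_pi_norm v k
    have hv0 := norm_nonneg v
    have hD : Dv (p * X k) m v = m k * Dv p m v + eval m p * v k := by
      have h1 : ∀ l, v l * eval m (pderiv l (p * X k)) =
          m k * (v l * eval m (pderiv l p)) + (if l = k then eval m p * v l else 0) := by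
        intro l
        rw [Derivation.leibniz, pderiv_X]
        by_cases hlk : l = k
        · subst hlk
          simp
          ring
        · have : (Pi.single l (1 : MvPolynomial (Fin n) ℂ) : Fin n → _) k = 0 :=
            Pi.single_eq_of_ne (Ne.symm hlk) _
          rw [this]
          simp [hlk]
          ring
      rw [Dv, Finset.sum_congr rfl fun l _ => h1 l, Finset.sum_add_distrib, ← Finset.mul_sum]
      simp [Dv]
    refine ⟨?_, ?_, ?_⟩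
    · rw [map_mul, eval_X, norm_mul]
      nlinarith [norm_nonneg (eval m p), norm_nonneg (m k)]
    · rw [hD]
      refine (norm_add_le _ _).trans ?_
      rw [norm_mul, norm_mul]
      have e1 : ‖m k‖ * ‖Dv p m v‖ ≤ 2 * (K * ‖v‖) := mul_le_mul hmk b1 (norm_nonneg _) two_pos.le
      have e2 : ‖eval m p‖ * ‖v k‖ ≤ K * ‖v‖ := mul_le_mul a1 hvk (norm_nonneg _) (by linarith)
      nlinarith
    · rw [hD, map_mul, map_mul, eval_X, eval_X, Pi.add_apply]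
      have h3 : eval (m + v) p * (m k + v k) - eval m p * m k -
          (m k * Dv p m v + eval m p * v k) =
          (eval (m + v) p - eval m p - Dv p m v) * (m k + v k) + Dv p m v * v k := by ring
      rw [h3]
      refine (norm_add_le _ _).trans ?_
      rw [norm_mul, norm_mul]
      have e1 : ‖m k + v k‖ ≤ 3 := (norm_add_le _ _).trans (by linarith)
      have e2 : ‖eval (m + v) p - eval m p - Dv p m v‖ * ‖m k + v k‖ ≤ (K * ‖v‖ ^ 2) * 3 :=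
        mul_le_mul c1 e1 (norm_nonneg _) (by positivity)
      have e3 : ‖Dv p m v‖ * ‖v k‖ ≤ (K * ‖v‖) * ‖v‖ :=
        mul_le_mul b1 hvk (norm_nonneg _) (by positivity)
      nlinarith

/-- common constant -/
structure Cst (P Q : MvPolynomial (Fin n) ℂ) (C : ℝ) : Prop where
  one : 1 ≤ C
  hP : ∀ m v : Fin n → ℂ, ‖m‖ ≤ 2 → ‖v‖ ≤ 1 →
    ‖eval m P‖ ≤ C ∧ ‖Dv P m v‖ ≤ C * ‖v‖ ∧ ‖eval (m + v) P - eval m P - Dv P m v‖ ≤ C * ‖v‖ ^ 2
  hQ : ∀ m v : Fin n → ℂ, ‖m‖ ≤ 2 → ‖v‖ ≤ 1 →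
    ‖eval m Q‖ ≤ C ∧ ‖Dv Q m v‖ ≤ C * ‖v‖ ∧ ‖eval (m + v) Q - eval m Q - Dv Q m v‖ ≤ C * ‖v‖ ^ 2
  hR : ∀ m v : Fin n → ℂ, ‖m‖ ≤ 2 → ‖v‖ ≤ 1 →
    ‖eval m (Rr P Q)‖ ≤ C ∧ ‖Dv (Rr P Q) m v‖ ≤ C * ‖v‖ ∧
    ‖eval (m + v) (Rr P Q) - eval m (Rr P Q) - Dv (Rr P Q) m v‖ ≤ C * ‖v‖ ^ 2
  hW : ∀ i, ∀ m v : Fin n → ℂ, ‖m‖ ≤ 2 → ‖v‖ ≤ 1 →
    ‖eval m (Wr P Q i)‖ ≤ C ∧ ‖Dv (Wr P Q i) m v‖ ≤ C * ‖v‖ ∧
    ‖eval (m + v) (Wr P Q i) - eval m (Wr P Q i) - Dv (Wr P Q i) m v‖ ≤ C * ‖v‖ ^ 2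

lemma exists_cst (P Q : MvPolynomial (Fin n) ℂ) : ∃ C, Cst P Q C := by
  obtain ⟨C₁, h1, k1⟩ := taylor P
  obtain ⟨C₂, h2, k2⟩ := taylor Q
  obtain ⟨C₃, h3, k3⟩ := taylor (Rr P Q)
  choose C₄ h4 k4 using fun i => taylor (Wr P Q i)
  have hs : ∀ i, C₄ i ≤ ∑ l, C₄ l := fun i =>
    Finset.single_le_sum (f := C₄) (fun l _ => zero_le_one.trans (h4 l)) (Finset.mem_univ i)
  have hs0 : 0 ≤ ∑ l, C₄ l := Finset.sum_nonneg fun l _ => zero_le_one.trans (h4 l)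
  refine ⟨C₁ + C₂ + C₃ + ∑ l, C₄ l, ⟨by linarith, ?_, ?_, ?_, ?_⟩⟩
  · intro m v hm hv
    obtain ⟨a, b, c⟩ := k1 m v hm hv
    exact ⟨a.trans (by linarith), b.trans (mul_le_mul_of_nonneg_right (by linarith)
      (norm_nonneg v)), c.trans (mul_le_mul_of_nonneg_right (by linarith) (by positivity))⟩
  · intro m v hm hv
    obtain ⟨a, b, c⟩ := k2 m v hm hv
    exact ⟨a.trans (by linarith), b.trans (mul_le_mul_of_nonneg_right (by linarith)
      (norm_nonneg v)), c.trans (mul_le_mul_of_nonneg_right (by linarith) (by positivity))⟩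
  · intro m v hm hv
    obtain ⟨a, b, c⟩ := k3 m v hm hv
    exact ⟨a.trans (by linarith), b.trans (mul_le_mul_of_nonneg_right (by linarith)
      (norm_nonneg v)), c.trans (mul_le_mul_of_nonneg_right (by linarith) (by positivity))⟩
  · intro i m v hm hv
    obtain ⟨a, b, c⟩ := k4 i m v hm hv
    have := hs i
    exact ⟨a.trans (by linarith), b.trans (mul_le_mul_of_nonneg_right (by linarith)
      (norm_nonneg v)), c.trans (mul_le_mul_of_nonneg_right (by linarith) (by positivity))⟩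

lemma norm_le_of_sph {ζ : Fin n → ℂ} (hζ : ζ ∈ Sph n) : ‖ζ‖ ≤ 1 := by
  rw [pi_norm_le_iff_of_nonneg zero_le_one]
  exact fun i => M2.sph_le hζ i

/-- the lower bound for `r` -/
lemma lower {P Q : MvPolynomial (Fin n) ℂ} (hA : Adm0 P Q) {C : ℝ} (hC : Cst P Q C)
    {ζ : Fin n → ℂ} (hζ : ζ ∈ Sph n) (hq : eval ζ Q ≠ 0)
    (hD : dfc P Q ζ ≤ ‖eval ζ Q‖ ^ 3 / (64 * C)) :
    ‖eval ζ Q‖ ^ 2 / 4 ≤ ‖eval ζ (Rr P Q)‖ := by
  have hC1 := hC.one
  have hC0 : 0 < C := by linarith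
  set q := ‖eval ζ Q‖ with hqd
  have hq0 : 0 < q := norm_pos_iff.2 hq
  have hz2 : ‖ζ‖ ≤ 2 := (norm_le_of_sph hζ).trans (by norm_num)
  have hqC : q ≤ C := (hC.hQ ζ 0 hz2 (by simp)).1
  set s : ℝ := q / (16 * C) with hs
  have hs0 : 0 < s := by positivity
  have hs1 : s ≤ 1 / 16 := by
    rw [hs, div_le_div_iff₀ (by positivity) (by norm_num)]
    linarith
  set v : Fin n → ℂ := (-(s : ℂ)) • ζ with hv
  have hvn : ‖v‖ ≤ s := by
    rw [hv, norm_smul, norm_neg, Complex.norm_real, Real.norm_of_nonneg hs0.le]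
    calc s * ‖ζ‖ ≤ s * 1 := mul_le_mul_of_nonneg_left (norm_le_of_sph hζ) hs0.le
      _ = s := mul_one s
  have hv1 : ‖v‖ ≤ 1 := by linarith
  obtain ⟨p1, p2, p3⟩ := hC.hP ζ v hz2 hv1
  obtain ⟨q1, q2, q3⟩ := hC.hQ ζ v hz2 hv1
  have hDP : Dv P ζ v = -(s : ℂ) * ∑ j, ζ j * eval ζ (pderiv j P) := by
    unfold Dv
    rw [Finset.mul_sum]
    refine Finset.sum_congr rfl fun j _ => ?_
    rw [hv, Pi.smul_apply, smul_eq_mul]
    ring
  have hDQ : Dv Q ζ v = -(s : ℂ) * ∑ j, ζ j * eval ζ (pderiv j Q) := by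
    unfold Dv
    rw [Finset.mul_sum]
    refine Finset.sum_congr rfl fun j _ => ?_
    rw [hv, Pi.smul_apply, smul_eq_mul]
    ring
  have hr : eval ζ Q * Dv P ζ v - eval ζ P * Dv Q ζ v = -(s : ℂ) * eval ζ (Rr P Q) := by
    rw [hDP, hDQ]
    unfold Rr Wr
    rw [map_sum]
    simp only [map_mul, map_sub, eval_X]
    have : ∑ j, ζ j * (eval ζ Q * eval ζ (pderiv j P) - eval ζ P * eval ζ (pderiv j Q)) =
        eval ζ Q * ∑ j, ζ j * eval ζ (pderiv j P) - eval ζ P * ∑ j, ζ j * eval ζ (pderiv j Q) := by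
      rw [Finset.mul_sum, Finset.mul_sum, ← Finset.sum_sub_distrib]
      exact Finset.sum_congr rfl fun j _ => by ring
    rw [this]
    ring
  -- Schwarz
  have hsch : ‖eval (ζ + v) P‖ ≤ (1 - s) * ‖eval (ζ + v) Q‖ := by
    have hz : ζ + v = ((1 - s : ℝ) : ℂ) • ζ := by
      rw [hv]
      push_cast
      rw [sub_smul, one_smul, neg_smul, sub_eq_add_neg]
    rw [hz]
    have hm1 : ∑ i, ‖ζ i‖ ^ 2 = 1 := hζ
    have hball : ∀ t : ℂ, ‖t‖ < 1 → ∑ i, ‖(t • ζ) i‖ ^ 2 < 1 := by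
      intro t ht
      rw [H1R.sum_smul_sq, hm1, mul_one]
      exact pow_lt_one₀ (norm_nonneg _) ht two_ne_zero
    have hQt : ∀ t : ℂ, ‖t‖ < 1 → eval (t • ζ) Q ≠ 0 := fun t ht =>
      norm_pos_iff.1 ((norm_nonneg _).trans_lt (hA.lt _ (hball t ht)))
    have h1 : ‖eval (((1 - s : ℝ) : ℂ) • ζ) P / eval (((1 - s : ℝ) : ℂ) • ζ) Q‖ ≤
        ‖((1 - s : ℝ) : ℂ)‖ := by
      refine Complex.norm_le_norm_of_mapsTo_ball (R := 1)
        (f := fun t : ℂ => eval (t • ζ) P / eval (t • ζ) Q) ?_ ?_ ?_ ?_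
      · intro t ht
        have ht' := hQt t (mem_ball_zero_iff.1 ht)
        exact ((H1R.hasDerivAt_line P ζ t).div (H1R.hasDerivAt_line Q ζ t)
          ht').differentiableAt.differentiableWithinAt
      · intro t ht
        rw [mem_closedBall_zero_iff, norm_div]
        exact div_le_one_of_le₀ (hA.lt _ (hball t (mem_ball_zero_iff.1 ht))).le (norm_nonneg _)
      · simp only [zero_smul]
        rw [hA.zero, zero_div]
      · rw [Complex.norm_real, Real.norm_of_nonneg (by linarith)]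
        linarith
    have hn : ‖((1 - s : ℝ) : ℂ)‖ = 1 - s := by
      rw [Complex.norm_real, Real.norm_of_nonneg (by linarith)]
    have h2 := hQt ((1 - s : ℝ) : ℂ) (by rw [hn]; linarith)
    rw [norm_div, div_le_iff₀ (norm_pos_iff.2 h2), hn] at h1
    exact h1
  set p₀ := eval ζ P with hp₀
  set q₀ := eval ζ Q with hq₀
  set a := Dv P ζ v with ha
  set b := Dv Q ζ v with hb
  -- `|p₀ + a| ≤ (1-s) |q₀ + b| + 2 C s²`
  have e1 : ‖p₀ + a‖ ≤ (1 - s) * ‖q₀ + b‖ + 2 * C * s ^ 2 := by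
    have f1 : ‖p₀ + a‖ ≤ ‖eval (ζ + v) P‖ + C * s ^ 2 := by
      have : p₀ + a = eval (ζ + v) P - (eval (ζ + v) P - p₀ - a) := by ring
      rw [this]
      refine (norm_sub_le _ _).trans (add_le_add le_rfl (p3.trans ?_))
      exact mul_le_mul_of_nonneg_left (pow_le_pow_left₀ (norm_nonneg _) hvn 2) hC0.le
    have f2 : ‖eval (ζ + v) Q‖ ≤ ‖q₀ + b‖ + C * s ^ 2 := by
      have : eval (ζ + v) Q = (q₀ + b) + (eval (ζ + v) Q - q₀ - b) := by ring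
      rw [this]
      refine (norm_add_le _ _).trans (add_le_add le_rfl (q3.trans ?_))
      exact mul_le_mul_of_nonneg_left (pow_le_pow_left₀ (norm_nonneg _) hvn 2) hC0.le
    have f3 : (1 - s) * ‖eval (ζ + v) Q‖ ≤ (1 - s) * (‖q₀ + b‖ + C * s ^ 2) :=
      mul_le_mul_of_nonneg_left f2 (by linarith)
    have f4 : (1 - s) * (C * s ^ 2) ≤ C * s ^ 2 := by
      have : 0 ≤ C * s ^ 2 := by positivity
      nlinarith
    linarith
  -- comparison
  have e2 : ‖q₀ + b‖ * ‖p₀‖ ≤ ‖p₀ + a‖ * q + s * ‖eval ζ (Rr P Q)‖ := by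
    have f1 : (q₀ + b) * p₀ = (p₀ + a) * q₀ + (s : ℂ) * eval ζ (Rr P Q) := by
      linear_combination (-1 : ℂ) * hr
    calc ‖q₀ + b‖ * ‖p₀‖ = ‖(q₀ + b) * p₀‖ := (norm_mul _ _).symm
      _ = ‖(p₀ + a) * q₀ + (s : ℂ) * eval ζ (Rr P Q)‖ := by rw [f1]
      _ ≤ ‖(p₀ + a) * q₀‖ + ‖(s : ℂ) * eval ζ (Rr P Q)‖ := norm_add_le _ _
      _ = _ := by
        rw [norm_mul, norm_mul, Complex.norm_real, Real.norm_of_nonneg hs0.le]
  have hpq : ‖p₀‖ ≤ q := hA.le ζ (le_of_eq hζ)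
  -- `η = q - |p₀| ≤ D/q`
  have hη : q - ‖p₀‖ ≤ q ^ 2 / (64 * C) := by
    have f1 : dfc P Q ζ = q ^ 2 - ‖p₀‖ ^ 2 := rfl
    rw [f1] at hD
    have f2 : (q - ‖p₀‖) * q ≤ q ^ 2 - ‖p₀‖ ^ 2 := by nlinarith [norm_nonneg p₀]
    have f3 : (q - ‖p₀‖) * q ≤ q ^ 2 / (64 * C) * q := by
      calc (q - ‖p₀‖) * q ≤ q ^ 3 / (64 * C) := f2.trans hD
        _ = q ^ 2 / (64 * C) * q := by ring
    exact le_of_mul_le_mul_right f3 hq0
  have hqb : q / 2 ≤ ‖q₀ + b‖ := by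
    have f1 : q - ‖b‖ ≤ ‖q₀ + b‖ := by
      have := norm_sub_norm_le q₀ (-b)
      rwa [norm_neg, sub_neg_eq_add] at this
    have f2 : ‖b‖ ≤ C * s := q2.trans (mul_le_mul_of_nonneg_left hvn hC0.le)
    have f3 : C * s = q / 16 := by
      rw [hs]
      field_simp
    linarith
  have hsC : 16 * C * s = q := by
    rw [hs]
    field_simp
  -- final computation
  have h64 : q ^ 2 / (64 * C) = s * q / 4 := by
    rw [hs]
    field_simp
    ring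
  rw [h64] at hη
  have g1 : ‖p₀ + a‖ * q ≤ ((1 - s) * ‖q₀ + b‖ + 2 * C * s ^ 2) * q :=
    mul_le_mul_of_nonneg_right e1 hq0.le
  have g2 : s * ‖eval ζ (Rr P Q)‖ ≥ ‖q₀ + b‖ * (‖p₀‖ - (1 - s) * q) - 2 * C * s ^ 2 * q := by
    nlinarith
  have g3 : ‖p₀‖ - (1 - s) * q ≥ 3 / 4 * (s * q) := by nlinarith
  have g4 : ‖q₀ + b‖ * (‖p₀‖ - (1 - s) * q) ≥ q / 2 * (3 / 4 * (s * q)) :=
    mul_le_mul hqb g3 (by positivity) (norm_nonneg _)
  have g5 : 2 * C * s ^ 2 * q = s * (q ^ 2 / 8) := by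
    have : 2 * C * s ^ 2 * q = s * q * (16 * C * s) / 8 := by ring
    rw [this, hsC]
    ring
  have g6 : s * (q ^ 2 / 4) ≤ s * ‖eval ζ (Rr P Q)‖ := by nlinarith
  exact le_of_mul_le_mul_left g6 hs0

end

end Pool.Agent.Lib.MP_6ff8d9_an.H22.Ctne
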