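import Pool.Agent.Lib.MP_6ff8d9_an_h22.Ctne1

/-!
# Existence of a regular contact point
-/

open Metric Filter Topology MvPolynomial
open scoped ComplexConjugate

namespace Pool.Agent.Lib.MP_6ff8d9_an.H22.Ctne

open Pool.Agent.Lib.MP_6ff8d9_an Pool.Agent.Lib.MP_6ff8d9_an.Hom
open Pool.Agent.Lib.MP_6ff8d9_an.H22

noncomputable section

variable {n : ℕ}

/-- the midpoint estimate for a quotient -/
lemma quot_est {W₀ r₀ a b e₁ e₂ e₃ e₄ : ℂ} {C x ρ : ℝ} (hC : 1 ≤ C) (hx : 0 ≤ x) (hx1 : x ≤ 1)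
    (hρ : 0 < ρ) (hW : ‖W₀‖ ≤ C) (hr : ‖r₀‖ ≤ C) (ha : ‖a‖ ≤ C * x) (hb : ‖b‖ ≤ C * x)
    (h1 : ‖e₁‖ ≤ C * x ^ 2) (h2 : ‖e₂‖ ≤ C * x ^ 2) (h3 : ‖e₃‖ ≤ C * x ^ 2)
    (h4 : ‖e₄‖ ≤ C * x ^ 2) (k0 : ρ ≤ ‖r₀‖) (k1 : ρ ≤ ‖r₀ + b + e₃‖) (k2 : ρ ≤ ‖r₀ - b + e₄‖) :
    ‖(W₀ + a + e₁) / (r₀ + b + e₃) + (W₀ - a + e₂) / (r₀ - b + e₄) - 2 * (W₀ / r₀)‖ ≤
      24 * C ^ 3 / ρ ^ 3 * x ^ 2 := by
  have n0 : r₀ ≠ 0 := norm_pos_iff.1 (hρ.trans_le k0)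
  have n1 : r₀ + b + e₃ ≠ 0 := norm_pos_iff.1 (hρ.trans_le k1)
  have n2 : r₀ - b + e₄ ≠ 0 := norm_pos_iff.1 (hρ.trans_le k2)
  have hC0 : 0 < C := by linarith
  have hCx : C * x ≤ C := by nlinarith
  have hCx2 : C * x ^ 2 ≤ C := by nlinarith [mul_nonneg hC0.le hx, pow_nonneg hx 2]
  have key : (W₀ + a + e₁) / (r₀ + b + e₃) + (W₀ - a + e₂) / (r₀ - b + e₄) - 2 * (W₀ / r₀) =
      ((-2 * r₀ * a * b + 2 * W₀ * b * b) + (r₀ * (r₀ - b) + r₀ * e₄) * e₁ +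
        (r₀ * (r₀ + b) + r₀ * e₃) * e₂ +
        (r₀ * (W₀ - a) - 2 * W₀ * (r₀ - b) - 2 * W₀ * e₄) * e₃ +
        (r₀ * (W₀ + a) - 2 * W₀ * (r₀ + b)) * e₄) /
      (r₀ * (r₀ + b + e₃) * (r₀ - b + e₄)) := by
    field_simp
    ring
  rw [key, norm_div]
  have hden : ρ ^ 3 ≤ ‖r₀ * (r₀ + b + e₃) * (r₀ - b + e₄)‖ := by
    rw [norm_mul, norm_mul]
    calc ρ ^ 3 = ρ * ρ * ρ := by ring
      _ ≤ ‖r₀‖ * ‖r₀ + b + e₃‖ * ‖r₀ - b + e₄‖ :=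
        mul_le_mul (mul_le_mul k0 k1 hρ.le (norm_nonneg _)) k2 hρ.le (by positivity)
  have t1 : ‖-2 * r₀ * a * b + 2 * W₀ * b * b‖ ≤ 4 * C ^ 3 * x ^ 2 := by
    refine (norm_add_le _ _).trans ?_
    have f1 : ‖-2 * r₀ * a * b‖ ≤ 2 * C * (C * x) * (C * x) := by
      rw [norm_mul, norm_mul, norm_mul, norm_neg]
      have : ‖(2 : ℂ)‖ = 2 := by norm_num
      rw [this]
      have g1 : 2 * ‖r₀‖ ≤ 2 * C := by linarith
      exact mul_le_mul (mul_le_mul g1 ha (norm_nonneg _) (by positivity)) hb (norm_nonneg _)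
        (by positivity)
    have f2 : ‖2 * W₀ * b * b‖ ≤ 2 * C * (C * x) * (C * x) := by
      rw [norm_mul, norm_mul, norm_mul]
      have : ‖(2 : ℂ)‖ = 2 := by norm_num
      rw [this]
      have g1 : 2 * ‖W₀‖ ≤ 2 * C := by linarith
      exact mul_le_mul (mul_le_mul g1 hb (norm_nonneg _) (by positivity)) hb (norm_nonneg _)
        (by positivity)
    calc ‖-2 * r₀ * a * b‖ + ‖2 * W₀ * b * b‖ ≤
          2 * C * (C * x) * (C * x) + 2 * C * (C * x) * (C * x) := add_le_add f1 f2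
      _ = 4 * C ^ 3 * x ^ 2 := by ring
  have nb : ‖b‖ ≤ C := hb.trans hCx
  have na : ‖a‖ ≤ C := ha.trans hCx
  have n4 : ‖e₄‖ ≤ C := h4.trans hCx2
  have n3 : ‖e₃‖ ≤ C := h3.trans hCx2
  have s1 : ‖r₀ - b‖ ≤ 2 * C := (norm_sub_le _ _).trans (by linarith)
  have s2 : ‖r₀ + b‖ ≤ 2 * C := (norm_add_le _ _).trans (by linarith)
  have s3 : ‖W₀ - a‖ ≤ 2 * C := (norm_sub_le _ _).trans (by linarith)
  have s4 : ‖W₀ + a‖ ≤ 2 * C := (norm_add_le _ _).trans (by linarith)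
  have w2 : ‖2 * W₀‖ ≤ 2 * C := by
    rw [norm_mul]
    have : ‖(2 : ℂ)‖ = 2 := by norm_num
    rw [this]
    linarith
  have t2 : ‖(r₀ * (r₀ - b) + r₀ * e₄) * e₁‖ ≤ 3 * C ^ 3 * x ^ 2 := by
    rw [norm_mul]
    have f1 : ‖r₀ * (r₀ - b) + r₀ * e₄‖ ≤ C * (2 * C) + C * C := by
      refine (norm_add_le _ _).trans (add_le_add ?_ ?_)
      · rw [norm_mul]
        exact mul_le_mul hr s1 (norm_nonneg _) hC0.le
      · rw [norm_mul]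
        exact mul_le_mul hr n4 (norm_nonneg _) hC0.le
    calc ‖r₀ * (r₀ - b) + r₀ * e₄‖ * ‖e₁‖ ≤ (C * (2 * C) + C * C) * (C * x ^ 2) :=
          mul_le_mul f1 h1 (norm_nonneg _) (by positivity)
      _ = 3 * C ^ 3 * x ^ 2 := by ring
  have t3 : ‖(r₀ * (r₀ + b) + r₀ * e₃) * e₂‖ ≤ 3 * C ^ 3 * x ^ 2 := by
    rw [norm_mul]
    have f1 : ‖r₀ * (r₀ + b) + r₀ * e₃‖ ≤ C * (2 * C) + C * C := by
      refine (norm_add_le _ _).trans (add_le_add ?_ ?_)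
      · rw [norm_mul]
        exact mul_le_mul hr s2 (norm_nonneg _) hC0.le
      · rw [norm_mul]
        exact mul_le_mul hr n3 (norm_nonneg _) hC0.le
    calc ‖r₀ * (r₀ + b) + r₀ * e₃‖ * ‖e₂‖ ≤ (C * (2 * C) + C * C) * (C * x ^ 2) :=
          mul_le_mul f1 h2 (norm_nonneg _) (by positivity)
      _ = 3 * C ^ 3 * x ^ 2 := by ring
  have t4 : ‖(r₀ * (W₀ - a) - 2 * W₀ * (r₀ - b) - 2 * W₀ * e₄) * e₃‖ ≤ 8 * C ^ 3 * x ^ 2 := by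
    rw [norm_mul]
    have f1 : ‖r₀ * (W₀ - a) - 2 * W₀ * (r₀ - b) - 2 * W₀ * e₄‖ ≤
        C * (2 * C) + 2 * C * (2 * C) + 2 * C * C := by
      refine (norm_sub_le _ _).trans (add_le_add ((norm_sub_le _ _).trans (add_le_add ?_ ?_)) ?_)
      · rw [norm_mul]
        exact mul_le_mul hr s3 (norm_nonneg _) hC0.le
      · rw [norm_mul]
        exact mul_le_mul w2 s1 (norm_nonneg _) (by positivity)
      · rw [norm_mul]
        exact mul_le_mul w2 n4 (norm_nonneg _) (by positivity)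
    calc _ ≤ (C * (2 * C) + 2 * C * (2 * C) + 2 * C * C) * (C * x ^ 2) :=
          mul_le_mul f1 h3 (norm_nonneg _) (by positivity)
      _ = 8 * C ^ 3 * x ^ 2 := by ring
  have t5 : ‖(r₀ * (W₀ + a) - 2 * W₀ * (r₀ + b)) * e₄‖ ≤ 6 * C ^ 3 * x ^ 2 := by
    rw [norm_mul]
    have f1 : ‖r₀ * (W₀ + a) - 2 * W₀ * (r₀ + b)‖ ≤ C * (2 * C) + 2 * C * (2 * C) := by
      refine (norm_sub_le _ _).trans (add_le_add ?_ ?_)
      · rw [norm_mul]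
        exact mul_le_mul hr s4 (norm_nonneg _) hC0.le
      · rw [norm_mul]
        exact mul_le_mul w2 s2 (norm_nonneg _) (by positivity)
    calc _ ≤ (C * (2 * C) + 2 * C * (2 * C)) * (C * x ^ 2) :=
          mul_le_mul f1 h4 (norm_nonneg _) (by positivity)
      _ = 6 * C ^ 3 * x ^ 2 := by ring
  have hnum := (norm_add_le _ _).trans (add_le_add ((norm_add_le _ _).trans (add_le_add
    ((norm_add_le _ _).trans (add_le_add ((norm_add_le _ _).trans (add_le_add t1 t2)) t3)) t4)) t5)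
  have hpos : 0 ≤ C ^ 3 * x ^ 2 := by positivity
  rw [div_le_iff₀ ((pow_pos hρ 3).trans_le hden)]
  refine hnum.trans ?_
  have f3 : 24 * C ^ 3 / ρ ^ 3 * x ^ 2 * ρ ^ 3 = 24 * C ^ 3 * x ^ 2 := by
    field_simp
  calc 4 * C ^ 3 * x ^ 2 + 3 * C ^ 3 * x ^ 2 + 3 * C ^ 3 * x ^ 2 + 8 * C ^ 3 * x ^ 2 +
        6 * C ^ 3 * x ^ 2 = 24 * C ^ 3 * x ^ 2 := by ring
    _ = 24 * C ^ 3 / ρ ^ 3 * x ^ 2 * ρ ^ 3 := f3.symm
    _ ≤ _ := mul_le_mul_of_nonneg_left hden (by positivity)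

end

end Pool.Agent.Lib.MP_6ff8d9_an.H22.Ctne
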