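import Pool.Agent.Lib.MP_6ff8d9_an_h22.Ctne2
import Pool.Agent.Lib.MP_6ff8d9_an_h22.AlgRows

/-!
# Existence of a regular contact point (row CTNE)
-/

open Metric Filter Topology MvPolynomial
open scoped ComplexConjugate

namespace Pool.Agent.Lib.MP_6ff8d9_an.H22.Ctne

open Pool.Agent.Lib.MP_6ff8d9_an Pool.Agent.Lib.MP_6ff8d9_an.Hom
open Pool.Agent.Lib.MP_6ff8d9_an.H22

noncomputable section

variable {n : ℕ}

lemma eval_close {p : MvPolynomial (Fin n) ℂ} {C : ℝ} (hC : 1 ≤ C)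
    (h : ∀ m v : Fin n → ℂ, ‖m‖ ≤ 2 → ‖v‖ ≤ 1 →
      ‖eval m p‖ ≤ C ∧ ‖Dv p m v‖ ≤ C * ‖v‖ ∧ ‖eval (m + v) p - eval m p - Dv p m v‖ ≤ C * ‖v‖ ^ 2)
    {ζ z : Fin n → ℂ} (hζ : ‖ζ‖ ≤ 1) (hz : ‖z - ζ‖ ≤ 1) :
    ‖eval z p - eval ζ p‖ ≤ 2 * C * ‖z - ζ‖ := by
  obtain ⟨-, h2, h3⟩ := h ζ (z - ζ) (hζ.trans (by norm_num)) hz
  rw [add_sub_cancel] at h3
  have e : eval z p - eval ζ p = (eval z p - eval ζ p - Dv p ζ (z - ζ)) + Dv p ζ (z - ζ) := by ring
  rw [e]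
  refine (norm_add_le _ _).trans ((add_le_add h3 h2).trans ?_)
  have : ‖z - ζ‖ ^ 2 ≤ ‖z - ζ‖ := by nlinarith [norm_nonneg (z - ζ)]
  nlinarith

/-- the fixed point of the reflection near a point where the defect is small -/
theorem fixed {P Q : MvPolynomial (Fin n) ℂ} (hA : Adm0 P Q) (hD : Dual P Q) {C K : ℝ}
    (hC : Cst P Q C) (hK : 0 ≤ K)
    (hT : ∀ ζ ∈ Sph n, ∀ i,
      ‖eval ζ Q‖ * ‖eval ζ (Wr P Q i) - conj (ζ i) * eval ζ (Rr P Q)‖ ≤ K * √(dfc P Q ζ))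
    {ζ : Fin n → ℂ} (hζ : ζ ∈ Sph n)
    (hs : (8 * C ^ 8 + 64 * K * C ^ 6 + 12288 * K * C ^ 3 + 1) * √(dfc P Q ζ) < ‖eval ζ Q‖ ^ 9) :
    (Ct0 P Q).Nonempty := by
  have hC1 := hC.one
  have hC0 : 0 < C := by linarith
  set s := √(dfc P Q ζ) with hsd
  set q := ‖eval ζ Q‖ with hqd
  have hs0 : 0 ≤ s := Real.sqrt_nonneg _
  have hq0' : 0 ≤ q := norm_nonneg _
  have hL0 : 0 < 8 * C ^ 8 + 64 * K * C ^ 6 + 12288 * K * C ^ 3 + 1 := by positivity
  have hq9 : 0 < q ^ 9 := lt_of_le_of_lt (by positivity) hs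
  have hq0 : 0 < q := by
    rcases hq0'.eq_or_lt with h | h
    · rw [← h] at hq9
      norm_num at hq9
    · exact h
  have hζ1 : ‖ζ‖ ≤ 1 := norm_le_of_sph hζ
  have hζ2 : ‖ζ‖ ≤ 2 := hζ1.trans (by norm_num)
  have hqC : q ≤ C := (hC.hQ ζ 0 hζ2 (by simp)).1
  have hqne : eval ζ Q ≠ 0 := norm_pos_iff.1 hq0
  have hdef0 : 0 ≤ dfc P Q ζ := by
    have h1 := hA.le ζ (le_of_eq hζ)
    unfold dfc
    nlinarith [norm_nonneg (eval ζ P)]
  have hss : s ^ 2 = dfc P Q ζ := Real.sq_sqrt hdef0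
  -- the three consequences of `hs`
  have k1 : 8 * C ^ 8 * s ≤ q ^ 9 := by
    refine le_trans (mul_le_mul_of_nonneg_right ?_ hs0) hs.le
    have : 0 ≤ 64 * K * C ^ 6 + 12288 * K * C ^ 3 + 1 := by positivity
    linarith
  have k2 : 64 * K * C ^ 6 * s ≤ q ^ 9 := by
    refine le_trans (mul_le_mul_of_nonneg_right ?_ hs0) hs.le
    have : 0 ≤ 8 * C ^ 8 + 12288 * K * C ^ 3 + 1 := by positivity
    linarith
  have k3 : 12288 * K * C ^ 3 * s < q ^ 9 := by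
    refine lt_of_le_of_lt (mul_le_mul_of_nonneg_right ?_ hs0) hs
    have : 0 ≤ 8 * C ^ 8 + 64 * K * C ^ 6 + 1 := by positivity
    linarith
  -- `D ≤ q³/(64C)`
  have hDle : dfc P Q ζ ≤ q ^ 3 / (64 * C) := by
    rw [← hss, le_div_iff₀ (by positivity)]
    have h1 : (8 * C ^ 8 * s) ^ 2 ≤ (q ^ 9) ^ 2 := pow_le_pow_left₀ (by positivity) k1 2
    have h2 : (q ^ 9) ^ 2 ≤ q ^ 3 * C ^ 15 := by
      have : (q ^ 9) ^ 2 = q ^ 3 * q ^ 15 := by ring
      rw [this]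
      exact mul_le_mul_of_nonneg_left (pow_le_pow_left₀ hq0.le hqC 15) (by positivity)
    have h3 : (s ^ 2 * (64 * C)) * C ^ 15 ≤ q ^ 3 * C ^ 15 := by
      calc (s ^ 2 * (64 * C)) * C ^ 15 = (8 * C ^ 8 * s) ^ 2 := by ring
        _ ≤ _ := h1.trans h2
    exact le_of_mul_le_mul_right h3 (by positivity)
  have hrζ : q ^ 2 / 4 ≤ ‖eval ζ (Rr P Q)‖ := lower hA hC hζ hqne hDle
  -- radii
  set ρ₀ : ℝ := q ^ 2 / (16 * C ^ 2) with hρ₀
  set δ₀ : ℝ := 4 * K * s / q ^ 3 with hδ₀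
  have hδ0 : 0 ≤ δ₀ := by positivity
  have hδρ : δ₀ ≤ ρ₀ := by
    rw [hδ₀, hρ₀, div_le_div_iff₀ (by positivity) (by positivity)]
    have h1 : (64 * K * C ^ 2 * s) * C ^ 4 ≤ q ^ 5 * C ^ 4 := by
      calc (64 * K * C ^ 2 * s) * C ^ 4 = 64 * K * C ^ 6 * s := by ring
        _ ≤ q ^ 9 := k2
        _ = q ^ 5 * q ^ 4 := by ring
        _ ≤ q ^ 5 * C ^ 4 :=
          mul_le_mul_of_nonneg_left (pow_le_pow_left₀ hq0.le hqC 4) (by positivity)
    have h2 := le_of_mul_le_mul_right h1 (by positivity)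
    nlinarith
  have hδs : 3072 * C ^ 3 * δ₀ < q ^ 6 := by
    have h1 : δ₀ * q ^ 3 = 4 * K * s := by
      rw [hδ₀]
      field_simp
    have h2 : (3072 * C ^ 3 * δ₀) * q ^ 3 < q ^ 6 * q ^ 3 := by
      calc (3072 * C ^ 3 * δ₀) * q ^ 3 = 3072 * C ^ 3 * (δ₀ * q ^ 3) := by ring
        _ = 12288 * K * C ^ 3 * s := by rw [h1]; ring
        _ < q ^ 9 := k3
        _ = q ^ 6 * q ^ 3 := by ring
    exact lt_of_mul_lt_mul_right h2 (by positivity)
  have hρ1 : ρ₀ ≤ 1 / 16 := by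
    rw [hρ₀, div_le_div_iff₀ (by positivity) (by norm_num)]
    nlinarith
  -- the estimates on the ball
  have hB : ∀ z : Fin n → ℂ, ‖z - ζ‖ ≤ ρ₀ → q ^ 2 / 8 ≤ ‖eval z (Rr P Q)‖ ∧ eval z Q ≠ 0 := by
    intro z hz
    have hz1 : ‖z - ζ‖ ≤ 1 := by linarith
    have e1 := eval_close hC1 hC.hR hζ1 hz1
    have e2 := eval_close hC1 hC.hQ hζ1 hz1
    have f1 : 2 * C * ‖z - ζ‖ ≤ 2 * C * ρ₀ := mul_le_mul_of_nonneg_left hz (by positivity)
    have f2 : 2 * C * ρ₀ ≤ q ^ 2 / 8 := by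
      rw [hρ₀, show 2 * C * (q ^ 2 / (16 * C ^ 2)) = q ^ 2 / (8 * C) by field_simp; ring]
      exact div_le_div_of_nonneg_left (by positivity) (by norm_num) (by linarith)
    have f3 : 2 * C * ρ₀ ≤ q / 8 := by
      rw [hρ₀, show 2 * C * (q ^ 2 / (16 * C ^ 2)) = q ^ 2 / (8 * C) by field_simp; ring,
        div_le_div_iff₀ (by positivity) (by norm_num)]
      nlinarith
    constructor
    · have := norm_sub_norm_le (eval ζ (Rr P Q)) (eval z (Rr P Q))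
      rw [norm_sub_rev] at this
      linarith
    · intro h0
      rw [h0, zero_sub, norm_neg] at e2
      have : q ≤ q / 8 := e2.trans (f1.trans f3)
      linarith
  -- the reflection
  have hσc : ContinuousOn (rfl' P Q) (closedBall ζ δ₀) := by
    refine continuousOn_pi.2 fun j => ?_
    refine Complex.continuous_conj.comp_continuousOn ?_
    refine ContinuousOn.div (MvPolynomial.continuous_eval _).continuousOn
      (MvPolynomial.continuous_eval _).continuousOn fun z hz => ?_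
    rw [mem_closedBall, dist_eq_norm] at hz
    have := (hB z (hz.trans hδρ)).1
    exact norm_pos_iff.1 (lt_of_lt_of_le (by positivity) this)
  have hσζ : ‖rfl' P Q ζ - ζ‖ ≤ δ₀ := by
    rw [pi_norm_le_iff_of_nonneg hδ0]
    intro i
    have hr : eval ζ (Rr P Q) ≠ 0 := norm_pos_iff.1 (lt_of_lt_of_le (by positivity) hrζ)
    have h1 : (rfl' P Q ζ - ζ) i = conj ((eval ζ (Wr P Q i) - conj (ζ i) * eval ζ (Rr P Q)) /
        eval ζ (Rr P Q)) := by
      unfold rfl'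
      rw [Pi.sub_apply, sub_div, mul_div_cancel_right₀ _ hr, map_sub, Complex.conj_conj]
    rw [h1, RCLike.norm_conj, norm_div, div_le_iff₀ (norm_pos_iff.2 hr)]
    have h2 := hT ζ hζ i
    have h3 : δ₀ * ‖eval ζ (Rr P Q)‖ ≥ δ₀ * (q ^ 2 / 4) := mul_le_mul_of_nonneg_left hrζ hδ0
    have h4 : δ₀ * (q ^ 2 / 4) * q = K * s := by
      rw [hδ₀]
      field_simp
    have h5 : ‖eval ζ (Wr P Q i) - conj (ζ i) * eval ζ (Rr P Q)‖ * q ≤ δ₀ * (q ^ 2 / 4) * q := by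
      rw [h4, mul_comm]
      exact h2
    exact (le_of_mul_le_mul_right h5 hq0).trans h3
  -- minimise
  obtain ⟨z, hz, hmin⟩ := (isCompact_closedBall ζ δ₀).exists_isMinOn
    ⟨ζ, mem_closedBall_self hδ0⟩ (f := fun z => ‖rfl' P Q z - z‖ + ‖z - ζ‖)
    ((hσc.sub continuousOn_id).norm.add (continuousOn_id.sub continuousOn_const).norm)
  have hzζ := hmin (mem_closedBall_self hδ0)
  simp only [Set.mem_ofPred_eq, sub_self, norm_zero, add_zero] at hzζ
  have hz' : ‖z - ζ‖ ≤ δ₀ := by rwa [mem_closedBall, dist_eq_norm] at hz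
  set y := rfl' P Q z with hy
  set ε := ‖y - z‖ with hε
  have hε0 : 0 ≤ ε := norm_nonneg _
  have hsum : ε + ‖z - ζ‖ ≤ δ₀ := hzζ.trans hσζ
  have hrz := (hB z (hz'.trans hδρ)).1
  have hrz0 : eval z (Rr P Q) ≠ 0 := norm_pos_iff.1 (lt_of_lt_of_le (by positivity) hrz)
  have hyζ : ‖y - ζ‖ ≤ δ₀ := by
    have : y - ζ = (y - z) + (z - ζ) := by ring
    rw [this]
    exact (norm_add_le _ _).trans hsum
  have hry := (hB y (hyζ.trans hδρ)).1
  have hry0 : eval y (Rr P Q) ≠ 0 := norm_pos_iff.1 (lt_of_lt_of_le (by positivity) hry)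
  have hyz : ∀ j, conj (eval y (Wr P Q j) / eval y (Rr P Q)) = z j := by
    intro j
    rw [(hD.2 z hrz0).2 j, mul_div_cancel_right₀ _ hry0, Complex.conj_conj]
  have hfix : y = z := by
    by_contra hne
    have hεp : 0 < ε := norm_pos_iff.2 (sub_ne_zero.2 hne)
    set m : Fin n → ℂ := (1 / 2 : ℂ) • (z + y) with hm
    set v : Fin n → ℂ := (1 / 2 : ℂ) • (z - y) with hv
    have hmv : m + v = z := by
      funext j
      simp only [hm, hv, Pi.add_apply, Pi.smul_apply, Pi.sub_apply, smul_eq_mul]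
      ring
    have hmv' : m + -v = y := by
      funext j
      simp only [hm, hv, Pi.add_apply, Pi.smul_apply, Pi.sub_apply, Pi.neg_apply, smul_eq_mul]
      ring
    have hvn : ‖v‖ = ε / 2 := by
      rw [hv, norm_smul, hε, norm_sub_rev z y]
      norm_num
      ring
    have hmz : ‖m - ζ‖ ≤ ‖z - ζ‖ + ε / 2 := by
      have : m - ζ = (z - ζ) + -v := by rw [← hmv]; ring
      rw [this]
      refine (norm_add_le _ _).trans ?_
      rw [norm_neg, hvn]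
    have hmδ : ‖m - ζ‖ ≤ δ₀ := by linarith
    have hrm := (hB m (hmδ.trans hδρ)).1
    have hm2 : ‖m‖ ≤ 2 := by
      have : m = (m - ζ) + ζ := by ring
      rw [this]
      refine (norm_add_le _ _).trans ?_
      linarith
    have hv1 : ‖v‖ ≤ 1 := by
      rw [hvn]
      have : ε ≤ δ₀ := by linarith [norm_nonneg (z - ζ)]
      linarith
    have hv1' : ‖-v‖ ≤ 1 := by rwa [norm_neg]
    have hDneg : ∀ p : MvPolynomial (Fin n) ℂ, Dv p m (-v) = -Dv p m v := by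
      intro p
      simp [Dv]
    obtain ⟨r1, r2, r3⟩ := hC.hR m v hm2 hv1
    obtain ⟨-, -, r4⟩ := hC.hR m (-v) hm2 hv1'
    rw [hmv] at r3
    rw [hmv', hDneg, norm_neg] at r4
    have hest : ∀ j, ‖rfl' P Q m j - m j‖ ≤ 1536 * C ^ 3 / q ^ 6 * ε ^ 2 := by
      intro j
      obtain ⟨w1, w2, w3⟩ := hC.hW j m v hm2 hv1
      obtain ⟨-, -, w4⟩ := hC.hW j m (-v) hm2 hv1'
      rw [hmv] at w3
      rw [hmv', hDneg, norm_neg] at w4
      have hqe := quot_est (W₀ := eval m (Wr P Q j)) (r₀ := eval m (Rr P Q))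
        (a := Dv (Wr P Q j) m v) (b := Dv (Rr P Q) m v)
        (e₁ := eval z (Wr P Q j) - eval m (Wr P Q j) - Dv (Wr P Q j) m v)
        (e₂ := eval y (Wr P Q j) - eval m (Wr P Q j) - -Dv (Wr P Q j) m v)
        (e₃ := eval z (Rr P Q) - eval m (Rr P Q) - Dv (Rr P Q) m v)
        (e₄ := eval y (Rr P Q) - eval m (Rr P Q) - -Dv (Rr P Q) m v)
        (C := C) (x := ‖v‖) (ρ := q ^ 2 / 8) hC1 (norm_nonneg v) hv1 (by positivity) w1 r1 w2 r2
        w3 w4 r3 r4 hrm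
      have a1 : eval m (Rr P Q) + Dv (Rr P Q) m v +
          (eval z (Rr P Q) - eval m (Rr P Q) - Dv (Rr P Q) m v) = eval z (Rr P Q) := by ring
      have a2 : eval m (Rr P Q) - Dv (Rr P Q) m v +
          (eval y (Rr P Q) - eval m (Rr P Q) - -Dv (Rr P Q) m v) = eval y (Rr P Q) := by ring
      have a3 : eval m (Wr P Q j) + Dv (Wr P Q j) m v +
          (eval z (Wr P Q j) - eval m (Wr P Q j) - Dv (Wr P Q j) m v) = eval z (Wr P Q j) := by ring
      have a4 : eval m (Wr P Q j) - Dv (Wr P Q j) m v +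
          (eval y (Wr P Q j) - eval m (Wr P Q j) - -Dv (Wr P Q j) m v) = eval y (Wr P Q j) := by
        ring
      rw [a1, a2, a3, a4] at hqe
      have hqe' := hqe hrz hry
      have b1 : 2 * (rfl' P Q m j - m j) = -conj (eval z (Wr P Q j) / eval z (Rr P Q) +
          eval y (Wr P Q j) / eval y (Rr P Q) - 2 * (eval m (Wr P Q j) / eval m (Rr P Q))) := by
        have c1 : conj (eval z (Wr P Q j) / eval z (Rr P Q)) = y j := rfl
        rw [map_sub, map_add, c1, hyz j, map_mul, Complex.conj_ofNat]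
        simp only [rfl', hm, Pi.smul_apply, Pi.add_apply, smul_eq_mul]
        ring
      have b2 : 2 * ‖rfl' P Q m j - m j‖ ≤ 24 * C ^ 3 / (q ^ 2 / 8) ^ 3 * ‖v‖ ^ 2 := by
        have : 2 * ‖rfl' P Q m j - m j‖ = ‖2 * (rfl' P Q m j - m j)‖ := by
          rw [norm_mul]
          norm_num
        rw [this, b1, norm_neg, RCLike.norm_conj]
        exact hqe'
      have b3 : 24 * C ^ 3 / (q ^ 2 / 8) ^ 3 * ‖v‖ ^ 2 = 2 * (1536 * C ^ 3 / q ^ 6 * ε ^ 2) := by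
        rw [hvn]
        field_simp
        ring
      rw [b3] at b2
      linarith
    have hest' : ‖rfl' P Q m - m‖ ≤ 1536 * C ^ 3 / q ^ 6 * ε ^ 2 := by
      rw [pi_norm_le_iff_of_nonneg (by positivity)]
      exact hest
    have hmm : m ∈ closedBall ζ δ₀ := by rwa [mem_closedBall, dist_eq_norm]
    have hcmp := hmin hmm
    simp only [Set.mem_ofPred_eq] at hcmp
    have hεδ : ε ≤ δ₀ := by linarith [norm_nonneg (z - ζ)]
    have c1 : 1536 * C ^ 3 / q ^ 6 * ε ^ 2 < ε / 2 := by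
      have d1 : 3072 * C ^ 3 * ε < q ^ 6 :=
        lt_of_le_of_lt (mul_le_mul_of_nonneg_left hεδ (by positivity)) hδs
      have d2 : 1536 * C ^ 3 / q ^ 6 * ε ^ 2 = (3072 * C ^ 3 * ε) / q ^ 6 * (ε / 2) := by ring
      rw [d2]
      have d3 : (3072 * C ^ 3 * ε) / q ^ 6 < 1 := (div_lt_one (by positivity)).2 d1
      nlinarith
    have hcmp' : ε + ‖z - ζ‖ ≤ ‖rfl' P Q m - m‖ + ‖m - ζ‖ := hcmp
    linarith
  -- the fixed point is a regular contact point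
  have hWz : ∀ j, eval z (Wr P Q j) = conj (z j) * eval z (Rr P Q) := by
    intro j
    have h1 := (hD.2 z hrz0).2 j
    rw [← hy, hfix] at h1
    exact h1
  refine ⟨z, ?_, (hB z (hz'.trans hδρ)).2, ?_⟩
  · have h1 : eval z (Rr P Q) = (∑ j, z j * conj (z j)) * eval z (Rr P Q) := by
      conv_lhs => rw [Rr, map_sum]
      rw [Finset.sum_mul]
      refine Finset.sum_congr rfl fun j _ => ?_
      rw [map_mul, eval_X, hWz j]
      ring
    have h2 : (∑ j, z j * conj (z j)) = 1 := by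
      have := mul_right_cancel₀ hrz0 (show 1 * eval z (Rr P Q) =
        (∑ j, z j * conj (z j)) * eval z (Rr P Q) by rw [one_mul]; exact h1)
      exact this.symm
    have h3 : ((∑ j, ‖z j‖ ^ 2 : ℝ) : ℂ) = 1 := by
      rw [← h2]
      push_cast
      refine Finset.sum_congr rfl fun j _ => ?_
      rw [Complex.mul_conj, Complex.normSq_eq_norm_sq]
      push_cast
      rfl
    exact_mod_cast h3
  · have h1 := (hD.2 z hrz0).1
    rw [← hy, hfix, Complex.mul_conj, Complex.mul_conj, Complex.normSq_eq_norm_sq,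
      Complex.normSq_eq_norm_sq] at h1
    have h2 : ‖eval z P‖ ^ 2 = ‖eval z Q‖ ^ 2 := by exact_mod_cast h1
    exact (pow_left_inj₀ (norm_nonneg _) (norm_nonneg _) two_ne_zero).1 h2

end

end Pool.Agent.Lib.MP_6ff8d9_an.H22.Ctne

namespace Pool.Agent.Lib.MP_6ff8d9_an.H22

open Pool.Agent.Lib.MP_6ff8d9_an Pool.Agent.Lib.MP_6ff8d9_an.Hom

noncomputable section

/-- no dominated polynomial ⇒ there is a regular contact point -/
theorem ctne (n : ℕ) (P Q : MvPolynomial (Fin n) ℂ) (hA : Adm0 P Q) (hD : Dual P Q)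
    (hN : ∀ p : MvPolynomial (Fin n) ℂ,
      (∃ C : ℝ, 0 ≤ C ∧ ∀ ζ ∈ Sph n, ‖eval ζ p‖ ≤ C * √(dfc P Q ζ)) → p = 0) :
    (Ct0 P Q).Nonempty := by
  obtain ⟨K, hK, hT⟩ := tang n P Q hA
  obtain ⟨C, hC⟩ := Ctne.exists_cst P Q
  have hC0 : 0 < C := by linarith [hC.one]
  have hQ : Q ^ 9 ≠ 0 := by
    refine pow_ne_zero 9 ?_
    rintro rfl
    have := hA.lt 0 (by simp)
    rw [map_zero, norm_zero] at this
    exact absurd this (not_lt.2 (norm_nonneg _))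
  by_contra hne
  refine hQ (hN (Q ^ 9) ⟨8 * C ^ 8 + 64 * K * C ^ 6 + 12288 * K * C ^ 3 + 1, by positivity,
    fun ζ hζ => ?_⟩)
  rw [map_pow, norm_pow]
  by_contra h
  exact hne (Ctne.fixed hA hD hC hK hT hζ (not_le.1 h))

end

end Pool.Agent.Lib.MP_6ff8d9_an.H22
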