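import Pool.Agent.Lib.MP_6ff8d9_an_h22.Fin3

/-!
# The example `F = (z_1² + ... + z_{n+2}²)/(1 - z_0²)` in dimension `n + 3`
-/

open Metric Filter Topology MvPolynomial
open scoped ComplexConjugate

namespace Pool.Agent.Lib.MP_6ff8d9_an.H22.Exa

open Pool.Agent.Lib.MP_6ff8d9_an Pool.Agent.Lib.MP_6ff8d9_an.Hom
open Pool.Agent.Lib.MP_6ff8d9_an.H22

noncomputable section

/-- the numerator -/
def P (n : ℕ) : MvPolynomial (Fin (n + 3)) ℂ := ∑ j : Fin (n + 2), X j.succ ^ 2

/-- the denominator -/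
def Q (n : ℕ) : MvPolynomial (Fin (n + 3)) ℂ := 1 - X 0 ^ 2

variable {n : ℕ}

lemma eval_P (z : Fin (n + 3) → ℂ) : eval z (P n) = ∑ j : Fin (n + 2), z j.succ ^ 2 := by
  simp [P]

lemma eval_Q (z : Fin (n + 3) → ℂ) : eval z (Q n) = 1 - z 0 ^ 2 := by
  simp [Q]

lemma pd_P0 (z : Fin (n + 3) → ℂ) : eval z (pderiv 0 (P n)) = 0 := by
  unfold P
  rw [map_sum, map_sum]
  refine Finset.sum_eq_zero fun j _ => ?_
  rw [Derivation.leibniz_pow, pderiv_X_of_ne (Fin.succ_ne_zero j)]
  simp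

lemma pd_Ps (z : Fin (n + 3) → ℂ) (j : Fin (n + 2)) :
    eval z (pderiv j.succ (P n)) = 2 * z j.succ := by
  unfold P
  rw [map_sum, map_sum, Finset.sum_eq_single j]
  · rw [Derivation.leibniz_pow, pderiv_X_self]
    simp
  · intro i _ hi
    rw [Derivation.leibniz_pow, pderiv_X_of_ne (fun h => hi (Fin.succ_injective _ h))]
    simp
  · intro h
    exact absurd (Finset.mem_univ j) h

lemma pd_Q0 (z : Fin (n + 3) → ℂ) : eval z (pderiv 0 (Q n)) = -(2 * z 0) := by
  unfold Q
  rw [map_sub, pderiv_one, Derivation.leibniz_pow, pderiv_X_self]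
  simp

lemma pd_Qs (z : Fin (n + 3) → ℂ) (j : Fin (n + 2)) : eval z (pderiv j.succ (Q n)) = 0 := by
  unfold Q
  rw [map_sub, pderiv_one, Derivation.leibniz_pow, pderiv_X_of_ne (Fin.succ_ne_zero j).symm]
  simp

lemma W0 (z : Fin (n + 3) → ℂ) : eval z (Wr (P n) (Q n) 0) = 2 * z 0 * eval z (P n) := by
  unfold Wr
  rw [map_sub, map_mul, map_mul, pd_P0, pd_Q0]
  ring

lemma Ws (z : Fin (n + 3) → ℂ) (j : Fin (n + 2)) :
    eval z (Wr (P n) (Q n) j.succ) = 2 * z j.succ * eval z (Q n) := by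
  unfold Wr
  rw [map_sub, map_mul, map_mul, pd_Ps, pd_Qs]
  ring

lemma Rz (z : Fin (n + 3) → ℂ) : eval z (Rr (P n) (Q n)) = 2 * eval z (P n) := by
  unfold Rr
  rw [map_sum, Fin.sum_univ_succ]
  simp only [map_mul, eval_X, W0, Ws]
  have h1 : ∑ j : Fin (n + 2), z j.succ * (2 * z j.succ * eval z (Q n)) =
      2 * eval z (Q n) * eval z (P n) := by
    rw [eval_P, Finset.mul_sum]
    exact Finset.sum_congr rfl fun j _ => by ring
  rw [h1, eval_Q]
  ring

theorem dual : Dual (P n) (Q n) := by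
  refine ⟨?_, fun z hz => ?_⟩
  · intro h
    have h1 := congrArg (eval (Pi.single (1 : Fin (n + 3)) (1 : ℂ))) h
    rw [Rz, map_zero, eval_P, Fin.sum_univ_succ] at h1
    have h2 : ∑ j : Fin (n + 1), (Pi.single (1 : Fin (n + 3)) (1 : ℂ) : Fin (n + 3) → ℂ)
        j.succ.succ ^ 2 = 0 := by
      refine Finset.sum_eq_zero fun j _ => ?_
      rw [Pi.single_eq_of_ne (by
        intro h3
        have := congrArg Fin.val h3
        simp at this)]
      simp
    rw [h2] at h1
    have h3 : (Pi.single (1 : Fin (n + 3)) (1 : ℂ) : Fin (n + 3) → ℂ) (Fin.succ 0) = 1 :=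
      Pi.single_eq_same _ _
    rw [h3] at h1
    norm_num at h1
  · rw [Rz] at hz
    have hs : eval z (P n) ≠ 0 := fun h => hz (by rw [h, mul_zero])
    set s := eval z (P n) with hsdef
    set q := eval z (Q n) with hqdef
    set w := rfl' (P n) (Q n) z with hw
    have w0 : w 0 = conj (z 0) := by
      rw [hw]
      unfold rfl'
      rw [W0, Rz, ← hsdef]
      congr 1
      field_simp
    have ws : ∀ j : Fin (n + 2), w j.succ = conj (z j.succ * q / s) := by
      intro j
      rw [hw]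
      unfold rfl'
      rw [Ws, Rz, ← hsdef, ← hqdef]
      congr 1
      field_simp
    have hPw : eval w (P n) = conj (q ^ 2 / s) := by
      rw [eval_P]
      have h1 : ∀ j : Fin (n + 2), w j.succ ^ 2 = conj ((q / s) ^ 2 * z j.succ ^ 2) := by
        intro j
        rw [ws, ← map_pow]
        congr 1
        ring
      rw [Finset.sum_congr rfl fun j _ => h1 j, ← map_sum, ← Finset.mul_sum, ← eval_P, ← hsdef]
      congr 1
      field_simp
    have hQw : eval w (Q n) = conj q := by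
      rw [eval_Q, w0, hqdef, eval_Q, map_sub, map_one, map_pow]
    constructor
    · rw [hPw, hQw, Complex.conj_conj, Complex.conj_conj]
      field_simp
    · intro j
      refine Fin.cases ?_ (fun j => ?_) j
      · rw [W0, Rz, w0]
        ring
      · rw [Ws, Rz, ws, hPw, hQw]
        simp only [map_mul, map_div₀, map_pow]
        ring

/-- the basic inequality -/
lemma norm_P_le (z : Fin (n + 3) → ℂ) :
    ‖eval z (P n)‖ ≤ ∑ i, ‖z i‖ ^ 2 - ‖z 0‖ ^ 2 := by
  rw [eval_P, Fin.sum_univ_succ (n := n + 2), add_sub_cancel_left]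
  refine (norm_sum_le _ _).trans (le_of_eq ?_)
  exact Finset.sum_congr rfl fun j _ => norm_pow _ _

lemma le_norm_Q (z : Fin (n + 3) → ℂ) : 1 - ‖z 0‖ ^ 2 ≤ ‖eval z (Q n)‖ := by
  rw [eval_Q]
  have h := norm_sub_norm_le (1 : ℂ) (z 0 ^ 2)
  rwa [norm_one, norm_pow] at h

lemma diff_at (p : MvPolynomial (Fin (n + 3)) ℂ) :
    Differentiable ℂ fun z : Cn (n + 3) => eval (fun i => z i) p := by
  have h1 : Differentiable ℂ fun z : Cn (n + 3) => (fun i => z i : Fin (n + 3) → ℂ) :=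
    ((PiLp.continuousLinearEquiv 2 ℂ (fun _ : Fin (n + 3) => ℂ))).differentiable
  exact (diff_eval p).comp h1

theorem mem_NB : gPQ (P n) (Q n) ∈ NB (n + 3) := by
  have hlt : ∀ z ∈ ball (0 : Cn (n + 3)) 1,
      ‖eval (fun i => z i) (P n)‖ < ‖eval (fun i => z i) (Q n)‖ := by
    intro z hz
    have h1 := (mem_ball_iff_Bn z).1 hz
    have h2 := norm_P_le (fun i => z i)
    have h3 := le_norm_Q (fun i => z i)
    have h4 : ∑ i, ‖z i‖ ^ 2 < 1 := h1
    simp only at h2 h3
    linarith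
  have hne : ∀ z ∈ ball (0 : Cn (n + 3)) 1,
      eval (fun i => z i) (Q n) - eval (fun i => z i) (P n) ≠ 0 := by
    intro z hz h
    have h1 := hlt z hz
    rw [sub_eq_zero.1 h] at h1
    exact lt_irrefl _ h1
  refine ⟨?_, ?_, ?_⟩
  · have h1 : gPQ (P n) (Q n) = fun z : Cn (n + 3) =>
        (eval (fun i => z i) (Q n) + eval (fun i => z i) (P n)) *
          (eval (fun i => z i) (Q n) - eval (fun i => z i) (P n))⁻¹ := by
      funext z
      exact div_eq_mul_inv _ _
    rw [h1]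
    exact ((diff_at _).differentiableOn.fun_add (diff_at _).differentiableOn).fun_mul
      (((diff_at _).differentiableOn.fun_sub (diff_at _).differentiableOn).fun_inv hne)
  · intro z hz
    have h1 := hlt z hz
    have h2 := hne z hz
    unfold gPQ
    set p := eval (fun i => z i) (P n)
    set q := eval (fun i => z i) (Q n)
    rw [Complex.div_re, ← add_div]
    refine div_pos ?_ (Complex.normSq_pos.2 h2)
    have h3 : ‖p‖ ^ 2 < ‖q‖ ^ 2 := pow_lt_pow_left₀ h1 (norm_nonneg _) two_ne_zero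
    rw [← Complex.normSq_eq_norm_sq, ← Complex.normSq_eq_norm_sq, Complex.normSq_apply,
      Complex.normSq_apply] at h3
    simp only [Complex.add_re, Complex.sub_re, Complex.add_im, Complex.sub_im]
    nlinarith
  · unfold gPQ
    have h1 : (fun i => (0 : Cn (n + 3)) i) = (0 : Fin (n + 3) → ℂ) := rfl
    rw [h1, eval_P, eval_Q]
    simp

/-- the parametrisation of the level sets on the sphere -/
def par (n : ℕ) (ω : ℂ) (p : ℝ × EuclideanSpace ℝ (Fin (n + 2))) : Cn (n + 3) :=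
  WithLp.toLp 2 (Fin.cons (p.1 : ℂ) fun j : Fin (n + 2) => ω * ((√(1 - p.1 ^ 2) * p.2 j : ℝ) : ℂ))

lemma par_zero (ω : ℂ) (p : ℝ × EuclideanSpace ℝ (Fin (n + 2))) : par n ω p 0 = p.1 := rfl

lemma par_succ (ω : ℂ) (p : ℝ × EuclideanSpace ℝ (Fin (n + 2))) (j : Fin (n + 2)) :
    par n ω p j.succ = ω * ((√(1 - p.1 ^ 2) * p.2 j : ℝ) : ℂ) := rfl

lemma par_cont (ω : ℂ) : Continuous (par n ω) := by
  unfold par
  refine (PiLp.continuous_toLp 2 _).comp ?_
  refine continuous_pi fun i => ?_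
  refine Fin.cases ?_ (fun j => ?_) i
  · simp only [Fin.cons_zero]
    fun_prop
  · simp only [Fin.cons_succ]
    have h1 : Continuous fun p : ℝ × EuclideanSpace ℝ (Fin (n + 2)) => p.2 j := by fun_prop
    have h2 : Continuous fun p : ℝ × EuclideanSpace ℝ (Fin (n + 2)) => √(1 - p.1 ^ 2) := by
      fun_prop
    exact continuous_const.mul (Complex.continuous_ofReal.comp (h2.mul h1))

lemma level_eq {c ω : ℂ} (hω : ω ^ 2 = c) (hωn : ‖ω‖ = 1) :
    {z : Cn (n + 3) | ‖z‖ = 1 ∧ eval (fun i => z i) (Q n) ≠ 0 ∧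
      eval (fun i => z i) (P n) = c * eval (fun i => z i) (Q n)} =
    par n ω '' (Set.Ioo (-1) 1 ×ˢ sphere (0 : EuclideanSpace ℝ (Fin (n + 2))) 1) := by
  have hωω : conj ω * ω = 1 := by
    rw [mul_comm, Complex.mul_conj, Complex.normSq_eq_norm_sq, hωn]
    simp
  have hcn : ‖c‖ = 1 := by rw [← hω, norm_pow, hωn, one_pow]
  ext z
  constructor
  · rintro ⟨h1, h2, h3⟩
    have hsum : ∑ i, ‖z i‖ ^ 2 = 1 := by rw [← EuclideanSpace.norm_sq_eq, h1, one_pow]
    have hP := norm_P_le (fun i => z i)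
    have hQ := le_norm_Q (fun i => z i)
    simp only at hP hQ
    rw [hsum] at hP
    have hPQ : ‖eval (fun i => z i) (P n)‖ = ‖eval (fun i => z i) (Q n)‖ := by
      rw [h3, norm_mul, hcn, one_mul]
    have e1 : ‖eval (fun i => z i) (Q n)‖ = 1 - ‖z 0‖ ^ 2 := le_antisymm (by linarith) hQ
    -- `z 0` is real
    have e2 : (z 0).im = 0 := by
      have h4 : ‖(1 : ℂ) - z 0 ^ 2‖ ^ 2 = (1 - ‖z 0‖ ^ 2) ^ 2 := by
        rw [← e1, eval_Q]
      rw [← Complex.normSq_eq_norm_sq, ← Complex.normSq_eq_norm_sq, Complex.normSq_apply,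
        Complex.normSq_apply] at h4
      have h5 : ((1 : ℂ) - z 0 ^ 2).re = 1 - ((z 0).re ^ 2 - (z 0).im ^ 2) := by
        rw [Complex.sub_re, Complex.one_re, pow_two, Complex.mul_re]
        ring
      have h6 : ((1 : ℂ) - z 0 ^ 2).im = -(2 * (z 0).re * (z 0).im) := by
        rw [Complex.sub_im, Complex.one_im, pow_two, Complex.mul_im]
        ring
      rw [h5, h6] at h4
      nlinarith
    set t := (z 0).re with ht
    have e3 : z 0 = (t : ℂ) := Complex.ext (by simp [ht]) (by simp [e2])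
    have e4 : eval (fun i => z i) (Q n) = ((1 - t ^ 2 : ℝ) : ℂ) := by
      rw [eval_Q, e3]
      push_cast
      rfl
    have e5 : ‖z 0‖ ^ 2 = t ^ 2 := by
      rw [e3, Complex.norm_real, Real.norm_eq_abs, sq_abs]
    have e6 : 0 < 1 - t ^ 2 := by
      rcases (show 0 ≤ 1 - t ^ 2 by
        rw [e5] at e1
        rw [← e1]
        exact norm_nonneg _).eq_or_lt with h | h
      · exfalso
        apply h2
        rw [e4, ← h, Complex.ofReal_zero]
      · exact h
    -- the other coordinates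
    set v : Fin (n + 2) → ℂ := fun j => conj ω * z j.succ with hv
    have e7 : ∑ j, v j ^ 2 = ((1 - t ^ 2 : ℝ) : ℂ) := by
      have h4 : ∑ j, v j ^ 2 = conj ω ^ 2 * eval (fun i => z i) (P n) := by
        rw [eval_P, Finset.mul_sum]
        exact Finset.sum_congr rfl fun j _ => by rw [hv]; ring
      rw [h4, h3, e4, ← hω]
      calc conj ω ^ 2 * (ω ^ 2 * ((1 - t ^ 2 : ℝ) : ℂ)) =
            (conj ω * ω) ^ 2 * ((1 - t ^ 2 : ℝ) : ℂ) := by ring
        _ = _ := by rw [hωω, one_pow, one_mul]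
    have e8 : ∑ j, ‖v j‖ ^ 2 = 1 - t ^ 2 := by
      have h4 : ∀ j, ‖v j‖ ^ 2 = ‖z j.succ‖ ^ 2 := by
        intro j
        rw [hv]
        simp only
        rw [norm_mul, RCLike.norm_conj, hωn, one_mul]
      rw [Finset.sum_congr rfl fun j _ => h4 j]
      rw [Fin.sum_univ_succ, e5] at hsum
      linarith
    have e9 : ∀ j, (v j).im = 0 := by
      have h4 : ∑ j, (2 * (v j).im ^ 2) = 0 := by
        have h5 := congrArg Complex.re e7
        rw [Complex.re_sum, Complex.ofReal_re, ← e8, ← sub_eq_zero, ← Finset.sum_sub_distrib] at h5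
        rw [← neg_eq_zero, ← h5, ← Finset.sum_neg_distrib]
        refine Finset.sum_congr rfl fun j _ => ?_
        rw [← Complex.normSq_eq_norm_sq, Complex.normSq_apply, pow_two (v j), Complex.mul_re]
        ring
      intro j
      have h5 := (Finset.sum_eq_zero_iff_of_nonneg fun j _ => by positivity).1 h4 j
        (Finset.mem_univ j)
      have h6 : (v j).im ^ 2 = 0 := by linarith
      exact pow_eq_zero_iff two_ne_zero |>.1 h6
    have e10 : ∀ j, z j.succ = ω * ((v j).re : ℂ) := by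
      intro j
      have h4 : v j = ((v j).re : ℂ) := Complex.ext (by simp) (by simp [e9 j])
      rw [← h4, hv]
      simp only
      rw [← mul_assoc, mul_comm ω, hωω, one_mul]
    have hsq : 0 < √(1 - t ^ 2) := Real.sqrt_pos.2 e6
    refine ⟨(t, WithLp.toLp 2 fun j => (v j).re / √(1 - t ^ 2)), ⟨?_, ?_⟩, ?_⟩
    · exact ⟨by nlinarith, by nlinarith⟩
    · rw [mem_sphere_zero_iff_norm]
      have h4 : ‖(WithLp.toLp 2 fun j => (v j).re / √(1 - t ^ 2) :
          EuclideanSpace ℝ (Fin (n + 2)))‖ ^ 2 = 1 := by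
        rw [EuclideanSpace.norm_sq_eq]
        have h5 : ∀ j : Fin (n + 2), ‖(v j).re / √(1 - t ^ 2)‖ ^ 2 = ‖v j‖ ^ 2 / (1 - t ^ 2) := by
          intro j
          rw [norm_div, div_pow, Real.norm_of_nonneg hsq.le, Real.sq_sqrt e6.le,
            Real.norm_eq_abs, sq_abs, ← Complex.normSq_eq_norm_sq, Complex.normSq_apply, e9 j]
          ring
        rw [Finset.sum_congr rfl fun j _ => h5 j, ← Finset.sum_div, e8, div_self e6.ne']
      have h5 := norm_nonneg (WithLp.toLp 2 fun j => (v j).re / √(1 - t ^ 2) :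
          EuclideanSpace ℝ (Fin (n + 2)))
      nlinarith
    · ext i
      refine Fin.cases ?_ (fun j => ?_) i
      · rw [par_zero, e3]
      · rw [par_succ, e10]
        congr 2
        show √(1 - t ^ 2) * ((v j).re / √(1 - t ^ 2)) = (v j).re
        field_simp
  · rintro ⟨⟨t, x⟩, ⟨ht, hx⟩, rfl⟩
    simp only [Set.mem_Ioo] at ht
    rw [mem_sphere_zero_iff_norm] at hx
    have e6 : 0 < 1 - t ^ 2 := by nlinarith [ht.1, ht.2]
    have hx2 : ∑ j, x j ^ 2 = 1 := by
      have h4 := EuclideanSpace.norm_sq_eq x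
      rw [hx, one_pow] at h4
      rw [h4]
      exact Finset.sum_congr rfl fun j _ => by rw [Real.norm_eq_abs, sq_abs]
    have eQ : eval (fun i => par n ω (t, x) i) (Q n) = ((1 - t ^ 2 : ℝ) : ℂ) := by
      rw [eval_Q, par_zero]
      push_cast
      rfl
    refine ⟨?_, ?_, ?_⟩
    · have h4 : ‖par n ω (t, x)‖ ^ 2 = 1 := by
        rw [EuclideanSpace.norm_sq_eq, Fin.sum_univ_succ]
        have h5 : ∀ j : Fin (n + 2), ‖par n ω (t, x) j.succ‖ ^ 2 = (1 - t ^ 2) * x j ^ 2 := by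
          intro j
          rw [par_succ, norm_mul, hωn, one_mul, Complex.norm_real, Real.norm_eq_abs, sq_abs,
            mul_pow, Real.sq_sqrt e6.le]
        rw [Finset.sum_congr rfl fun j _ => h5 j, ← Finset.mul_sum, hx2, par_zero,
          Complex.norm_real, Real.norm_eq_abs, sq_abs]
        ring
      nlinarith [norm_nonneg (par n ω (t, x))]
    · rw [eQ]
      exact_mod_cast e6.ne'
    · rw [eQ, eval_P]
      have h5 : ∀ j : Fin (n + 2), par n ω (t, x) j.succ ^ 2 =
          c * ((1 - t ^ 2 : ℝ) : ℂ) * ((x j ^ 2 : ℝ) : ℂ) := by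
        intro j
        rw [par_succ, mul_pow, hω, ← Complex.ofReal_pow, mul_pow, Real.sq_sqrt e6.le,
          Complex.ofReal_mul]
        ring
      rw [Finset.sum_congr rfl fun j _ => h5 j, ← Finset.mul_sum, ← Complex.ofReal_sum, hx2,
        Complex.ofReal_one, mul_one]

theorem exa (n : ℕ) : IsExtremePoint (n + 3) (gPQ (P n) (Q n)) := by
  refine final3_row (n + 3) (P n) (Q n) (by omega) mem_NB dual fun c hc => ?_
  obtain ⟨ω, hω⟩ : ∃ ω : ℂ, ω ^ 2 = c := IsAlgClosed.exists_pow_nat_eq c two_pos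
  have hωn : ‖ω‖ = 1 := by
    have h1 : ‖ω‖ ^ 2 = 1 := by rw [← norm_pow, hω, hc]
    nlinarith [norm_nonneg ω]
  rw [level_eq hω hωn]
  refine IsConnected.image ?_ _ (par_cont ω).continuousOn
  refine IsConnected.prod ⟨⟨0, by norm_num⟩, isPreconnected_Ioo⟩ ?_
  refine isConnected_sphere ?_ 0 zero_le_one
  have h1 : Module.finrank ℝ (EuclideanSpace ℝ (Fin (n + 2))) = n + 2 := finrank_euclideanSpace_fin
  rw [← Module.finrank_eq_rank, h1]
  exact_mod_cast (by omega : 1 < n + 2)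

end

end Pool.Agent.Lib.MP_6ff8d9_an.H22.Exa
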