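import Pool.Agent.Lib.MP_6ff8d9_an_h22.RowsZ2
import Pool.Agent.Lib.MP_6ff8d9_an_h22.Fin1
import Pool.Agent.Lib.MP_6ff8d9_an_h82.Glue0
import Pool.Agent.Lib.MP_6ff8d9_an_h82.Fin2
import Pool.Agent.Lib.MP_6ff8d9_an_h23.Composite

open Metric Filter Topology MvPolynomial
open scoped ComplexConjugate

namespace Pool.Agent.Lib.MP_6ff8d9_an.H22

/-- sufficiency with zeros of `Q` on the sphere allowed -/
theorem final3_row : FINAL3 :=
  Z.final3 H20R.adm (Z.local0_of Z.contact0) (Z.sec0_row Z.contact0) (Z.loc0_row Z.contact0)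
    Z.radial0 Rat.H82.uniq Rat.H82.glue0 Z.poinc0 ends

/-- sufficiency when `Q` has no zero on the closed ball -/
theorem final2_row : FINAL2 := Rat.H82.final2

end Pool.Agent.Lib.MP_6ff8d9_an.H22
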