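import Pool.Agent.Lib.MP_6ff8d9_an_h22.Irred

/-!
# Extreme points of the unit ball of `H^∞(𝔹)` and rational extreme points of `N(𝔹)`
-/

open Metric Filter Topology MvPolynomial Set
open scoped ComplexConjugate

namespace Pool.Agent.Lib.MP_6ff8d9_an.H22

open Pool.Agent.Lib.MP_6ff8d9_an Pool.Agent.Lib.MP_6ff8d9_an.Hom
open Pool.Agent.Lib.MP_6ff8d9_an.P69 Pool.Agent.Lib.MP_6ff8d9_an.H11

noncomputable section

variable {n : ℕ}

/-- `F` belongs to the closed unit ball of `H^∞(𝔹)` -/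
def InH (n : ℕ) (F : Cn n → ℂ) : Prop :=
  DifferentiableOn ℂ F (ball 0 1) ∧ ∀ z ∈ ball (0 : Cn n) 1, ‖F z‖ ≤ 1

/-- `F` is an extreme point of the closed unit ball of `H^∞(𝔹)` -/
def ExtH (n : ℕ) (F : Cn n → ℂ) : Prop :=
  InH n F ∧ ∀ F₁, InH n F₁ → ∀ F₂, InH n F₂ → ∀ t : ℝ, 0 < t → t < 1 →
    (∀ z ∈ ball (0 : Cn n) 1, F z = t * F₁ z + (1 - t) * F₂ z) →
    ∀ z ∈ ball (0 : Cn n) 1, F₁ z = F₂ z

/-- no holomorphic function is dominated by `1 - |F|²` -/
def Star (n : ℕ) (F : Cn n → ℂ) : Prop := ∀ h : Cn n → ℂ, DifferentiableOn ℂ h (ball 0 1) →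
  (∀ z ∈ ball (0 : Cn n) 1, ‖h z‖ ≤ 1 - ‖F z‖ ^ 2) → ∀ z ∈ ball (0 : Cn n) 1, h z = 0

/-- extreme points of `N(𝔹)` satisfy `Star` -/
theorem star_of_extreme (hn : 1 ≤ n) {F : Cn n → ℂ} (hF : Hol n F)
    (hex : IsExtremePoint n (gf F)) : Star n F := by
  intro h hh hb
  set i₀ : Fin n := ⟨0, hn⟩ with hi₀
  have hne : ∀ z ∈ ball (0 : Cn n) 1, 1 - F z ≠ 0 := by
    intro z hz h0
    have h1 := hF.lt z hz
    rw [← sub_eq_zero.1 h0, norm_one] at h1
    exact lt_irrefl _ h1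
  have hproj : Differentiable ℂ (fun z : Cn n => z i₀) :=
    (EuclideanSpace.proj i₀ : Cn n →L[ℂ] ℂ).differentiable
  have hk : DifferentiableOn ℂ (fun z : Cn n => (z i₀ * h z) * ((1 - F z) ^ 2)⁻¹) (ball 0 1) :=
    (hproj.differentiableOn.mul hh).mul
      (((hF.an.const_sub 1).pow 2).fun_inv fun z hz => pow_ne_zero 2 (hne z hz))
  have hk0 : (fun z : Cn n => (z i₀ * h z) * ((1 - F z) ^ 2)⁻¹) 0 = 0 := by simp
  have hdom : ∀ z ∈ ball (0 : Cn n) 1,
      |((z i₀ * h z) * ((1 - F z) ^ 2)⁻¹).re| ≤ 1 * (gf F z).re := by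
    intro z hz
    have h1 : (gf F z).re = (1 - ‖F z‖ ^ 2) / ‖1 - F z‖ ^ 2 := by
      unfold gf
      exact cayley_re (F z)
    rw [one_mul, h1]
    refine (Complex.abs_re_le_norm _).trans ?_
    rw [norm_mul, norm_mul, norm_inv, norm_pow, ← div_eq_mul_inv]
    refine div_le_div_of_nonneg_right ?_ (by positivity)
    have h2 : ‖z i₀‖ ≤ 1 := by
      rw [mem_ball_zero_iff] at hz
      exact (PiLp.norm_apply_le z i₀).trans hz.le
    calc ‖z i₀‖ * ‖h z‖ ≤ 1 * ‖h z‖ := mul_le_mul_of_nonneg_right h2 (norm_nonneg _)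
      _ ≤ _ := by rw [one_mul]; exact hb z hz
  have hz0 := P69.ext0 hex hk hk0 hdom
  have hprod : ∀ z ∈ ball (0 : Cn n) 1, z i₀ = 0 ∨ h z = 0 := by
    intro z hz
    have h1 := hz0 z hz
    rcases mul_eq_zero.1 h1 with h2 | h2
    · exact mul_eq_zero.1 h2
    · exact absurd h2 (inv_ne_zero (pow_ne_zero 2 (hne z hz)))
  intro z hz
  by_contra hzn
  have hc : ContinuousAt h z := (hh.differentiableAt (isOpen_ball.mem_nhds hz)).continuousAt
  have hev : ∀ᶠ z' in 𝓝 z, z' ∈ ball (0 : Cn n) 1 ∧ h z' ≠ 0 :=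
    (isOpen_ball.eventually_mem hz).and (hc.eventually_ne hzn)
  have hl : Tendsto (fun t : ℂ => z + t • (EuclideanSpace.single i₀ (1 : ℂ) : Cn n)) (𝓝 0)
      (𝓝 z) := by
    have h1 : Continuous fun t : ℂ => z + t • (EuclideanSpace.single i₀ (1 : ℂ) : Cn n) := by
      fun_prop
    have h2 := h1.tendsto 0
    simpa using h2
  have hev2 := hl.eventually hev
  obtain ⟨ε, hε, hball⟩ := Metric.eventually_nhds_iff.1 hev2
  have h1 := hball (y := ((ε / 2 : ℝ) : ℂ)) (by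
    rw [dist_zero_right, Complex.norm_real, Real.norm_of_nonneg (by positivity)]
    linarith)
  have h2 : z i₀ = 0 := (hprod z hz).resolve_right hzn
  have h3 := (hprod _ h1.1).resolve_right h1.2
  have h4 : (z + ((ε / 2 : ℝ) : ℂ) • (EuclideanSpace.single i₀ (1 : ℂ) : Cn n)) i₀ =
      ((ε / 2 : ℝ) : ℂ) := by
    rw [PiLp.add_apply, PiLp.smul_apply, PiLp.single_apply, if_pos rfl, smul_eq_mul, mul_one, h2,
      zero_add]
  rw [h4] at h3
  have h5 : (ε / 2 : ℝ) = 0 := Complex.ofReal_eq_zero.1 h3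
  linarith

/-- `Star` gives an extreme point of the unit ball of `H^∞` -/
theorem extH_of_star {F : Cn n → ℂ} (hF : InH n F) (hS : Star n F) : ExtH n F := by
  refine ⟨hF, fun F₁ h₁ F₂ h₂ t ht0 ht1 heq => ?_⟩
  set s : ℝ := min t (1 - t) with hs
  have hs0 : 0 < s := lt_min ht0 (by linarith)
  have hst : s ≤ t := min_le_left _ _
  have hst' : s ≤ 1 - t := min_le_right _ _
  have hz := hS (fun z => ((s : ℂ) * (F₁ z - F₂ z)) ^ 2)
    (((h₁.1.sub h₂.1).const_mul (s : ℂ)).pow 2) (fun z hz => by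
      have a1 := h₁.2 z hz
      have a2 := h₂.2 z hz
      have e := heq z hz
      have b1 : ‖F z + (s : ℂ) * (F₁ z - F₂ z)‖ ≤ 1 := by
        have : F z + (s : ℂ) * (F₁ z - F₂ z) =
            ((t + s : ℝ) : ℂ) * F₁ z + ((1 - t - s : ℝ) : ℂ) * F₂ z := by
          rw [e]
          push_cast
          ring
        rw [this]
        refine (norm_add_le _ _).trans ?_
        rw [norm_mul, norm_mul, Complex.norm_real, Complex.norm_real,
          Real.norm_of_nonneg (by linarith), Real.norm_of_nonneg (by linarith)]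
        nlinarith [norm_nonneg (F₁ z), norm_nonneg (F₂ z)]
      have b2 : ‖F z - (s : ℂ) * (F₁ z - F₂ z)‖ ≤ 1 := by
        have : F z - (s : ℂ) * (F₁ z - F₂ z) =
            ((t - s : ℝ) : ℂ) * F₁ z + ((1 - t + s : ℝ) : ℂ) * F₂ z := by
          rw [e]
          push_cast
          ring
        rw [this]
        refine (norm_add_le _ _).trans ?_
        rw [norm_mul, norm_mul, Complex.norm_real, Complex.norm_real,
          Real.norm_of_nonneg (by linarith), Real.norm_of_nonneg (by linarith)]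
        nlinarith [norm_nonneg (F₁ z), norm_nonneg (F₂ z)]
      have c := parallelogram_law_with_norm ℂ (F z) ((s : ℂ) * (F₁ z - F₂ z))
      rw [norm_pow]
      nlinarith [norm_nonneg (F z + (s : ℂ) * (F₁ z - F₂ z)),
        norm_nonneg (F z - (s : ℂ) * (F₁ z - F₂ z))])
  intro z hzb
  have h1 := pow_eq_zero_iff (two_ne_zero) |>.1 (hz z hzb)
  rcases mul_eq_zero.1 h1 with h2 | h2
  · exfalso
    have h3 : s = 0 := by exact_mod_cast h2
    exact hs0.ne' h3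
  · exact sub_eq_zero.1 h2

/-- extreme points of the unit ball of `H^∞` satisfy `Star` -/
theorem star_of_extH {F : Cn n → ℂ} (hE : ExtH n F) : Star n F := by
  intro h hh hb z hz
  have hhalf : DifferentiableOn ℂ (fun z => (1 / 2 : ℂ) * h z) (ball 0 1) := hh.const_mul _
  have hn : ∀ z ∈ ball (0 : Cn n) 1, ‖(1 / 2 : ℂ) * h z‖ ≤ 1 - ‖F z‖ := by
    intro z hz
    rw [norm_mul]
    have h1 := hb z hz
    have h2 := hE.1.2 z hz
    have h3 : ‖(1 / 2 : ℂ)‖ = 1 / 2 := by norm_num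
    rw [h3]
    nlinarith [norm_nonneg (F z)]
  have h1 : InH n (fun z => F z + (1 / 2 : ℂ) * h z) :=
    ⟨hE.1.1.add hhalf, fun z hz => (norm_add_le _ _).trans (by linarith [hn z hz])⟩
  have h2 : InH n (fun z => F z - (1 / 2 : ℂ) * h z) :=
    ⟨hE.1.1.sub hhalf, fun z hz => (norm_sub_le _ _).trans (by linarith [hn z hz])⟩
  have h3 := hE.2 _ h1 _ h2 (1 / 2) (by norm_num) (by norm_num) (fun z _ => by
    push_cast
    ring) z hz
  have h4 : F z + (1 / 2 : ℂ) * h z = F z - (1 / 2 : ℂ) * h z := h3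
  linear_combination h4

/-- `Star` gives NODOM -/
theorem nodom_of_star (hn : 1 ≤ n) {P Q : MvPolynomial (Fin n) ℂ} (hA : Adm0 P Q)
    (hS : Star n (fF P Q)) (p : MvPolynomial (Fin n) ℂ)
    (hp : ∃ C : ℝ, 0 ≤ C ∧ ∀ ζ ∈ Sph n, ‖eval ζ p‖ ≤ C * √(dfc P Q ζ)) : p = 0 := by
  obtain ⟨C, hC0, hC⟩ := hp
  set i₀ : Fin n := ⟨0, hn⟩ with hi₀
  have hlt : ∀ z ∈ ball (0 : Cn n) 1, ‖eval (fun i => z i) P‖ < ‖eval (fun i => z i) Q‖ := by
    intro z hz
    exact hA.lt _ ((M5.mem_ball_iff z).1 hz)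
  obtain ⟨B, hB0, hB⟩ := M2.expansion Q
  obtain ⟨M, hM1, hM⟩ : ∃ M : ℝ, 1 ≤ M ∧ ∀ z ∈ Sph n, ‖eval z Q‖ ^ 2 ≤ M := by
    refine ⟨1 + B ^ 2, by nlinarith, fun z hz => ?_⟩
    have h1 := (hB z hz i₀).1
    nlinarith [norm_nonneg (eval z Q)]
  have hpos : 0 < C ^ 2 + 1 := by positivity
  have hM0 : 0 < M := by linarith
  have h1 : ∀ z ∈ Sph n, ‖eval z (MvPolynomial.C (((C ^ 2 + 1 : ℝ) : ℂ)⁻¹) * p ^ 2)‖ ≤
      ‖eval z Q‖ ^ 2 - ‖eval z P‖ ^ 2 := by
    intro z hz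
    rw [map_mul, eval_C, map_pow, norm_mul, norm_inv, norm_pow, Complex.norm_real,
      Real.norm_of_nonneg hpos.le]
    have h2 := hC z hz
    have h3 : 0 ≤ dfc P Q z := by
      have := hA.le z (le_of_eq hz)
      unfold dfc
      nlinarith [norm_nonneg (eval z P), norm_nonneg (eval z Q)]
    have h4 : ‖eval z p‖ ^ 2 ≤ C ^ 2 * dfc P Q z := by
      calc ‖eval z p‖ ^ 2 ≤ (C * √(dfc P Q z)) ^ 2 :=
            pow_le_pow_left₀ (norm_nonneg _) h2 2
        _ = C ^ 2 * dfc P Q z := by rw [mul_pow, Real.sq_sqrt h3]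
    rw [inv_mul_le_iff₀ hpos]
    have h5 : dfc P Q z = ‖eval z Q‖ ^ 2 - ‖eval z P‖ ^ 2 := rfl
    rw [← h5]
    nlinarith
  have h2 := Rat69.dom_ball_rat hn P Q _ hlt h1 hM
  set p' := MvPolynomial.C (((C ^ 2 + 1 : ℝ) : ℂ)⁻¹) * p ^ 2 with hp'
  have h3 := hS (fun z : Cn n => ((1 / (2 * M) : ℝ) : ℂ) * eval (fun i => z i) p')
    ((M5.differentiable_eval p').const_mul _).differentiableOn (fun z hz => by
      rw [norm_mul, Complex.norm_real, Real.norm_of_nonneg (by positivity)]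
      have h4 := h2 z hz
      have h5 : fF P Q z = eval (fun i => z i) P / eval (fun i => z i) Q := rfl
      rw [h5, one_div, inv_mul_le_iff₀ (by positivity)]
      exact h4)
  have h4 : p' = 0 := by
    refine M5.eq_zero_of_ball p' fun z hz => ?_
    have h5 := h3 (WithLp.toLp 2 z : Cn n) ((M5.mem_ball_iff _).2 hz)
    rcases mul_eq_zero.1 h5 with h6 | h6
    · exfalso
      have h7 : (1 / (2 * M) : ℝ) = 0 := by exact_mod_cast h6
      exact (by positivity : (1 / (2 * M) : ℝ) ≠ 0) h7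
    · exact h6
  rcases mul_eq_zero.1 h4 with h5 | h5
  · exfalso
    rw [C_eq_zero, inv_eq_zero] at h5
    have : (C ^ 2 + 1 : ℝ) = 0 := by exact_mod_cast h5
    exact hpos.ne' this
  · exact pow_eq_zero_iff (two_ne_zero) |>.1 h5

/-- `Star` gives the duality and a regular contact point -/
theorem dual_of_star (hn : 1 ≤ n) {P Q : MvPolynomial (Fin n) ℂ} (hA : Adm0 P Q)
    (hS : Star n (fF P Q)) : Dual P Q ∧ (Ct0 P Q).Nonempty := by
  have hN := fun p => nodom_of_star hn hA hS p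
  have hR : Rr P Q ≠ 0 := by
    intro hR
    have hz0 : ‖eval (0 : Fin n → ℂ) P‖ < ‖eval (0 : Fin n → ℂ) Q‖ := hA.lt 0 (by simp)
    have hQ0 : eval (0 : Fin n → ℂ) Q ≠ 0 := by
      intro h1
      rw [h1, norm_zero] at hz0
      exact absurd hz0 (not_lt.2 (norm_nonneg _))
    have hP : P = 0 := by
      refine H20R.eq_zero_of_Rr P Q ?_ ?_ hR
      · rw [← constantCoeff_eq, ← eval_zero]; exact hA.zero
      · rw [← constantCoeff_eq, ← eval_zero]; exact hQ0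
    have hQz : Q = 0 := by
      refine hN Q ⟨1, zero_le_one, fun ζ _ => ?_⟩
      rw [dfc, hP, map_zero, norm_zero, one_mul, zero_pow two_ne_zero, sub_zero,
        Real.sqrt_sq (norm_nonneg _)]
    rw [hQz, map_zero] at hQ0
    exact hQ0 rfl
  have hD := dual_of_noDom n P Q hA hR hN
  exact ⟨hD, ctne n P Q hA hD hN⟩

/-- **rational extreme points of `N(𝔹)` and extreme points of the unit ball of `H^∞`** -/
theorem iff_hinf (hn : 1 ≤ n) (P Q : MvPolynomial (Fin n) ℂ) :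
    IsExtremePoint n (gPQ P Q) ↔
      gPQ P Q ∈ NB n ∧ ExtH n (fF P Q) ∧ IrrF n (fF P Q) := by
  constructor
  · intro hex
    have hA : Adm0 P Q := (H20R.adm n P Q hn hex.1).1
    obtain ⟨hF, hF0, hq, hgeq⟩ := hol_fF hA
    have hex' := extreme_congr hgeq hex
    exact ⟨hex.1, extH_of_star ⟨hF.an, fun z hz => (hF.lt z hz).le⟩ (star_of_extreme hn hF hex'),
      irrF_of_extreme hF hF0 hex'⟩
  · rintro ⟨hNB, hE, hI⟩
    have hA : Adm0 P Q := (H20R.adm n P Q hn hNB).1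
    obtain ⟨hD, hC⟩ := dual_of_star hn hA (star_of_extH hE)
    exact (iff_irr hn P Q).2 ⟨hNB, hD, hC, hI⟩

end

end Pool.Agent.Lib.MP_6ff8d9_an.H22
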