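import Pool.Agent.Lib.MP_6ff8d9_an_h22.Fin3

/-!
# Duality, a regular contact point and primality imply extreme
-/

open Metric Filter Topology MvPolynomial
open scoped ComplexConjugate

namespace Pool.Agent.Lib.MP_6ff8d9_an.H22

open Pool.Agent.Lib.MP_6ff8d9_an Pool.Agent.Lib.MP_6ff8d9_an.Hom

noncomputable section

variable {n : ℕ} {P Q : MvPolynomial (Fin n) ℂ}

/-- `F = P/Q` is prime: every holomorphic `k` on the ball with `dk ∧ dF = 0` is a holomorphic
function of `F` -/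
def Prm (P Q : MvPolynomial (Fin n) ℂ) : Prop :=
  ∀ k : (Fin n → ℂ) → ℂ, DifferentiableOn ℂ k (Bn n) → Wedge P Q k →
    ∃ K : ℂ → ℂ, DifferentiableOn ℂ K (ball 0 1) ∧ ∀ z ∈ Bn n, k z = K (fr P Q z)

/-- functions of `F` satisfy the equation -/
lemma wedge_comp (hA : Adm0 P Q) {K : ℂ → ℂ} (hK : ∀ z ∈ Bn n, DifferentiableAt ℂ K (fr P Q z)) :
    DifferentiableOn ℂ (fun z => K (fr P Q z)) (Bn n) ∧ Wedge P Q (fun z => K (fr P Q z)) := by
  have hf : ∀ z ∈ Bn n, HasFDerivAt (fr P Q) (fderiv ℂ (fr P Q) z) z := fun z hz =>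
    (diffAt_fr (Z.Qne_Bn hA hz)).hasFDerivAt
  have hc : ∀ z ∈ Bn n, HasFDerivAt (fun z => K (fr P Q z))
      (deriv K (fr P Q z) • fderiv ℂ (fr P Q) z) z := fun z hz =>
    (hK z hz).hasDerivAt.comp_hasFDerivAt z (hf z hz)
  refine ⟨fun z hz => (hc z hz).differentiableAt.differentiableWithinAt, fun z hz i j => ?_⟩
  have hQ := Z.Qne_Bn hA hz
  rw [(hc z hz).fderiv, smul_apply, smul_apply, (H99.fderiv_fr hQ _).2, (H99.fderiv_fr hQ _).2]
  have h1 : ∀ i : Fin n, ∑ l, eval z (Wr P Q l) * (Pi.single i (1 : ℂ) : Fin n → ℂ) l =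
      eval z (Wr P Q i) := by
    intro i
    rw [Finset.sum_eq_single i]
    · rw [Pi.single_eq_same, mul_one]
    · intro l _ hl
      rw [Pi.single_eq_of_ne hl, mul_zero]
    · intro h
      exact absurd (Finset.mem_univ i) h
  rw [h1, h1, smul_eq_mul, smul_eq_mul]
  ring

/-- an open set of values near a regular contact point -/
lemma sec_open (hA : Adm0 P Q) (hD : Dual P Q) {m : Fin n → ℂ} (hm : m ∈ Ct0 P Q) :
    ∃ V : Set ℂ, IsOpen V ∧ V.Nonempty ∧ V ⊆ ball 0 1 ∧ ∀ w ∈ V, ∃ z ∈ Bn n, fr P Q z = w := by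
  obtain ⟨ε, hε, h1, -⟩ := Z.sec0_row Z.contact0 n P Q hA hD m hm 1 one_pos
  refine ⟨ball (fr P Q m) ε ∩ ball 0 1, isOpen_ball.inter isOpen_ball, ?_,
    Set.inter_subset_right, fun w hw => ?_⟩
  · have h2 := Z.radial0 n P Q hA m hm
    have h3 := (h2.1.eventually (ball_mem_nhds _ hε)).and h2.2
    obtain ⟨t, ht1, ht2, -⟩ := h3.exists
    exact ⟨_, ht1, mem_ball_zero_iff.2 ht2⟩
  · obtain ⟨z, hz, -, hzw⟩ := h1 w hw
    exact ⟨z, hz, hzw⟩

/-- one variable identity theorem on the disc -/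
lemma ident_disc {K : ℂ → ℂ} (hK : DifferentiableOn ℂ K (ball 0 1)) {V : Set ℂ} (hV : IsOpen V)
    (hne : V.Nonempty) (hVb : V ⊆ ball 0 1) (h0 : ∀ w ∈ V, K w = 0) :
    ∀ w ∈ ball (0 : ℂ) 1, K w = 0 := by
  obtain ⟨w₀, hw₀⟩ := hne
  have h1 := (hK.analyticOnNhd isOpen_ball).eqOn_zero_of_preconnected_of_eventuallyEq_zero
    (convex_ball (0 : ℂ) 1).isPreconnected (hVb hw₀) (by
      filter_upwards [hV.mem_nhds hw₀] with w hw
      exact h0 w hw)
  exact h1

/-- primality gives surjectivity onto the disc -/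
lemma surj_of_prime (hA : Adm0 P Q) (hD : Dual P Q) {m : Fin n → ℂ} (hm : m ∈ Ct0 P Q)
    (hp : Prm P Q) : ∀ w ∈ ball (0 : ℂ) 1, ∃ z ∈ Bn n, fr P Q z = w := by
  intro p hpb
  by_contra hcon
  push Not at hcon
  obtain ⟨h1, h2⟩ := wedge_comp hA (K := fun w => (w - p)⁻¹) (fun z hz =>
    (differentiableAt_id.sub_const p).fun_inv (sub_ne_zero.2 (hcon z hz)))
  obtain ⟨K, hK, hKe⟩ := hp _ h1 h2
  obtain ⟨V, hV, hVne, hVb, hVs⟩ := sec_open hA hD hm
  have h3 := ident_disc (K := fun w => K w * (w - p) - 1)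
    ((hK.fun_mul (differentiableOn_id.fun_sub (differentiableOn_const _))).fun_sub
      (differentiableOn_const _)) hV hVne hVb (by
      intro w hw
      obtain ⟨z, hz, hzw⟩ := hVs w hw
      have h4 := hKe z hz
      simp only [hzw] at h4
      rw [← h4, inv_mul_cancel₀, sub_self]
      rw [← hzw]
      exact sub_ne_zero.2 (hcon z hz)) p hpb
  simp at h3

/-- duality, a regular contact point and primality imply extreme -/
theorem suff_prime (hNB : gPQ P Q ∈ NB n) (hn : 1 ≤ n) (hD : Dual P Q) (hm : (Ct0 P Q).Nonempty)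
    (hp : Prm P Q) : IsExtremePoint n (gPQ P Q) := by
  have hA : Adm0 P Q := (H20R.adm n P Q hn hNB).1
  obtain ⟨m₀, hm₀⟩ := hm
  -- a contact point with `f ≠ 1`
  obtain ⟨m, hm, hmne⟩ : ∃ m ∈ Ct0 P Q, fr P Q m ≠ 1 := by
    by_cases h : fr P Q m₀ = 1
    · obtain ⟨ε, hε, -, hsec⟩ := Z.sec0_row Z.contact0 n P Q hA hD m₀ hm₀ 1 one_pos
      rw [h] at hsec
      have h1 : Tendsto (fun s : ℝ => Complex.exp (s * Complex.I)) (𝓝[≠] 0) (𝓝 1) := by
        have : Continuous fun s : ℝ => Complex.exp (s * Complex.I) := by fun_prop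
        have h := this.tendsto 0
        simp only [Complex.ofReal_zero, zero_mul, Complex.exp_zero] at h
        exact h.mono_left nhdsWithin_le_nhds
      have h2 : ∀ᶠ s : ℝ in 𝓝[≠] 0, dist (Complex.exp (s * Complex.I)) 1 < ε :=
        h1.eventually (ball_mem_nhds _ hε)
      have h3 : ∀ᶠ s : ℝ in 𝓝[≠] 0, Complex.exp (s * Complex.I) ≠ 1 := by
        have h4 : HasDerivAt (fun s : ℝ => Complex.exp (s * Complex.I)) Complex.I 0 := by
          have h5 : HasDerivAt (fun s : ℝ => (s : ℂ) * Complex.I) (1 * Complex.I) (0 : ℝ) :=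
            (Complex.ofRealCLM.hasDerivAt (x := (0 : ℝ))).mul_const Complex.I
          have h6 := h5.cexp
          simpa using h6
        have h7 := h4.tendsto_nhdsNE Complex.I_ne_zero
        simp only [Complex.ofReal_zero, zero_mul, Complex.exp_zero] at h7
        exact h7.eventually self_mem_nhdsWithin
      obtain ⟨s, hs1, hs2⟩ := (h2.and h3).exists
      obtain ⟨m, hm, -, hfm⟩ := hsec _ (Complex.norm_exp_ofReal_mul_I s) hs1
      exact ⟨m, hm, by rw [hfm]; exact hs2⟩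
    · exact ⟨m₀, hm₀, h⟩
  have hmne' : eval m P ≠ eval m Q := by
    intro h
    apply hmne
    unfold fr
    rw [h, div_self hm.2.1]
  refine ext n P Q hNB fun k hk hk0 hre => ?_
  have hw : Wedge P Q k := Z.local0_of Z.contact0 n P Q hA hD m hm hmne' k hk hre
  obtain ⟨K, hK, hKe⟩ := hp k hk hw
  have hsurj := surj_of_prime hA hD hm hp
  have hbd : ∀ w : ℂ, 1 / 2 < ‖w‖ → ‖w‖ < 1 →
      |(K w).re| ≤ 1 * (1 - ‖w‖ ^ 2) / ‖1 - w‖ ^ 2 := by
    intro w _ hw1
    obtain ⟨z, hz, hzw⟩ := hsurj w (mem_ball_zero_iff.2 hw1)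
    have h3 := hre z hz
    rw [Z.g_eq hA hz, hKe z hz, hzw, cayley_re w] at h3
    rw [one_mul]
    exact h3
  obtain ⟨κ, hκ⟩ := ends (1 / 2) 1 K (by norm_num) (by norm_num)
    (hK.mono fun w hw => mem_ball_zero_iff.2 hw.2) hbd (by
      intro j ρ hρ hρ1
      refine Complex.circleIntegral_eq_zero_of_differentiable_on_off_countable
        (s := ∅) (by linarith) Set.countable_empty ?_ ?_
      · refine ((hK.fun_mul (differentiable_id.pow j).differentiableOn).continuousOn).mono ?_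
        intro w hw
        rw [mem_closedBall_zero_iff] at hw
        exact mem_ball_zero_iff.2 (by linarith)
      · rintro w ⟨hw, -⟩
        rw [mem_ball_zero_iff] at hw
        exact ((hK.fun_mul (differentiable_id.pow j).differentiableOn).differentiableAt
          (isOpen_ball.mem_nhds (mem_ball_zero_iff.2 (by linarith)))))
  have hne : ∀ w ∈ ball (0 : ℂ) 1, 1 - w ≠ 0 := by
    intro w hw h
    rw [mem_ball_zero_iff, ← sub_eq_zero.1 h, norm_one] at hw
    exact lt_irrefl _ hw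
  have hid := ident_disc (K := fun w => K w - (κ + 2 * (κ.re : ℂ) * w / (1 - w)))
    (V := {w : ℂ | 1 / 2 < ‖w‖ ∧ ‖w‖ < 1}) (by
      refine hK.fun_sub ((differentiableOn_const _).fun_add ?_)
      have e2 : DifferentiableOn ℂ (fun w : ℂ => 2 * (κ.re : ℂ) * w * (1 - w)⁻¹) (ball 0 1) :=
        ((differentiableOn_id.const_mul _)).fun_mul
          (((differentiableOn_const _).fun_sub differentiableOn_id).fun_inv hne)
      exact e2.congr fun z _ => div_eq_mul_inv _ _)
    ((isOpen_lt continuous_const continuous_norm).inter (isOpen_lt continuous_norm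
      continuous_const)) ⟨((3 / 4 : ℝ) : ℂ), by
        simp only [Set.mem_ofPred_eq, Complex.norm_real]
        norm_num⟩
    (fun w hw => mem_ball_zero_iff.2 hw.2)
    (fun w hw => by rw [hκ w hw.1 hw.2, sub_self])
  have hf00 : fr P Q 0 = 0 := by
    unfold fr
    rw [hA.zero, zero_div]
  have hK0 : K 0 = 0 := by
    have := hKe 0 (zero_mem_Bn n)
    rw [hk0, hf00] at this
    exact this.symm
  have h3 := hid 0 (mem_ball_self one_pos)
  simp only [hK0, mul_zero, zero_div, add_zero, zero_sub, neg_eq_zero] at h3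
  intro z hz
  have h4 := hid (fr P Q z) (mem_ball_zero_iff.2 (Z.norm_fr_lt hA hz))
  simp only [h3, Complex.zero_re, Complex.ofReal_zero, mul_zero, zero_mul, zero_div, add_zero,
    sub_zero] at h4
  rw [hKe z hz]
  exact h4

end

end Pool.Agent.Lib.MP_6ff8d9_an.H22
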