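import Pool.Agent.Lib.MP_6ff8d9_an_h22.Ctne3
import Pool.Agent.Lib.MP_6ff8d9_an_h22.Prime
import Pool.Agent.Lib.MP_6ff8d9_an_h11.Main
import Pool.Agent.Lib.MP_6ff8d9_an_h69.Thmg

/-!
# The characterisation of the rational extreme points
-/

open Metric Filter Topology MvPolynomial
open scoped ComplexConjugate

namespace Pool.Agent.Lib.MP_6ff8d9_an.H22

open Pool.Agent.Lib.MP_6ff8d9_an Pool.Agent.Lib.MP_6ff8d9_an.Hom
open Pool.Agent.Lib.MP_6ff8d9_an.P69 Pool.Agent.Lib.MP_6ff8d9_an.H11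

noncomputable section

variable {n : ℕ} {P Q : MvPolynomial (Fin n) ℂ}

/-- primality on `Cn n` gives primality on `Fin n → ℂ` -/
theorem prm_of_primeF (hA : Adm0 P Q) (hG : PrimeF n (fF P Q)) : Prm P Q := by
  obtain ⟨-, -, hq, -⟩ := hol_fF hA
  have hmem : ∀ z : Cn n, z ∈ ball (0 : Cn n) 1 → toFun n z ∈ Bn n := by
    intro z hz
    show ∑ i, ‖toFun n z i‖ ^ 2 < 1
    simp only [toFun_apply]
    rw [sum_sq z]
    have hz' : ‖z‖ < 1 := by simpa using hz
    nlinarith [norm_nonneg z]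
  have hBo : IsOpen (Bn n) := by
    have : Continuous fun z : Fin n → ℂ => ∑ i, ‖z i‖ ^ 2 := by fun_prop
    exact isOpen_lt this continuous_const
  intro k hk hW
  have hkd : ∀ z ∈ ball (0 : Cn n) 1, HasFDerivAt (fun z : Cn n => k (toFun n z))
      ((fderiv ℂ k (toFun n z)).comp (toFun n)) z := by
    intro z hz
    have h1 : DifferentiableAt ℂ k (toFun n z) := hk.differentiableAt (hBo.mem_nhds (hmem z hz))
    exact h1.hasFDerivAt.comp z (toFun n).hasFDerivAt
  have hD : Dep (fF P Q) (fun z : Cn n => k (toFun n z)) := by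
    intro z hz v v'
    rw [(hkd z hz).fderiv, fderiv_fF P Q z v (hq z hz), fderiv_fF P Q z v' (hq z hz),
      ContinuousLinearMap.comp_apply, ContinuousLinearMap.comp_apply,
      Poinc.apply_eq_sum, Poinc.apply_eq_sum, Finset.sum_mul_sum, Finset.sum_mul_sum,
      Finset.sum_comm]
    refine Finset.sum_congr rfl fun i _ => Finset.sum_congr rfl fun j _ => ?_
    have h1 := hW (toFun n z) (hmem z hz) i j
    rw [toFun_apply, toFun_apply]
    have h2 : eval (toFun n z) Q ≠ 0 := hq z hz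
    field_simp
    linear_combination (v j * v' i) * h1
  obtain ⟨K, hK, hKe⟩ := hG _ (fun z hz => (hkd z hz).differentiableAt.differentiableWithinAt) hD
  refine ⟨K, hK, fun z hz => ?_⟩
  have hz' : (WithLp.toLp 2 z : Cn n) ∈ ball (0 : Cn n) 1 := by
    rw [mem_ball_zero_iff]
    have h1 := sum_sq (WithLp.toLp 2 z : Cn n)
    have h2 : ∑ i, ‖z i‖ ^ 2 < 1 := hz
    have h3 : ‖(WithLp.toLp 2 z : Cn n)‖ ^ 2 < 1 := by rw [← h1]; exact h2
    nlinarith [norm_nonneg (WithLp.toLp 2 z : Cn n)]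
  exact hKe _ hz'

/-- **the rational extreme points** -/
theorem iff_prime_of (hG : THMG) (hn : 1 ≤ n) (P Q : MvPolynomial (Fin n) ℂ) :
    IsExtremePoint n (gPQ P Q) ↔
      gPQ P Q ∈ NB n ∧ Dual P Q ∧ (Ct0 P Q).Nonempty ∧ PrimeF n (fF P Q) := by
  constructor
  · intro hex
    have hA : Adm0 P Q := (H20R.adm n P Q hn hex.1).1
    obtain ⟨hF, hF0, hq, hgeq⟩ := hol_fF hA
    have hD : Dual P Q := final1_row n P Q hn hex
    exact ⟨hex.1, hD, ctne n P Q hA hD (nodom n P Q hn hA hex),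
      hG n (fF P Q) hn hF hF0 (extreme_congr hgeq hex)⟩
  · rintro ⟨hNB, hD, ⟨m, hm⟩, hP⟩
    have hA : Adm0 P Q := (H20R.adm n P Q hn hNB).1
    exact suff_prime hNB hn hD ⟨m, hm⟩ (prm_of_primeF hA hP)

/-- the case of a denominator without zeros on the closed ball -/
theorem iff_conn (hn : 1 ≤ n) (P Q : MvPolynomial (Fin n) ℂ)
    (hQ : ∀ z : Cn n, ‖z‖ ≤ 1 → eval (fun i => z i) Q ≠ 0) :
    IsExtremePoint n (gPQ P Q) ↔ gPQ P Q ∈ NB n ∧ Dual P Q ∧
      IsConnected {z : Cn n | ‖z‖ = 1 ∧ eval (fun i => z i) P = eval (fun i => z i) Q} := by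
  constructor
  · intro hex
    exact ⟨hex.1, final1_row n P Q hn hex, H11.final3 n P Q hn hex hQ⟩
  · rintro ⟨hNB, hD, hC⟩
    exact final2_row n P Q hn hNB hQ hD hC

end

end Pool.Agent.Lib.MP_6ff8d9_an.H22
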