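import Pool.Agent.Lib.MP_6ff8d9_an_h22.Iff
import Pool.Agent.Lib.MP_6ff8d9_an_h42.Fact
import Pool.Agent.Lib.MP_6ff8d9_an_h20r.Surj
import Pool.Agent.Lib.MP_6ff8d9_an_h69.Irr
import Pool.Agent.Lib.MP_6ff8d9_an_h69.Locf
import Pool.Agent.Lib.MP_6ff8d9_an_h1.Kof
import Pool.Agent.Lib.MP_6ff8d9_an_h82.Green
import Pool.Agent.Lib.MP_6ff8d9_an_h11.Perre

/-!
# Theorem G without hypotheses, and irreducibility
-/

open Metric Filter Topology MvPolynomial Set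
open scoped ComplexConjugate

namespace Pool.Agent.Lib.MP_6ff8d9_an.P69

open Pool.Agent.Lib.MP_6ff8d9_an Pool.Agent.Lib.MP_6ff8d9_an.H11

noncomputable section

variable {n : ℕ}

theorem perre' : PERRE := perre H11.pmod H50.decr sect

theorem fact' : FACT := H42F.fact (H82L.green perre' sect)

/-- **theorem G** -/
theorem thmg : THMG := thmg_of locf fact' irr (surj irr) kof

/-- all the Moebius transforms of `F` are irreducible -/
def IrrF (n : ℕ) (F : Cn n → ℂ) : Prop := ∀ (w0 : ℂ) (w H : Cn n → ℂ), ‖w0‖ < 1 →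
  DifferentiableOn ℂ w (ball 0 1) → DifferentiableOn ℂ H (ball 0 1) →
  (∀ z ∈ ball (0 : Cn n) 1, ‖w z‖ ≤ 1 ∧ ‖H z‖ ≤ 1 ∧
    (F z - w0) / (1 - conj w0 * F z) = w z * H z) →
  (∀ z ∈ ball (0 : Cn n) 1, w z = w 0) ∨ (∀ z ∈ ball (0 : Cn n) 1, H z = H 0)

lemma mob_fac {w0 : ℂ} (h : ‖w0‖ < 1) :
    ‖(1 - conj w0) / (1 - w0)‖ = 1 ∧ (1 - conj w0) / (1 - w0) ≠ 0 := by
  have h1 : ‖1 - conj w0‖ = ‖1 - w0‖ := by
    rw [← Complex.norm_conj, map_sub, map_one, Complex.conj_conj]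
  have h2 : ‖1 - w0‖ ≠ 0 := by
    intro h3
    rw [norm_eq_zero, sub_eq_zero] at h3
    rw [← h3, norm_one] at h
    exact lt_irrefl _ h
  have h3 : ‖(1 - conj w0) / (1 - w0)‖ = 1 := by rw [norm_div, h1, div_self h2]
  refine ⟨h3, fun h4 => ?_⟩
  rw [h4, norm_zero] at h3
  exact zero_ne_one h3

/-- irreducibility with the normalised Moebius transforms -/
lemma irrF_mob {F : Cn n → ℂ} (hI : IrrF n F) {w0 : ℂ} {w H : Cn n → ℂ} (h0 : ‖w0‖ < 1)
    (hw : DifferentiableOn ℂ w (ball 0 1)) (hH : DifferentiableOn ℂ H (ball 0 1))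
    (hb : ∀ z ∈ ball (0 : Cn n) 1, ‖w z‖ ≤ 1 ∧ ‖H z‖ ≤ 1 ∧ mob w0 (F z) = w z * H z) :
    (∀ z ∈ ball (0 : Cn n) 1, w z = w 0) ∨ (∀ z ∈ ball (0 : Cn n) 1, H z = H 0) := by
  obtain ⟨hc, hc0⟩ := mob_fac h0
  set c := (1 - conj w0) / (1 - w0) with hcd
  have hci : ‖c⁻¹‖ = 1 := by rw [norm_inv, hc, inv_one]
  rcases hI w0 (fun z => c⁻¹ * w z) H h0 (hw.const_mul _) hH (fun z hz => by
    obtain ⟨h1, h2, h3⟩ := hb z hz
    refine ⟨?_, h2, ?_⟩
    · rw [norm_mul, hci, one_mul]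
      exact h1
    · rw [mul_assoc, ← h3]
      unfold mob
      rw [← hcd, inv_mul_cancel_left₀ hc0]) with h | h
  · exact Or.inl fun z hz => mul_left_cancel₀ (inv_ne_zero hc0) (h z hz)
  · exact Or.inr h

/-- a nonconstant function all of whose Moebius transforms are irreducible takes all the values -/
lemma surj_of_irrF {F : Cn n → ℂ} (hF : Hol n F) (hI : IrrF n F)
    (hne : ∃ z ∈ ball (0 : Cn n) 1, F z ≠ F 0) :
    ∀ w0 ∈ ball (0 : ℂ) 1, ∃ z ∈ ball (0 : Cn n) 1, F z = w0 := by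
  intro w0 hw0
  by_contra hcon
  push Not at hcon
  have hw : ‖w0‖ < 1 := by simpa using hw0
  have hMd := mob_diff hF hw
  have hM0 : ∀ z ∈ ball (0 : Cn n) 1, mob w0 (F z) ≠ 0 := fun z hz =>
    H82L.mob_ne hw (hF.lt z hz) (hcon z hz)
  obtain ⟨c, k, hk, hM⟩ := exists_exp hMd hM0
  obtain ⟨c', hc'⟩ := IsAlgClosed.exists_pow_nat_eq c (n := 2) two_pos
  set s : Cn n → ℂ := fun z => c' * Complex.exp (k z / 2) with hs
  have hk2 : DifferentiableOn ℂ (fun z => k z / 2) (ball 0 1) := by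
    simp only [div_eq_mul_inv]
    exact hk.mul_const (2 : ℂ)⁻¹
  have hsd : DifferentiableOn ℂ s (ball 0 1) := hk2.cexp.const_mul c'
  have hss : ∀ z ∈ ball (0 : Cn n) 1, mob w0 (F z) = s z * s z := by
    intro z hz
    rw [hM z hz, ← hc']
    simp only [hs]
    have h1 : Complex.exp (k z) = Complex.exp (k z / 2) * Complex.exp (k z / 2) := by
      rw [← Complex.exp_add]
      ring_nf
    rw [h1]
    ring
  have hsn : ∀ z ∈ ball (0 : Cn n) 1, ‖s z‖ ≤ 1 := by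
    intro z hz
    have h1 := (H82L.norm_mob_lt hw (hF.lt z hz)).le
    rw [hss z hz, norm_mul] at h1
    nlinarith [norm_nonneg (s z)]
  have hconst : ∀ z ∈ ball (0 : Cn n) 1, s z = s 0 := by
    rcases irrF_mob hI hw hsd hsd (fun z hz => ⟨hsn z hz, hsn z hz, hss z hz⟩) with h | h
    · exact h
    · exact h
  have h0b : (0 : Cn n) ∈ ball (0 : Cn n) 1 := mem_ball_self one_pos
  obtain ⟨z, hz, hzn⟩ := hne
  refine hzn (mob_inj hw (hF.lt z hz) (hF.lt 0 h0b) ?_)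
  rw [hss z hz, hss 0 h0b, hconst z hz]

/-- irreducible implies prime -/
theorem primeF_of_irrF {F : Cn n → ℂ} (hF : Hol n F) (hI : IrrF n F)
    (hne : ∃ z ∈ ball (0 : Cn n) 1, F z ≠ F 0) : PrimeF n F := by
  have hsurj := surj_of_irrF hF hI hne
  have h0B : (0 : Cn n) ∈ ball (0 : Cn n) 1 := mem_ball_self one_pos
  obtain ⟨e, hOe⟩ : ∃ e, (Oe F e).Nonempty := by
    by_contra hcon
    push Not at hcon
    have hz : EqOn (fderiv ℂ F) 0 (ball (0 : Cn n) 1) := by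
      intro z hz
      refine ContinuousLinearMap.ext fun e => ?_
      by_contra h
      have h1 : z ∈ Oe F e := ⟨hz, h⟩
      rw [hcon e] at h1
      exact h1
    obtain ⟨z, hzb, hzF⟩ := hne
    exact hzF (isOpen_ball.is_const_of_fderiv_eq_zero
      (convex_ball (0 : Cn n) 1).isPreconnected hF.an hz hzb h0B)
  intro k hk hD
  have hR := krel locf n F k e hF.an hk hD
  have hE : ∀ z1 ∈ Oe F e, ∀ z2 ∈ Oe F e, F z1 = F z2 → Ek F k z1 z2 := by
    intro z1 h1 z2 h2 h12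
    by_contra hnE
    obtain ⟨w, H, hw, hH, hb, hw1, hw2, hH1⟩ := fact' n F e _ hF hR z1 h1 z2 h2 h12 hnE
    rcases irrF_mob hI (hF.lt z1 h1.1) hw hH hb with h | h
    · apply hw2
      rw [h z2 h2.1, ← h z1 h1.1, hw1]
    · have h3 := (hb z2 h2.1).2.2
      have h4 : mob (F z1) (F z2) = 0 := by
        unfold mob
        rw [← h12, sub_self, zero_div, mul_zero]
      rw [h4] at h3
      rcases mul_eq_zero.1 h3.symm with h5 | h5
      · exact hw2 h5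
      · apply hH1
        rw [h z1 h1.1, ← h z2 h2.1, h5]
  exact kof n F k e hF hk hsurj hOe fun z hz z' hz' hzz =>
    (hE z hz z' hz' hzz).2.self_of_nhds hzz

/-- extreme implies irreducible -/
theorem irrF_of_extreme {F : Cn n → ℂ} (hF : Hol n F) (hF0 : F 0 = 0)
    (hex : IsExtremePoint n (gf F)) : IrrF n F := by
  intro w0 w H h0 hw hH hb
  obtain ⟨hc, hc0⟩ := mob_fac h0
  set c := (1 - conj w0) / (1 - w0) with hcd
  rcases irr n F w0 (fun z => c * w z) H hF hF0 hex h0 (hw.const_mul _) hH (fun z hz => by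
    obtain ⟨h1, h2, h3⟩ := hb z hz
    refine ⟨?_, h2, ?_⟩
    · rw [norm_mul, hc, one_mul]
      exact h1
    · unfold mob
      rw [← hcd, h3, mul_assoc]) with h | h
  · exact Or.inl fun z hz => mul_left_cancel₀ hc0 (h z hz)
  · exact Or.inr h

end

end Pool.Agent.Lib.MP_6ff8d9_an.P69

namespace Pool.Agent.Lib.MP_6ff8d9_an.H22

open Pool.Agent.Lib.MP_6ff8d9_an Pool.Agent.Lib.MP_6ff8d9_an.Hom
open Pool.Agent.Lib.MP_6ff8d9_an.P69 Pool.Agent.Lib.MP_6ff8d9_an.H11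

noncomputable section

variable {n : ℕ}

/-- **the rational extreme points, with primality** -/
theorem iff_prime (hn : 1 ≤ n) (P Q : MvPolynomial (Fin n) ℂ) :
    IsExtremePoint n (gPQ P Q) ↔
      gPQ P Q ∈ NB n ∧ Dual P Q ∧ (Ct0 P Q).Nonempty ∧ PrimeF n (fF P Q) :=
  iff_prime_of thmg hn P Q

/-- **the rational extreme points, with irreducibility** -/
theorem iff_irr (hn : 1 ≤ n) (P Q : MvPolynomial (Fin n) ℂ) :
    IsExtremePoint n (gPQ P Q) ↔
      gPQ P Q ∈ NB n ∧ Dual P Q ∧ (Ct0 P Q).Nonempty ∧ IrrF n (fF P Q) := by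
  constructor
  · intro hex
    obtain ⟨hNB, hD, hC, -⟩ := (iff_prime hn P Q).1 hex
    have hA : Adm0 P Q := (H20R.adm n P Q hn hNB).1
    obtain ⟨hF, hF0, hq, hgeq⟩ := hol_fF hA
    exact ⟨hNB, hD, hC, irrF_of_extreme hF hF0 (extreme_congr hgeq hex)⟩
  · rintro ⟨hNB, hD, hC, hI⟩
    have hA : Adm0 P Q := (H20R.adm n P Q hn hNB).1
    obtain ⟨hF, hF0, hq, hgeq⟩ := hol_fF hA
    refine (iff_prime hn P Q).2 ⟨hNB, hD, hC, primeF_of_irrF hF hI ?_⟩
    -- `F` is not constant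
    obtain ⟨m, hm⟩ := hC
    obtain ⟨V, hV, hVne, -, hVs⟩ := sec_open hA hD hm
    obtain ⟨w, hwV, hw0⟩ := (dense_compl_singleton (0 : ℂ)).inter_open_nonempty V hV hVne
    obtain ⟨z, hz, hzw⟩ := hVs w hwV
    refine ⟨WithLp.toLp 2 z, ?_, ?_⟩
    · rw [mem_ball_zero_iff]
      have h1 := sum_sq (WithLp.toLp 2 z : Cn n)
      have h2 : ∑ i, ‖z i‖ ^ 2 < 1 := hz
      have h3 : ‖(WithLp.toLp 2 z : Cn n)‖ ^ 2 < 1 := by rw [← h1]; exact h2
      nlinarith [norm_nonneg (WithLp.toLp 2 z : Cn n)]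
    · rw [hF0]
      show fr P Q z ≠ 0
      rw [hzw]
      exact hw0

end

end Pool.Agent.Lib.MP_6ff8d9_an.H22
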