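import Pool.Agent.Lib.MP_6ff8d9_an_h22.Hinf
import Pool.Agent.Lib.MP_6ff8d9_an_h69.FinalU

/-!
# The rational extreme points: equivalences with Forelli's irreducibility of `F` itself
-/

open Metric Filter Topology MvPolynomial Set
open scoped ComplexConjugate

namespace Pool.Agent.Lib.MP_6ff8d9_an.H22

open Pool.Agent.Lib.MP_6ff8d9_an Pool.Agent.Lib.MP_6ff8d9_an.Hom
open Pool.Agent.Lib.MP_6ff8d9_an.P69 Pool.Agent.Lib.MP_6ff8d9_an.H11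

noncomputable section

variable {n : ℕ}

/-- irreducibility of all the Moebius transforms gives irreducibility -/
lemma irr1_of_irrF {F : Cn n → ℂ} (hI : IrrF n F) : Irr1 n F := by
  intro w H hw hH hb
  refine hI 0 w H (by simp) hw hH fun z hz => ?_
  obtain ⟨h1, h2, h3⟩ := hb z hz
  refine ⟨h1, h2, ?_⟩
  rw [map_zero, zero_mul, sub_zero, sub_zero, div_one, h3]

/-- `F` is not constant as soon as there is a regular contact point and the duality holds -/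
lemma nonconst_of_dual {P Q : MvPolynomial (Fin n) ℂ} (hA : Adm0 P Q) (hD : Dual P Q)
    (hC : (Ct0 P Q).Nonempty) : ∃ z ∈ ball (0 : Cn n) 1, fF P Q z ≠ 0 := by
  obtain ⟨m, hm⟩ := hC
  obtain ⟨V, hV, hVne, -, hVs⟩ := sec_open hA hD hm
  obtain ⟨w, hwV, hw0⟩ := (dense_compl_singleton (0 : ℂ)).inter_open_nonempty V hV hVne
  obtain ⟨z, hz, hzw⟩ := hVs w hwV
  refine ⟨WithLp.toLp 2 z, ?_, ?_⟩
  · rw [mem_ball_zero_iff]
    have h1 := sum_sq (WithLp.toLp 2 z : Cn n)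
    have h2 : ∑ i, ‖z i‖ ^ 2 < 1 := hz
    have h3 : ‖(WithLp.toLp 2 z : Cn n)‖ ^ 2 < 1 := by rw [← h1]; exact h2
    nlinarith [norm_nonneg (WithLp.toLp 2 z : Cn n)]
  · show fr P Q z ≠ 0
    rw [hzw]
    exact hw0

/-- (i) ⇒ (ii) -/
theorem step12 (hn : 1 ≤ n) {P Q : MvPolynomial (Fin n) ℂ} (hex : IsExtremePoint n (gPQ P Q)) :
    ExtH n (fF P Q) ∧ Irr1 n (fF P Q) := by
  obtain ⟨-, h1, h2⟩ := (iff_hinf hn P Q).1 hex
  exact ⟨h1, irr1_of_irrF h2⟩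

/-- (ii) ⇒ (iii) -/
theorem step23 (hn : 1 ≤ n) {P Q : MvPolynomial (Fin n) ℂ} (hNB : gPQ P Q ∈ NB n)
    (hE : ExtH n (fF P Q)) : Dual P Q ∧ (Ct0 P Q).Nonempty :=
  dual_of_star hn (H20R.adm n P Q hn hNB).1 (star_of_extH hE)

/-- (iii) ⇒ (iv) -/
theorem step34 (hn : 1 ≤ n) {P Q : MvPolynomial (Fin n) ℂ} (hNB : gPQ P Q ∈ NB n)
    (hD : Dual P Q) (hC : (Ct0 P Q).Nonempty) (hI : Irr1 n (fF P Q)) : PrimeF n (fF P Q) := by
  have hA : Adm0 P Q := (H20R.adm n P Q hn hNB).1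
  obtain ⟨hF, hF0, -, -⟩ := hol_fF hA
  exact H69F.irrprime n (fF P Q) hF hF0 (nonconst_of_dual hA hD hC) hI

/-- (iv) ⇒ (i) -/
theorem step41 (hn : 1 ≤ n) {P Q : MvPolynomial (Fin n) ℂ} (hNB : gPQ P Q ∈ NB n)
    (hD : Dual P Q) (hC : (Ct0 P Q).Nonempty) (hP : PrimeF n (fF P Q)) :
    IsExtremePoint n (gPQ P Q) := (iff_prime hn P Q).2 ⟨hNB, hD, hC, hP⟩

end

end Pool.Agent.Lib.MP_6ff8d9_an.H22
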