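import Pool.Agent.Lib.MP_6ff8d9_an_h20.FinalP

/-!
# MP_6ff8d9_an: the extreme points of `N(𝔹)` with polynomial Cayley transform

`Cn n` is `ℂⁿ` with the Euclidean norm, `NB n` is `N(𝔹)`, `IsExtremePoint` is the definition of the
problem (all three in `Pool.Agent.Lib.MP_6ff8d9_an.Defs`).
-/

open MvPolynomial
open scoped ComplexConjugate

namespace Pool.Agent.Results.MP_6ff8d9_an.Polynomial

open Pool.Agent.Lib.MP_6ff8d9_an

/-- Let `n ≥ 2` and let `f` be an arbitrary polynomial on `ℂⁿ`.  Put `G(z) = conj (∇f(z))`.  Then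
`(1 + f)/(1 - f)` is an extreme point of `N(𝔹)` if and only if `f` is not a proper power of a
polynomial, and `f` is homogeneous of some degree `m ≥ 2` with `G(G(z)) = m^m f(z)^(m-2) z` for
all `z`. -/
theorem result (n : ℕ) (hn : 2 ≤ n) (f : MvPolynomial (Fin n) ℂ) :
    IsExtremePoint n (fun z : Cn n => (1 + eval (fun i => z i) f) / (1 - eval (fun i => z i) f)) ↔
      (¬ ∃ k : ℕ, 2 ≤ k ∧ ∃ P : MvPolynomial (Fin n) ℂ, f = P ^ k) ∧
        ∃ m : ℕ, 2 ≤ m ∧ f.IsHomogeneous m ∧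
          ∀ (z : Fin n → ℂ) (i : Fin n),
            conj (eval (fun j => conj (eval z (pderiv j f))) (pderiv i f)) =
              (m : ℂ) ^ m * eval z f ^ (m - 2) * z i :=
  Hom.H20.mainQ hn f

end Pool.Agent.Results.MP_6ff8d9_an.Polynomial
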