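import Pool.Agent.Lib.MP_6ff8d9_an_h1.Radial
import Pool.Agent.Lib.MP_6ff8d9_an_h22.AsmZ

/-!
# CONTACT0, RADIAL0, POINC0
-/

set_option autoImplicit false

open Metric Filter Topology MvPolynomial
open scoped ComplexConjugate

namespace Pool.Agent.Lib.MP_6ff8d9_an.H22.Z

open Pool.Agent.Lib.MP_6ff8d9_an Pool.Agent.Lib.MP_6ff8d9_an.Hom
open Pool.Agent.Lib.MP_6ff8d9_an.H22 Pool.Agent.Lib.MP_6ff8d9_an.H1R Poinc

variable {n : ℕ}

theorem contact0 : CONTACT0 := by
  intro n P Q hA m hm
  obtain ⟨hm1, hQm, hmPQ⟩ := hm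
  have hPm : eval m P ≠ 0 := by
    intro h
    rw [h, norm_zero] at hmPQ
    exact hQm (norm_eq_zero.1 hmPQ.symm)
  constructor
  · intro j
    obtain ⟨K, _, hK⟩ := H20R.tang_row n P Q hA
    have h := hK m hm1 j
    have h0 : dfc P Q m = 0 := by unfold dfc; rw [hmPQ]; ring
    rw [h0, Real.sqrt_zero, mul_zero] at h
    have h1 : ‖eval m (Wr P Q j) - conj (m j) * eval m (Rr P Q)‖ = 0 := by
      have hq : 0 < ‖eval m Q‖ := norm_pos_iff.2 hQm
      by_contra hne
      have hp := lt_of_le_of_ne (norm_nonneg _) (Ne.symm hne)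
      have := mul_pos hq hp
      linarith
    exact sub_eq_zero.1 (norm_eq_zero.1 h1)
  · -- the slice
    set φ : ℂ → ℂ := fun t => eval (t • m) P / eval (t • m) Q with hφ
    have hball : ∀ t : ℂ, ‖t‖ ≤ 1 → ∑ i, ‖(t • m) i‖ ^ 2 ≤ 1 := by
      intro t ht
      rw [sum_smul_sq, hm1, mul_one]
      exact pow_le_one₀ (norm_nonneg _) ht
    have hball' : ∀ t : ℂ, ‖t‖ < 1 → ∑ i, ‖(t • m) i‖ ^ 2 < 1 := by
      intro t ht
      rw [sum_smul_sq, hm1, mul_one]
      exact pow_lt_one₀ (norm_nonneg _) ht two_ne_zero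
    have hQt : ∀ t : ℂ, ‖t‖ < 1 → eval (t • m) Q ≠ 0 := fun t ht =>
      norm_pos_iff.1 ((norm_nonneg _).trans_lt (hA.lt _ (hball' t ht)))
    have hle : ∀ t : ℂ, ‖t‖ ≤ 1 → ‖φ t‖ ≤ 1 := by
      intro t ht
      rw [hφ]
      simp only
      rw [norm_div]
      exact div_le_one_of_le₀ (hA.le _ (hball t ht)) (norm_nonneg _)
    have hlt : ∀ t : ℂ, ‖t‖ < 1 → ‖φ t‖ < 1 := by
      intro t ht
      rw [hφ]
      simp only
      rw [norm_div, div_lt_one (norm_pos_iff.2 (hQt t ht))]
      exact hA.lt _ (hball' t ht)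
    have hder : ∀ t : ℂ, eval (t • m) Q ≠ 0 → HasDerivAt φ
        (((∑ j, m j * eval (t • m) (pderiv j P)) * eval (t • m) Q -
          eval (t • m) P * (∑ j, m j * eval (t • m) (pderiv j Q))) / eval (t • m) Q ^ 2) t :=
      fun t ht => (hasDerivAt_line P m t).div (hasDerivAt_line Q m t) ht
    have hd1 := hder 1 (by rw [one_smul]; exact hQm)
    rw [one_smul] at hd1
    have hR : eval m (Rr P Q) = (∑ j, m j * eval m (pderiv j P)) * eval m Q -
        eval m P * (∑ j, m j * eval m (pderiv j Q)) := by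
      unfold Rr Wr
      rw [map_sum, Finset.sum_mul, Finset.mul_sum, ← Finset.sum_sub_distrib]
      refine Finset.sum_congr rfl fun j _ => ?_
      simp only [map_mul, map_sub, eval_X]
      ring
    rw [← hR] at hd1
    set d := eval m (Rr P Q) / eval m Q ^ 2 with hd
    set a := φ 1 with ha
    have haPQ : a = eval m P / eval m Q := by rw [ha, hφ]; simp
    have hna : ‖a‖ = 1 := by
      rw [haPQ, norm_div, hmPQ, div_self (norm_ne_zero_iff.2 hQm)]
    have haa : conj a * a = 1 := by
      rw [mul_comm, Complex.mul_conj, Complex.normSq_eq_norm_sq, hna]; simp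
    have hφ0 : φ 0 = 0 := by
      rw [hφ]; simp only [zero_smul]; rw [hA.zero, zero_div]
    -- Schwarz
    have hschw : ∀ t : ℂ, ‖t‖ < 1 → ‖φ t‖ ≤ ‖t‖ := by
      intro t ht
      refine Complex.norm_le_norm_of_mapsTo_ball (R := 1) ?_ ?_ hφ0 ht
      · intro z hz
        exact (hder z (hQt z (mem_ball_zero_iff.1 hz))).differentiableAt.differentiableWithinAt
      · intro z hz
        exact mem_closedBall_zero_iff.2 (hlt z (mem_ball_zero_iff.1 hz)).le
    -- radial derivative
    have hrad : HasDerivAt (fun s : ℝ => (conj a * φ (s : ℂ)).re) (conj a * d).re 1 := by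
      have h1 : HasDerivAt (fun s : ℂ => conj a * φ s) (conj a * d) ((1 : ℝ) : ℂ) := by
        simpa using hd1.const_mul (conj a)
      exact h1.real_of_complex
    have hang : HasDerivAt (fun s : ℝ => (conj a * φ (Complex.exp (s * Complex.I))).re)
        (conj a * (d * Complex.I)).re 0 := by
      have he : HasDerivAt (fun s : ℂ => Complex.exp (s * Complex.I)) Complex.I ((0 : ℝ) : ℂ) := by
        have := ((hasDerivAt_id ((0 : ℝ) : ℂ)).mul_const Complex.I).cexp
        simpa using this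
      have h2 : HasDerivAt φ d (Complex.exp (((0 : ℝ) : ℂ) * Complex.I)) := by
        simpa using hd1
      have h1 : HasDerivAt (fun s : ℂ => conj a * φ (Complex.exp (s * Complex.I)))
          (conj a * (d * Complex.I)) ((0 : ℝ) : ℂ) :=
        (HasDerivAt.comp (h₂ := φ) (h := fun s : ℂ => Complex.exp (s * Complex.I))
          ((0 : ℝ) : ℂ) h2 he).const_mul (conj a)
      exact h1.real_of_complex
    have hre1 : ∀ x : ℂ, (conj a * x).re ≤ ‖x‖ := by
      intro x
      refine (Complex.re_le_norm _).trans ?_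
      rw [norm_mul, RCLike.norm_conj, hna, one_mul]
    have him : (conj a * d).im = 0 := by
      have hmax : IsLocalMax (fun s : ℝ => (conj a * φ (Complex.exp (s * Complex.I))).re) 0 := by
        refine Filter.Eventually.of_forall fun s => ?_
        simp only [Complex.ofReal_zero, zero_mul, Complex.exp_zero]
        rw [← ha, haa, Complex.one_re]
        refine (hre1 _).trans (hle _ ?_)
        rw [Complex.norm_exp_ofReal_mul_I]
      have h := hmax.hasDerivAt_eq_zero hang
      have e : (conj a * (d * Complex.I)).re = -(conj a * d).im := by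
        rw [← mul_assoc, Complex.mul_I_re]
      rw [e] at h
      linarith
    have hre : 1 ≤ (conj a * d).re := by
      -- the function s - Re(conj a φ(s)) has nonpositive derivative... use the minimum at 1
      have hd2 : HasDerivAt (fun s : ℝ => (conj a * φ (s : ℂ)).re - s) ((conj a * d).re - 1) 1 :=
        hrad.sub (hasDerivAt_id 1)
      by_contra hlt1
      push Not at hlt1
      have hneg : (conj a * d).re - 1 < 0 := by linarith
      -- then for s < 1 close to 1 the value is larger than at 1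
      have hsl := hd2.tendsto_slope
      have hev : ∀ᶠ s in 𝓝[≠] (1 : ℝ), slope (fun s : ℝ => (conj a * φ (s : ℂ)).re - s) 1 s < 0 :=
        hsl.eventually (gt_mem_nhds hneg)
      have hev2 : ∀ᶠ s in 𝓝[<] (1 : ℝ), slope (fun s : ℝ => (conj a * φ (s : ℂ)).re - s) 1 s < 0 :=
        hev.filter_mono (nhdsWithin_mono _ (fun x hx => ne_of_lt hx))
      have hev3 : ∀ᶠ s in 𝓝[<] (1 : ℝ), 0 < s ∧ s < 1 := by
        filter_upwards [Ioo_mem_nhdsLT (show (0 : ℝ) < 1 by norm_num)] with s hs
        exact hs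
      obtain ⟨s, hs1, hs2, hs3⟩ := (hev2.and hev3).exists
      rw [slope_def_field] at hs1
      have hval : (conj a * φ ((1 : ℝ) : ℂ)).re - 1 = 0 := by
        rw [Complex.ofReal_one, ← ha, haa]; simp
      simp only [hval, sub_zero] at hs1
      have hnum : 0 < ((conj a * φ (s : ℂ)).re - s) := by
        have hneg2 : s - 1 < 0 := by linarith
        by_contra hcon
        push Not at hcon
        have := div_nonneg_of_nonpos hcon hneg2.le
        linarith
      have hb : (conj a * φ (s : ℂ)).re ≤ s := by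
        refine (hre1 _).trans ((hschw _ ?_).trans ?_)
        · rw [Complex.norm_real, Real.norm_of_nonneg hs2.le]; exact hs3
        · rw [Complex.norm_real, Real.norm_of_nonneg hs2.le]
      linarith
    refine ⟨(conj a * d).re, by linarith, ?_⟩
    have hdb : conj a * d = ((conj a * d).re : ℂ) := by
      apply Complex.ext
      · simp
      · rw [him]; simp
    have hda : d = ((conj a * d).re : ℂ) * a := by
      rw [← hdb]
      calc d = (conj a * a) * d := by rw [haa, one_mul]
        _ = conj a * d * a := by ring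
    have h3 : eval m (Rr P Q) = d * eval m Q ^ 2 := by
      rw [hd]; field_simp
    rw [h3]
    nth_rewrite 1 [hda]
    rw [haPQ]
    field_simp

theorem radial0 : RADIAL0 := by
  intro n P Q hA m hm
  obtain ⟨b, hb, hR⟩ := (contact0 n P Q hA m hm).2
  obtain ⟨hm1, hQm, hmPQ⟩ := hm
  have hPm : eval m P ≠ 0 := by
    intro h
    rw [h, norm_zero] at hmPQ
    exact hQm (norm_eq_zero.1 hmPQ.symm)
  have hball : ∀ t : ℂ, ‖t‖ ≤ 1 → ∑ i, ‖(t • m) i‖ ^ 2 ≤ 1 := by
    intro t ht
    rw [sum_smul_sq, hm1, mul_one]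
    exact pow_le_one₀ (norm_nonneg _) ht
  have hball' : ∀ t : ℂ, ‖t‖ < 1 → ∑ i, ‖(t • m) i‖ ^ 2 < 1 := by
    intro t ht
    rw [sum_smul_sq, hm1, mul_one]
    exact pow_lt_one₀ (norm_nonneg _) ht two_ne_zero
  set φ : ℂ → ℂ := fun t => eval (t • m) P / eval (t • m) Q with hφ
  have hline : ∀ p : MvPolynomial (Fin n) ℂ, Continuous fun t : ℂ => eval (t • m) p :=
    fun p => continuous_iff_continuousAt.2 fun t => (hasDerivAt_line p m t).continuousAt
  have hQt : ∀ t : ℂ, ‖t‖ < 1 → eval (t • m) Q ≠ 0 := fun t ht =>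
    norm_pos_iff.1 ((norm_nonneg _).trans_lt (hA.lt _ (hball' t ht)))
  have hder : ∀ t : ℂ, eval (t • m) Q ≠ 0 → HasDerivAt φ
      (((∑ j, m j * eval (t • m) (pderiv j P)) * eval (t • m) Q -
        eval (t • m) P * (∑ j, m j * eval (t • m) (pderiv j Q))) / eval (t • m) Q ^ 2) t :=
    fun t ht => (hasDerivAt_line P m t).div (hasDerivAt_line Q m t) ht
  -- the numerator of the derivative
  set N : ℂ → ℂ := fun t => (∑ j, m j * eval (t • m) (pderiv j P)) * eval (t • m) Q -
    eval (t • m) P * (∑ j, m j * eval (t • m) (pderiv j Q)) with hN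
  have hNc : Continuous N := by
    rw [hN]
    refine Continuous.sub (Continuous.mul ?_ (hline Q)) (Continuous.mul (hline P) ?_)
    · exact continuous_finset_sum _ fun j _ => continuous_const.mul (hline _)
    · exact continuous_finset_sum _ fun j _ => continuous_const.mul (hline _)
  have hN1 : N 1 ≠ 0 := by
    have : N 1 = eval m (Rr P Q) := by
      rw [hN]
      unfold Rr Wr
      simp only [one_smul]
      rw [map_sum, Finset.sum_mul, Finset.mul_sum, ← Finset.sum_sub_distrib]
      refine Finset.sum_congr rfl fun j _ => ?_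
      simp only [map_mul, map_sub, eval_X]
      ring
    rw [this, hR]
    exact mul_ne_zero (by exact_mod_cast hb.ne') (mul_ne_zero hPm hQm)
  have hcur : Tendsto (fun t : ℝ => (1 : ℂ) - (t : ℂ)) (𝓝[>] 0) (𝓝 1) := by
    have : Continuous fun t : ℝ => (1 : ℂ) - (t : ℂ) := by fun_prop
    have h := (this.tendsto 0).mono_left (nhdsWithin_le_nhds (s := Set.Ioi (0 : ℝ)))
    simpa using h
  have h01 : ∀ᶠ t : ℝ in 𝓝[>] 0, 0 < t ∧ t < 1 := by
    filter_upwards [Ioo_mem_nhdsGT (show (0 : ℝ) < 1 by norm_num)] with s hs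
    exact hs
  constructor
  · have h1 : ContinuousAt φ 1 := (hder 1 (by rw [one_smul]; exact hQm)).continuousAt
    have h2 : Tendsto (fun t : ℝ => φ ((1 : ℂ) - (t : ℂ))) (𝓝[>] 0) (𝓝 (φ 1)) := h1.tendsto.comp hcur
    have e : φ 1 = fr P Q m := by rw [hφ]; simp [fr]
    rw [e] at h2
    exact h2
  · have h3 : ∀ᶠ t : ℝ in 𝓝[>] 0, N ((1 : ℂ) - (t : ℂ)) ≠ 0 :=
      hcur.eventually (hNc.continuousAt.eventually_ne hN1)
    filter_upwards [h01, h3] with t ht hNt
    have hn : ‖(1 : ℂ) - (t : ℂ)‖ < 1 := by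
      have : (1 : ℂ) - (t : ℂ) = ((1 - t : ℝ) : ℂ) := by push_cast; ring
      rw [this, Complex.norm_real, Real.norm_of_nonneg (by linarith [ht.2])]
      linarith [ht.1]
    constructor
    · unfold fr
      rw [norm_div, div_lt_one (norm_pos_iff.2 (hQt _ hn))]
      exact hA.lt _ (hball' _ hn)
    · refine ⟨(N ((1 : ℂ) - (t : ℂ)) / eval (((1 : ℂ) - (t : ℂ)) • m) Q ^ 2) * (-1),
        mul_ne_zero (div_ne_zero hNt (pow_ne_zero _ (hQt _ hn)))
          (by norm_num), ?_⟩
      have hc : HasDerivAt (fun t : ℝ => (1 : ℂ) - (t : ℂ)) (-1) t := by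
        have := (Complex.ofRealCLM.hasDerivAt (x := t)).const_sub 1
        simpa using this
      exact HasDerivAt.comp (h₂ := φ) (h := fun t : ℝ => (1 : ℂ) - (t : ℂ)) t (hder _ (hQt _ hn)) hc

/-- row B8 -/
theorem poinc0 : POINC0 := by
  intro n P Q hadm k hk hw j
  have hQ : ∀ z ∈ Bn n, eval z Q ≠ 0 := fun z hz => Qne_Bn hadm hz
  have hop := H22.isOpen_Bn n
  have hfr : ∀ z ∈ Bn n, AnalyticAt ℂ (fr P Q) z := fun z hz => analyticAt_fr P Q z (hQ z hz)
  have hkd : ∀ z ∈ Bn n, DifferentiableAt ℂ k z := fun z hz =>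
    hk.differentiableAt (hop.mem_nhds hz)
  set c : (Fin n → ℂ) → ℂ := fun z => k z * fr P Q z ^ j with hc
  have hcd : ∀ z ∈ Bn n, DifferentiableAt ℂ c z := fun z hz =>
    (hkd z hz).mul ((hfr z hz).differentiableAt.pow j)
  have hfd : ∀ z ∈ Bn n, DifferentiableAt ℂ (fun z => fderiv ℂ (fr P Q) z) z := fun z hz =>
    (hfr z hz).fderiv.differentiableAt
  -- the wedge condition for `c`
  have hwk : ∀ z ∈ Bn n, ∀ x y, fderiv ℂ k z x * fderiv ℂ (fr P Q) z y =
      fderiv ℂ k z y * fderiv ℂ (fr P Q) z x := by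
    intro z hz x y
    refine wedge_all (fun i j => ?_) x y
    rw [fderiv_fr P Q z (hQ z hz), fderiv_fr P Q z (hQ z hz)]
    have := hw z hz i j
    rw [div_mul_eq_mul_div, div_mul_eq_mul_div, this]
  have hcf : ∀ z ∈ Bn n, ∀ x, fderiv ℂ c z x = fr P Q z ^ j * fderiv ℂ k z x +
      k z * (j * fr P Q z ^ (j - 1)) * fderiv ℂ (fr P Q) z x := by
    intro z hz x
    have h1 : HasFDerivAt c _ z := (hkd z hz).hasFDerivAt.mul
      ((hfr z hz).differentiableAt.hasFDerivAt.pow j)
    rw [h1.fderiv]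
    simp only [add_apply, smul_apply, smul_eq_mul,
      nsmul_eq_mul]
    ring
  have hwc : ∀ z ∈ Bn n, ∀ x y, fderiv ℂ c z x * fderiv ℂ (fr P Q) z y =
      fderiv ℂ c z y * fderiv ℂ (fr P Q) z x := by
    intro z hz x y
    rw [hcf z hz, hcf z hz]
    linear_combination (fr P Q z ^ j) * hwk z hz x y
  -- the form
  obtain ⟨h, hh⟩ := Convex.exists_forall_hasFDerivAt_of_fderiv_symmetric (𝕜 := ℂ)
    (ω := fun z => c z • fderiv ℂ (fr P Q) z) (H22.convex_Bn n) hop
    (fun z hz => (((hcd z hz).smul (hfd z hz)).restrictScalars ℝ).differentiableWithinAt)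
    (by
      intro a ha x y
      have hd := (hcd a ha).smul (hfd a ha)
      have h1 : HasFDerivAt (fun z => c z • fderiv ℂ (fr P Q) z) _ a :=
        (hcd a ha).hasFDerivAt.smul (hfd a ha).hasFDerivAt
      have h2 := (h1.restrictScalars ℝ).fderiv
      rw [h2]
      have hs : fderiv ℂ (fderiv ℂ (fr P Q)) a x y = fderiv ℂ (fderiv ℂ (fr P Q)) a y x := by
        have h3 : ContDiffAt ℂ (minSmoothness ℂ 2) (fr P Q) a := (hfr a ha).contDiffAt
        exact (h3.isSymmSndFDerivAt le_rfl).eq x y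
      have e := hwc a ha x y
      have e1 : fderiv ℂ (fun z => fderiv ℂ (fr P Q) z) a = fderiv ℂ (fderiv ℂ (fr P Q)) a := rfl
      simp only [ContinuousLinearMap.coe_restrictScalars', add_apply,
        smul_apply, ContinuousLinearMap.smulRight_apply, smul_eq_mul, e1, hs]
      linear_combination e)
  refine ⟨h, fun z hz => (hh z hz).differentiableAt.differentiableWithinAt, ?_,
    fun z hz => (hh z hz).fderiv⟩
  intro z hz i l
  rw [(hh z hz).fderiv]
  simp only [smul_apply, smul_eq_mul]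
  rw [fderiv_fr P Q z (hQ z hz), fderiv_fr P Q z (hQ z hz)]
  ring


end Pool.Agent.Lib.MP_6ff8d9_an.H22.Z
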