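import Pool.Agent.Lib.MP_6ff8d9_an_h8.SymRows2
import Pool.Agent.Lib.MP_6ff8d9_an_h50.Xext
import Pool.Agent.Lib.MP_6ff8d9_an_h23.Proj

/-!
# MP_6ff8d9, dimension 2, row CAN2: canonical form of the second family
-/

open Metric Set Filter Topology Matrix
open scoped ComplexConjugate

namespace Pool.Agent.Lib.MP_6ff8d9_an.N2

open Pool.Agent.Lib.MP_6ff8d9_an Pool.Agent.Lib.MP_6ff8d9_an.H22
open Pool.Agent.Lib.MP_6ff8d9_an.N2.H50X

noncomputable section

namespace Can2X

/-- the function `X` -/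
def Xf (z : Cn 2) : ℂ := (1 + z 0) / (1 - z 0) - (z 1 / (1 - z 0)) ^ 2

lemma quad_fn (z : Cn 2) : Idx.quad.fn z = Xf z := rfl

lemma quadInv_fn (z : Cn 2) : Idx.quadInv.fn z = (Xf z)⁻¹ := rfl

lemma Xf_zero : Xf 0 = 1 := by simp [Xf]

lemma Xf_Ph {X v : ℂ} (h : 2 * v.im ^ 2 < X.re) : Xf (Ph X v) = X := by
  have hu := u1_ne (u_pos h)
  unfold Xf
  simp only [Ph0, Ph1]
  have e1 : 1 - (X + v ^ 2 - 1) / (X + v ^ 2 + 1) = 2 / (X + v ^ 2 + 1) := by
    field_simp
    ring
  have e2 : 1 + (X + v ^ 2 - 1) / (X + v ^ 2 + 1) = 2 * (X + v ^ 2) / (X + v ^ 2 + 1) := by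
    field_simp
    ring
  rw [e1, e2]
  field_simp
  ring

lemma Xf_fX {z : Cn 2} (hz : z ∈ ball (0 : Cn 2) 1) :
    0 < (Xf z).re ∧ fX (fun i => z i) = (Xf z - 1) / (Xf z + 1) := by
  obtain ⟨X, v, h, rfl⟩ := chart hz
  rw [Xf_Ph h, fX_Ph h]
  exact ⟨lt_of_le_of_lt (by positivity) h, rfl⟩

lemma mem_abs {z : Cn 2} (hz : z ∈ ball (0 : Cn 2) 1) : ‖z 0‖ < 1 := by
  rw [mem_ball_zero_iff] at hz
  exact (PiLp.norm_apply_le z 0).trans_lt hz

/-- the matrix of `u ↦ u + ir` -/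
def Ar (r : ℝ) : Matrix (Fin 3) (Fin 3) ℂ :=
  !![1 + r / 2 * Complex.I, -(r / 2 * Complex.I), 0;
    r / 2 * Complex.I, 1 - r / 2 * Complex.I, 0; 0, 0, 1]

lemma Ar_J (r : ℝ) : (Ar r)ᴴ * J3 * Ar r = J3 := by
  have h2 : conj (2 : ℂ) = 2 := Complex.conj_ofNat 2
  ext i j
  fin_cases i <;> fin_cases j <;>
    simp [Ar, J3, Matrix.mul_apply, Fin.sum_univ_three, Matrix.conjTranspose_apply,
      Matrix.diagonal_apply, h2] <;> ring

lemma den_Ar (r : ℝ) {z : Cn 2} (hz : z ∈ ball (0 : Cn 2) 1) :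
    1 + r / 2 * Complex.I * (1 - z 0) ≠ 0 := by
  intro h
  have h1 : (1 - z 0).re * ((r : ℝ) / 2) = 0 ∧ 1 - (r : ℝ) / 2 * (1 - z 0).im = 0 := by
    have hre := congrArg Complex.re h
    have him := congrArg Complex.im h
    simp only [Complex.add_re, Complex.add_im, Complex.mul_re, Complex.mul_im, Complex.one_re,
      Complex.one_im, Complex.I_re, Complex.I_im, Complex.div_ofNat_re, Complex.div_ofNat_im,
      Complex.ofReal_re, Complex.ofReal_im, Complex.zero_re, Complex.zero_im] at hre him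
    constructor
    · linarith
    · linarith
  have h2 : 0 < (1 - z 0).re := by
    rw [Complex.sub_re, Complex.one_re]
    have h3 := (Complex.abs_re_le_norm (z 0)).trans_lt (mem_abs hz)
    have h4 := (abs_lt.1 h3).2
    linarith
  rcases mul_eq_zero.1 h1.1 with h3 | h3
  · exact h2.ne' h3
  · rw [h3] at h1
    norm_num at h1

lemma actC_zero (A : Matrix (Fin 3) (Fin 3) ℂ) (z : Cn 2) : (actC A z) 0 =
    (A 1 0 + A 1 1 * z 0 + A 1 2 * z 1) / (A 0 0 + A 0 1 * z 0 + A 0 2 * z 1) := by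
  simp [actC, act, pr, hz, Matrix.mulVec, dotProduct, Fin.sum_univ_three]

lemma actC_one (A : Matrix (Fin 3) (Fin 3) ℂ) (z : Cn 2) : (actC A z) 1 =
    (A 2 0 + A 2 1 * z 0 + A 2 2 * z 1) / (A 0 0 + A 0 1 * z 0 + A 0 2 * z 1) := by
  simp [actC, act, pr, hz, Matrix.mulVec, dotProduct, Fin.sum_univ_three]

/-- the automorphism translates `X` -/
lemma Xf_act (r : ℝ) {z : Cn 2} (hz : z ∈ ball (0 : Cn 2) 1) :
    Xf (actC (Ar r) z) = Xf z + r * Complex.I := by
  have hd := den_Ar r hz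
  have h1 := one_sub_ne (mem_abs hz)
  set D := 1 + r / 2 * Complex.I * (1 - z 0) with hD
  have e0 : (actC (Ar r) z) 0 = (z 0 + r / 2 * Complex.I * (1 - z 0)) / D := by
    rw [actC_zero, hD]
    simp only [Ar, Matrix.of_apply, Matrix.cons_val', Matrix.cons_val_zero, Matrix.cons_val_one,
      Matrix.cons_val, Matrix.cons_val_fin_one]
    congr 1 <;> ring
  have e1 : (actC (Ar r) z) 1 = z 1 / D := by
    rw [actC_one, hD]
    simp only [Ar, Matrix.of_apply, Matrix.cons_val', Matrix.cons_val_zero, Matrix.cons_val_one,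
      Matrix.cons_val, Matrix.cons_val_fin_one]
    congr 1 <;> ring
  unfold Xf
  rw [e0, e1]
  have e2 : 1 - (z 0 + r / 2 * Complex.I * (1 - z 0)) / D = (1 - z 0) / D := by
    rw [one_sub_div hd]
    congr 1
    rw [hD]
    ring
  have e3 : 1 + (z 0 + r / 2 * Complex.I * (1 - z 0)) / D =
      (1 + z 0 + r * Complex.I * (1 - z 0)) / D := by
    rw [one_add_div hd]
    congr 1
    rw [hD]
    ring
  rw [e2, e3]
  field_simp
  ring

end Can2X

open Can2X

theorem can2 : CAN2 := by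
  intro c hc
  by_cases hc1 : c = 1
  · left
    subst hc1
    refine ⟨fun z => z, fun z => z, ⟨differentiableOn_id, differentiableOn_id, fun z hz => hz,
      fun z hz => hz, fun z _ => rfl, fun z _ => rfl⟩, fun z hz => ?_⟩
    obtain ⟨h1, h2⟩ := Xf_fX hz
    have h3 := u1_ne h1
    simp only [nrm, quad_fn, Xf_zero, cay, h2]
    rw [Complex.one_im, Complex.one_re]
    push_cast
    rw [mul_zero, sub_zero, div_one, one_mul]
    have e1 : 1 + (Xf z - 1) / (Xf z + 1) = 2 * Xf z / (Xf z + 1) := by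
      field_simp
      ring
    have e2 : 1 - (Xf z - 1) / (Xf z + 1) = 2 / (Xf z + 1) := by
      field_simp
      ring
    rw [e1, e2]
    field_simp
  · right
    have hne : 1 - c ≠ 0 := sub_ne_zero.2 (Ne.symm hc1)
    set r : ℝ := ((1 + c) / (1 - c)).im with hr
    have hk : (1 + c) / (1 - c) = r * Complex.I := by
      have h1 : ((1 + c) / (1 - c)).re = 0 := by
        rw [H50X.cay_re, hc]
        norm_num
      rw [← Complex.re_add_im ((1 + c) / (1 - c)), h1, hr]
      push_cast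
      ring
    have hP := (proj (Ar r) (Ar_J r)).2
    refine ⟨actC (Ar r), actC (Ar r)⁻¹, hP, fun z hz => ?_⟩
    obtain ⟨h1, h2⟩ := Xf_fX hz
    have h3 := u1_ne h1
    have h0 : (0 : Cn 2) ∈ ball (0 : Cn 2) 1 := mem_ball_self one_pos
    have hr2 : (0 : ℝ) < 1 + r ^ 2 := by positivity
    have hrc : (1 + (r : ℂ) ^ 2) ≠ 0 := by
      have : ((1 + r ^ 2 : ℝ) : ℂ) ≠ 0 := by exact_mod_cast hr2.ne'
      push_cast at this
      exact this
    have hXr : Xf z + r * Complex.I ≠ 0 := by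
      intro h
      have := congrArg Complex.re h
      simp at this
      linarith
    have hinv : (Xf (actC (Ar r) 0))⁻¹ = (((1 + r ^ 2)⁻¹ : ℝ) : ℂ) +
        ((-(r * (1 + r ^ 2)⁻¹) : ℝ) : ℂ) * Complex.I := by
      rw [Xf_act r h0, Xf_zero]
      have h4 : (1 + (r : ℂ) * Complex.I) ≠ 0 := by
        intro h
        have := congrArg Complex.re h
        simp at this
      rw [inv_eq_iff_eq_inv, eq_comm, inv_eq_iff_eq_inv]
      push_cast
      field_simp
      ring_nf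
      simp only [Complex.I_sq]
      ring
    simp only [nrm, quadInv_fn, hinv, Xf_act r hz]
    have him : ((((1 + r ^ 2)⁻¹ : ℝ) : ℂ) + ((-(r * (1 + r ^ 2)⁻¹) : ℝ) : ℂ) * Complex.I).im =
        -(r * (1 + r ^ 2)⁻¹) := by
      rw [Complex.add_im, Complex.mul_im, Complex.ofReal_im, Complex.ofReal_re, Complex.ofReal_im,
        Complex.I_im, Complex.I_re]
      ring
    have hre : ((((1 + r ^ 2)⁻¹ : ℝ) : ℂ) + ((-(r * (1 + r ^ 2)⁻¹) : ℝ) : ℂ) * Complex.I).re =
        (1 + r ^ 2)⁻¹ := by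
      rw [Complex.add_re, Complex.mul_re, Complex.ofReal_re, Complex.ofReal_re, Complex.ofReal_im,
        Complex.I_im, Complex.I_re]
      ring
    rw [him, hre]
    have hk' : 1 + c = (r * Complex.I) * (1 - c) := by
      rw [← hk, div_mul_cancel₀ _ hne]
    have e1 : 1 + c * ((Xf z - 1) / (Xf z + 1)) =
        (1 - c) * (r * Complex.I * Xf z + 1) / (Xf z + 1) := by
      rw [eq_div_iff h3, add_mul, one_mul, mul_assoc, div_mul_cancel₀ _ h3]
      linear_combination Xf z * hk'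
    have e2 : 1 - c * ((Xf z - 1) / (Xf z + 1)) =
        (1 - c) * (Xf z + r * Complex.I) / (Xf z + 1) := by
      rw [eq_div_iff h3, sub_mul, one_mul, mul_assoc, div_mul_cancel₀ _ h3]
      linear_combination hk'
    simp only [cay, h2]
    rw [e1, e2, div_div_div_cancel_right₀ h3, mul_div_mul_left _ _ hne]
    push_cast
    rw [div_inv_eq_mul, div_eq_iff hXr]
    field_simp
    ring_nf
    simp only [Complex.I_sq]
    ring

end

end Pool.Agent.Lib.MP_6ff8d9_an.N2
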