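import Pool.Agent.Lib.MP_6ff8d9_an_h8.SymRows
import Pool.Agent.Lib.MP_6ff8d9_an_h50.Xext

/-!
# MP_6ff8d9, dimension 2, row CHN: the Heisenberg chart
-/

open Metric Set Filter Topology
open scoped ComplexConjugate

namespace Pool.Agent.Lib.MP_6ff8d9_an.N2

open Pool.Agent.Lib.MP_6ff8d9_an Pool.Agent.Lib.MP_6ff8d9_an.H22
open Pool.Agent.Lib.MP_6ff8d9_an.N2.H50X

noncomputable section

namespace ChnX

lemma mem_Bn2 {z : Fin 2 → ℂ} : z ∈ Bn 2 ↔ (WithLp.toLp 2 z : Cn 2) ∈ ball (0 : Cn 2) 1 := by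
  rw [mem_ball_zero_iff, EuclideanSpace.norm_eq, Real.sqrt_lt' one_pos, one_pow]
  exact Iff.rfl

lemma psN_eq (w ζ : ℂ) : psN w ζ = fun i => Ph (cX w) ζ i := rfl

lemma toLp_psN (w ζ : ℂ) : (WithLp.toLp 2 (psN w ζ) : Cn 2) = Ph (cX w) ζ := rfl

lemma mem_iN {w : ℂ} {y : ℝ} : y ∈ iN w ↔ 2 * y ^ 2 < (cX w).re := Iff.rfl

end ChnX

open ChnX

/-- the Heisenberg chart -/
theorem chn : CHN := by
  refine ⟨1 / 4, ?_⟩
  refine
    { δpos := by norm_num
      dF := ?_
      lt := ?_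
      zero := by simp [fX]
      opn := ?_
      conn := ?_
      sub := ?_
      mem := ?_
      val := ?_
      dz := ?_
      dw := ?_
      surj := ?_ }
  · unfold fX
    simp only [div_eq_mul_inv]
    have h0 : Differentiable ℂ fun z : Fin 2 → ℂ => z 0 := by fun_prop
    have h1 : Differentiable ℂ fun z : Fin 2 → ℂ => z 1 := by fun_prop
    refine DifferentiableOn.mul ?_ (DifferentiableOn.inv ?_ fun z hz => ?_)
    · exact Differentiable.differentiableOn (by fun_prop)
    · exact Differentiable.differentiableOn (by fun_prop)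
    · exact den_ne (z := (WithLp.toLp 2 z : Cn 2)) (mem_Bn2.1 hz)
  · intro z hz
    exact fX_lt (z := (WithLp.toLp 2 z : Cn 2)) (mem_Bn2.1 hz)
  · intro w _
    exact isOpen_lt (by fun_prop) continuous_const
  · intro w _
    refine ⟨fun a ha b hb x hx => ?_⟩
    rw [mem_iN] at *
    have h1 : x ^ 2 ≤ a ^ 2 ∨ x ^ 2 ≤ b ^ 2 := by
      rcases le_total 0 x with h | h
      · right
        exact pow_le_pow_left₀ h hx.2 2
      · left
        nlinarith [hx.1]
    rcases h1 with h | h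
    · linarith
    · linarith
  · intro w hw y hy
    rw [sub_zero] at hy
    rw [mem_iN, cX_re]
    have h1 : 0 < 1 - ‖w‖ ^ 2 := by nlinarith [norm_nonneg w]
    have h2 : y ^ 2 < (1 / 4 * √(1 - ‖w‖ ^ 2)) ^ 2 := by
      rw [← sq_abs y]
      exact pow_lt_pow_left₀ hy (abs_nonneg y) two_ne_zero
    rw [mul_pow, Real.sq_sqrt h1.le] at h2
    have h3 := norm_pos_iff.2 (one_sub_ne hw)
    have h4 : ‖1 - w‖ ≤ 2 := by
      refine (norm_sub_le _ _).trans ?_
      rw [norm_one]
      linarith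
    rw [lt_div_iff₀ (by positivity)]
    have h5 : ‖1 - w‖ ^ 2 ≤ 4 := by nlinarith
    calc 2 * y ^ 2 * ‖1 - w‖ ^ 2 ≤ 2 * y ^ 2 * 4 :=
          mul_le_mul_of_nonneg_left h5 (by positivity)
      _ < 1 - ‖w‖ ^ 2 := by nlinarith
  · intro w ζ _ hζ
    exact mem_Bn2.2 (Ph_mem (X := cX w) (v := ζ) hζ)
  · intro w ζ hw hζ
    have h1 := fX_Ph (X := cX w) (v := ζ) hζ
    rw [psN_eq, h1]
    exact cX_inv hw
  · intro w _
    have hne : ∀ ζ ∈ {ζ : ℂ | ζ.im ∈ iN w}, (1 + w) / (1 - w) + ζ ^ 2 + 1 ≠ 0 := fun ζ hζ =>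
      u1_ne (u_pos (X := cX w) (v := ζ) hζ)
    rw [differentiableOn_pi]
    intro i
    fin_cases i
    · change DifferentiableOn ℂ (fun ζ : ℂ => ((1 + w) / (1 - w) + ζ ^ 2 - 1) /
        ((1 + w) / (1 - w) + ζ ^ 2 + 1)) _
      refine DifferentiableOn.div ?_ ?_ hne
      · exact Differentiable.differentiableOn (by fun_prop)
      · exact Differentiable.differentiableOn (by fun_prop)
    · change DifferentiableOn ℂ (fun ζ : ℂ => 2 * ζ / ((1 + w) / (1 - w) + ζ ^ 2 + 1)) _
      refine DifferentiableOn.div ?_ ?_ hne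
      · exact Differentiable.differentiableOn (by fun_prop)
      · exact Differentiable.differentiableOn (by fun_prop)
  · intro ζ hζ
    have hne : ∀ w ∈ ball (0 : ℂ) 1, (1 + w) / (1 - w) + ζ ^ 2 + 1 ≠ 0 := by
      intro w hw
      refine u1_ne (u_pos (X := cX w) (v := ζ) ?_)
      rw [hζ]
      simpa using cX_pos (mem_ball_zero_iff.1 hw)
    have hc : DifferentiableOn ℂ (fun w : ℂ => (1 + w) / (1 - w)) (ball 0 1) :=
      DifferentiableOn.div (Differentiable.differentiableOn (by fun_prop))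
        (Differentiable.differentiableOn (by fun_prop))
        fun w hw => one_sub_ne (mem_ball_zero_iff.1 hw)
    rw [differentiableOn_pi]
    intro i
    fin_cases i
    · change DifferentiableOn ℂ (fun w : ℂ => ((1 + w) / (1 - w) + ζ ^ 2 - 1) /
        ((1 + w) / (1 - w) + ζ ^ 2 + 1)) _
      exact ((hc.add_const _).sub_const _).div ((hc.add_const _).add_const _) hne
    · change DifferentiableOn ℂ (fun w : ℂ => 2 * ζ / ((1 + w) / (1 - w) + ζ ^ 2 + 1)) _
      exact (differentiableOn_const _).div ((hc.add_const _).add_const _) hne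
  · intro z hz
    obtain ⟨X, v, h, hXv⟩ := chart (mem_Bn2.1 hz)
    have hz' : z = fun i => Ph X v i := by
      rw [hXv]
    have hX0 : 0 < X.re := lt_of_le_of_lt (by positivity) h
    have hf : fX z = (X - 1) / (X + 1) := by
      rw [hz', fX_Ph h]
    have hc : cX (fX z) = X := by
      rw [hf]
      exact (cX_surj hX0).2
    refine ⟨v, ?_, ?_⟩
    · rw [mem_iN, hc]
      exact h
    · rw [psN_eq, hc, hXv]

end

end Pool.Agent.Lib.MP_6ff8d9_an.N2
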